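import Pool.Agent.RO.Cst

/-!
# LOCAL: few oracle bits decide that a window is accepted
-/

namespace Pool.Agent.RO.LOCAL

open Pool.Agent.H19 (T PolyTime PolyDec PolyNat Tm scons bn bl ofBool encL tif)

theorem tow_lt (s : ℕ) : tow s < tow (s + 1) := Nat.lt_two_pow_self

theorem tow_mono : StrictMono tow := strictMono_nat_of_lt_succ tow_lt

theorem two_pow_tow_le {s s' : ℕ} (h : s < s') : 2 ^ tow s ≤ tow s' := by
  have : tow (s + 1) ≤ tow s' := tow_mono.monotone h
  exact this

theorem size_le_numeral (n : ℕ) : n.size ≤ (Tm.numeral n).enc.size := by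
  induction n using Nat.strong_induction_on with
  | _ n ih =>
    by_cases h : n = 0
    · subst h; simp
    · rw [H19.Tm.numeral_pos h, H19.Nat.size_eq_size_half h]
      have := ih (n / 2) (by omega)
      split_ifs with h2
      · simp only [Tm.enc, Tm.two, T.size, T.size_unary]; omega
      · simp only [Tm.enc, Tm.two, T.size, T.size_unary]; omega

/-- Membership of a formula in a theory depends on few bits. -/
theorem theory_loc (hE : Stmt_EVLOC) (O : Om) (c : OCode) (k : ℕ) (φ : Fm)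
    (h : φ ∈ theory O c k) :
    ∃ Q : Finset ℕ, Q.card ≤ (φ.enc.size + 2) ^ k ∧
      (∀ n ∈ Q, n.size ≤ (φ.enc.size + 2) ^ k + φ.enc.size) ∧
      ∀ O' : Om, (∀ n ∈ Q, O' n = O n) → φ ∈ theory O' c k := by
  have hpos : 1 ≤ (φ.enc.size + 2) ^ k := Nat.one_le_pow _ _ (by omega)
  rcases h with h | h | h
  · exact ⟨∅, by simp, by simp, fun O' _ => Or.inl h⟩
  · obtain ⟨n, h⟩ := h
    refine ⟨{n}, by simpa using hpos, ?_, ?_⟩
    · intro n' hn'
      rw [Finset.mem_singleton] at hn'
      subst hn'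
      have h1 := size_le_numeral n'
      rcases h with ⟨_, rfl⟩ | ⟨_, rfl⟩
      · simp only [Fm.enc, T.size]; omega
      · simp only [Fm.neg, Fm.enc, T.size]; omega
    · intro O' hO'
      have h2 := hO' n (Finset.mem_singleton_self n)
      refine Or.inr (Or.inl ⟨n, ?_⟩)
      rw [h2]; exact h
  · obtain ⟨y, t, he, ht, hy⟩ := h
    obtain ⟨Q, hQ1, hQ2, hQ3⟩ := hE O c φ.enc y t he
    refine ⟨Q, hQ1.trans ht, fun n hn => (hQ2 n hn).trans (ht.trans (Nat.le_add_right _ _)), ?_⟩
    intro O' hO'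
    exact Or.inr (Or.inr ⟨y, t, hQ3 O' hO', ht, hy⟩)

theorem toL_length (E : T) : E.toL.length ≤ E.size := by
  induction E with
  | leaf => simp [T.toL, T.size]
  | node a b _ ih =>
    simp only [T.toL, List.length_cons, T.size]
    have := H19.T.size_pos a
    omega

theorem toL_size (E a : T) (h : a ∈ E.toL) : a.size ≤ E.size := by
  induction E with
  | leaf => simp [T.toL] at h
  | node b c _ ih =>
    simp only [T.toL, List.mem_cons] at h
    simp only [T.size]
    rcases h with rfl | h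
    · omega
    · have := ih h; omega

theorem hyps_length (π : List Step) : (hyps π).length ≤ π.length := by
  induction π with
  | nil => simp [hyps]
  | cons s π ih =>
    cases s <;> simp only [hyps, List.length_cons] <;> omega

theorem mem_hyps (π : List Step) (φ : Fm) (h : φ ∈ hyps π) : Step.hyp φ ∈ π := by
  induction π with
  | nil => simp [hyps] at h
  | cons s π ih =>
    cases s with
    | hyp ψ =>
      simp only [hyps, List.mem_cons] at h
      rcases h with rfl | h
      · exact List.mem_cons_self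
      · exact List.mem_cons_of_mem _ (ih h)
    | _ => exact List.mem_cons_of_mem _ (ih (by simpa only [hyps] using h))

theorem decStep_hyp (x : T) (φ : Fm) (h : decStep x = Step.hyp φ) : φ = decFm x.right := by
  unfold decStep at h
  split_ifs at h
  exact (Step.hyp.inj h).symm

theorem hyps_size (E : T) (φ : Fm) (h : φ ∈ hyps (decProof E)) : φ.enc.size ≤ 30 * E.size := by
  have h1 := mem_hyps _ _ h
  unfold decProof at h1
  rw [List.mem_map] at h1
  obtain ⟨x, hx, hx'⟩ := h1
  rw [decStep_hyp x φ hx']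
  have h2 := normFm_size x.right
  have h3 := H19.T.size_right_le x
  have h4 := toL_size E x hx
  omega

/-- Finitely many formulas: union of the bits. -/
theorem list_loc (hE : Stmt_EVLOC) (O : Om) (c : OCode) (k B : ℕ) (l : List Fm)
    (hl : ∀ φ ∈ l, φ ∈ theory O c k)
    (hB : ∀ φ ∈ l, (φ.enc.size + 2) ^ k + φ.enc.size ≤ B) :
    ∃ Q : Finset ℕ, Q.card ≤ l.length * B ∧ (∀ n ∈ Q, n.size ≤ B) ∧
      ∀ O' : Om, (∀ n ∈ Q, O' n = O n) → ∀ φ ∈ l, φ ∈ theory O' c k := by
  induction l with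
  | nil => exact ⟨∅, by simp, by simp, by simp⟩
  | cons a l ih =>
    obtain ⟨Q, h1, h2, h3⟩ := ih (fun φ hφ => hl φ (List.mem_cons_of_mem _ hφ))
      (fun φ hφ => hB φ (List.mem_cons_of_mem _ hφ))
    obtain ⟨Q', h1', h2', h3'⟩ := theory_loc hE O c k a (hl a List.mem_cons_self)
    have hBa := hB a List.mem_cons_self
    classical
    refine ⟨Q ∪ Q', ?_, ?_, ?_⟩
    · refine (Finset.card_union_le _ _).trans ?_
      rw [List.length_cons, Nat.succ_mul]
      have : Q'.card ≤ B := h1'.trans ((Nat.le_add_right _ _).trans hBa)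
      omega
    · intro n hn
      rw [Finset.mem_union] at hn
      rcases hn with hn | hn
      · exact h2 n hn
      · exact (h2' n hn).trans hBa
    · intro O' hO' φ hφ
      rw [List.mem_cons] at hφ
      rcases hφ with rfl | hφ
      · exact h3' O' fun n hn => hO' n (Finset.mem_union_right _ hn)
      · exact h3 O' (fun n hn => hO' n (Finset.mem_union_left _ hn)) φ hφ

/-- The arithmetic: few and short bits. -/
theorem arith (k M L : ℕ) (hL : 1 ≤ L) (hM : 40 * (k + 1) ≤ M)
    (hLM : L ≤ 2 ^ (M / (4 * (k + 1)))) :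
    2 * (L * ((30 * L + 2) ^ k + 30 * L)) ≤ 2 ^ M := by
  have h1 : (30 * L + 2) ^ k + 30 * L ≤ 2 * (32 * L) ^ (k + 1) := by
    have h2 : (30 * L + 2) ^ k ≤ (32 * L) ^ (k + 1) :=
      (Nat.pow_le_pow_left (by omega) k).trans (Nat.pow_le_pow_right (by omega) (by omega))
    have h3 : 30 * L ≤ (32 * L) ^ (k + 1) := by
      calc 30 * L ≤ (32 * L) ^ 1 := by rw [pow_one]; omega
        _ ≤ _ := Nat.pow_le_pow_right (by omega) (by omega)
    omega
  have h2 : 2 * (L * ((30 * L + 2) ^ k + 30 * L)) ≤ (32 * L) ^ (k + 2) := by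
    calc 2 * (L * ((30 * L + 2) ^ k + 30 * L)) ≤ 2 * (L * (2 * (32 * L) ^ (k + 1))) := by gcongr
      _ = (4 * L) * (32 * L) ^ (k + 1) := by ring
      _ ≤ (32 * L) * (32 * L) ^ (k + 1) := by gcongr; omega
      _ = (32 * L) ^ (k + 2) := by ring
  refine h2.trans ?_
  have h3 : 32 * L ≤ 2 ^ (5 + M / (4 * (k + 1))) := by
    rw [pow_add]
    calc 32 * L ≤ 32 * 2 ^ (M / (4 * (k + 1))) := by gcongr
      _ = _ := by norm_num
  calc (32 * L) ^ (k + 2) ≤ (2 ^ (5 + M / (4 * (k + 1)))) ^ (k + 2) :=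
        Nat.pow_le_pow_left h3 _
    _ = 2 ^ ((5 + M / (4 * (k + 1))) * (k + 2)) := by rw [← pow_mul]
    _ ≤ 2 ^ M := by
        apply Nat.pow_le_pow_right (by norm_num)
        have h5 : M / (4 * (k + 1)) * (4 * (k + 1)) ≤ M := Nat.div_mul_le_self _ _
        have h6 : 2 * (M / (4 * (k + 1)) * (k + 2)) ≤ M / (4 * (k + 1)) * (4 * (k + 1)) := by
          calc 2 * (M / (4 * (k + 1)) * (k + 2)) = M / (4 * (k + 1)) * (2 * (k + 2)) := by ring
            _ ≤ _ := Nat.mul_le_mul_left _ (by omega)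
        have h7 : (5 + M / (4 * (k + 1))) * (k + 2) = 5 * (k + 2) + M / (4 * (k + 1)) * (k + 2) := by
          ring
        rw [h7]
        omega

theorem size_pos_gt (M x i : ℕ) : 2 * M < (pos M x i).size := by
  rw [Nat.lt_size]
  unfold pos
  rw [Nat.add_assoc]
  exact Nat.le_add_right _ _

end LOCAL

theorem LOCAL_thm (hH : Stmt_HYPS) (hE : Stmt_EVLOC) : Stmt_LOCAL := by
  intro p hp j q d R hR
  obtain ⟨E, hE1, hE2⟩ := hR
  rw [hH] at hE2
  obtain ⟨hE2, hE3⟩ := hE2
  have hM : 40 * (p.kS + 1) ≤ p.m (j + d) :=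
    hp.s0_big.trans (LOCAL.tow_mono.monotone (Nat.le_add_right _ _))
  rw [hp.e_eq] at hE1
  have hL := H19.T.size_pos E
  have hbound : ∀ φ ∈ hyps (decProof E), (φ.enc.size + 2) ^ p.kS + φ.enc.size ≤
      (30 * E.size + 2) ^ p.kS + 30 * E.size := by
    intro φ hφ
    have := LOCAL.hyps_size E φ hφ
    gcongr
  obtain ⟨Q, hQ1, hQ2, hQ3⟩ := LOCAL.list_loc hE (join p.A R) p.cS p.kS
    ((30 * E.size + 2) ^ p.kS + 30 * E.size) (hyps (decProof E)) hE3 hbound
  have harith := LOCAL.arith p.kS (p.m (j + d)) E.size hL hM hE1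
  have hlen : (hyps (decProof E)).length ≤ E.size := by
    refine (LOCAL.hyps_length _).trans ?_
    unfold decProof
    rw [List.length_map]
    exact LOCAL.toL_length E
  have hBM : (30 * E.size + 2) ^ p.kS + 30 * E.size ≤ 2 ^ p.m (j + d) := by
    refine le_trans ?_ harith
    calc (30 * E.size + 2) ^ p.kS + 30 * E.size
        = 1 * ((30 * E.size + 2) ^ p.kS + 30 * E.size) := (one_mul _).symm
      _ ≤ E.size * ((30 * E.size + 2) ^ p.kS + 30 * E.size) := by gcongr
      _ ≤ 2 * (E.size * ((30 * E.size + 2) ^ p.kS + 30 * E.size)) := by omega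
  classical
  refine ⟨(Q.filter fun n => n % 2 = 1).image (· / 2), ?_, ?_, ?_⟩
  · refine le_trans ?_ harith
    gcongr
    refine Finset.card_image_le.trans ((Finset.card_filter_le _ _).trans (hQ1.trans ?_))
    gcongr
  · intro n hn d' hd' hW
    rw [Finset.mem_image] at hn
    obtain ⟨n', hn', rfl⟩ := hn
    rw [Finset.mem_filter] at hn'
    obtain ⟨x, hx, i, hi, hxi⟩ := hW
    have h1 := LOCAL.size_pos_gt (p.m (j + d')) x i
    have h2 : n' / 2 = pos (p.m (j + d')) x i := hxi
    rw [← h2] at h1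
    have h3 : (n' / 2).size ≤ n'.size := Nat.size_le_size (Nat.div_le_self _ _)
    have h4 := hQ2 n' hn'.1
    have h5 : 2 ^ p.m (j + d) ≤ p.m (j + d') := LOCAL.two_pow_tow_le (by omega)
    omega
  · intro R' hR'
    refine ⟨E, by rw [hp.e_eq]; exact hE1, ?_⟩
    rw [hH]
    refine ⟨hE2, hQ3 (join p.A R') ?_⟩
    intro n hn
    unfold join
    split_ifs with h
    · rfl
    · exact hR' (n / 2) (Finset.mem_image.2 ⟨n, Finset.mem_filter.2 ⟨hn, by omega⟩, rfl⟩)

end Pool.Agent.RO
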