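import Pool.Agent.RO.Cst

set_option autoImplicit false

/-!
# HYPS and CNT: the axioms used in a proof; there are countably many programs
-/

namespace Pool.Agent.RO

open Pool.Agent.H19 (T PolyTime PolyDec PolyNat Tm scons bn bl ofBool encL tif)

namespace HYPS

theorem derives_iff (Th : Set Fm) (φ : Fm) (π : List Step) : ∀ prev : List Fm,
    (Derives Th prev π φ ↔ Derives Set.univ prev π φ ∧ ∀ ψ ∈ hyps π, ψ ∈ Th) := by
  induction π with
  | nil => intro prev; simp [Derives, hyps]
  | cons s π ih =>
    intro prev
    cases s <;> simp only [Derives, Step.ok, hyps, ih, List.mem_cons, Set.mem_univ, true_and,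
      forall_eq_or_imp, and_assoc]
    tauto

deriving instance Countable for OCode

end HYPS

theorem HYPS_thm : Stmt_HYPS := fun Th π φ => HYPS.derives_iff Th φ π []

theorem CNT_thm : Stmt_CNT := by
  unfold Stmt_CNT
  infer_instance

end Pool.Agent.RO
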