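import Pool.Agent.RO.Defs
import Pool.Agent.Lib_helper19.Recursion

/-!
# Oracle programs: determinism, locality, closure properties, recursion theorem
-/

namespace Pool.Agent.RO

open Pool.Agent.H19 (T PolyTime PolyB Code Eval bn ofBool tif_leaf tif_node pow_add_le)

/-! ### Basic properties -/

theorem EvalO.size_le {O : Om} {c : OCode} {x y : T} {t : ℕ} (h : EvalO O c x y t) :
    y.size ≤ t := by
  induction h with
  | id x => exact le_rfl
  | leaf x => simp [T.size]
  | fst x => exact T.size_left_le x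
  | snd x => exact T.size_right_le x
  | pair _ _ ih1 ih2 => simp only [T.size]; omega
  | comp _ _ _ ih2 => omega
  | ite_leaf _ _ _ ih2 => omega
  | ite_node _ _ _ ih2 => omega
  | @loop_stop f x _ => have := T.size_right_le x; omega
  | loop_step _ _ _ _ ih2 => omega
  | query x =>
    have := H19.ofBool_size (O (bn x))
    omega

theorem EvalO.cost_pos {O : Om} {c : OCode} {x y : T} {t : ℕ} (h : EvalO O c x y t) : 1 ≤ t :=
  le_trans (T.size_pos y) h.size_le

theorem EvalO.det {O : Om} {c : OCode} {x y : T} {t : ℕ} (h : EvalO O c x y t) :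
    ∀ {y' : T} {t' : ℕ}, EvalO O c x y' t' → y = y' ∧ t = t' := by
  induction h with
  | id x => intro y' t' h'; cases h'; exact ⟨rfl, rfl⟩
  | leaf x => intro y' t' h'; cases h'; exact ⟨rfl, rfl⟩
  | fst x => intro y' t' h'; cases h'; exact ⟨rfl, rfl⟩
  | snd x => intro y' t' h'; cases h'; exact ⟨rfl, rfl⟩
  | pair h1 h2 ih1 ih2 =>
    intro y' t' h'
    cases h' with
    | pair g1 g2 =>
      obtain ⟨rfl, rfl⟩ := ih1 g1
      obtain ⟨rfl, rfl⟩ := ih2 g2
      exact ⟨rfl, rfl⟩
  | comp h1 h2 ih1 ih2 =>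
    intro y' t' h'
    cases h' with
    | comp g1 g2 =>
      obtain ⟨rfl, rfl⟩ := ih1 g1
      obtain ⟨rfl, rfl⟩ := ih2 g2
      exact ⟨rfl, rfl⟩
  | ite_leaf h1 h2 ih1 ih2 =>
    intro y' t' h'
    cases h' with
    | ite_leaf g1 g2 =>
      obtain ⟨_, rfl⟩ := ih1 g1
      obtain ⟨rfl, rfl⟩ := ih2 g2
      exact ⟨rfl, rfl⟩
    | ite_node g1 g2 => exact absurd (ih1 g1).1 (by simp)
  | ite_node h1 h2 ih1 ih2 =>
    intro y' t' h'
    cases h' with
    | ite_leaf g1 g2 => exact absurd (ih1 g1).1 (by simp)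
    | ite_node g1 g2 =>
      obtain ⟨_, rfl⟩ := ih1 g1
      obtain ⟨rfl, rfl⟩ := ih2 g2
      exact ⟨rfl, rfl⟩
  | loop_stop h =>
    intro y' t' h'
    cases h' with
    | loop_stop g => exact ⟨rfl, rfl⟩
    | loop_step g _ _ => exact absurd h g
  | loop_step h h1 h2 ih1 ih2 =>
    intro y' t' h'
    cases h' with
    | loop_stop g => exact absurd g h
    | loop_step g g1 g2 =>
      obtain ⟨rfl, rfl⟩ := ih1 g1
      obtain ⟨rfl, rfl⟩ := ih2 g2
      exact ⟨rfl, rfl⟩
  | query x => intro y' t' h'; cases h'; exact ⟨rfl, rfl⟩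

/-- **Locality.** A halting computation at cost `t` depends on at most `t` bits of the oracle, at
positions of binary length at most `t`. -/
theorem EvalO.loc {O : Om} {c : OCode} {x y : T} {t : ℕ} (h : EvalO O c x y t) :
    ∃ Q : Finset ℕ, Q.card ≤ t ∧ (∀ n ∈ Q, n.size ≤ t) ∧
      ∀ O' : Om, (∀ n ∈ Q, O' n = O n) → EvalO O' c x y t := by
  classical
  have two : ∀ {s t : ℕ} {Q1 Q2 : Finset ℕ}, Q1.card ≤ s → Q2.card ≤ t →
      (∀ n ∈ Q1, n.size ≤ s) → (∀ n ∈ Q2, n.size ≤ t) →
      (Q1 ∪ Q2).card ≤ s + t + 1 ∧ ∀ n ∈ Q1 ∪ Q2, n.size ≤ s + t + 1 := by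
    intro s t Q1 Q2 h1 h2 h3 h4
    refine ⟨(Finset.card_union_le _ _).trans (by omega), fun n hn => ?_⟩
    rcases Finset.mem_union.1 hn with hn | hn
    · exact (h3 n hn).trans (by omega)
    · exact (h4 n hn).trans (by omega)
  induction h with
  | id x => exact ⟨∅, by simp, by simp, fun O' _ => EvalO.id x⟩
  | leaf x => exact ⟨∅, by simp, by simp, fun O' _ => EvalO.leaf x⟩
  | fst x => exact ⟨∅, by simp, by simp, fun O' _ => EvalO.fst x⟩
  | snd x => exact ⟨∅, by simp, by simp, fun O' _ => EvalO.snd x⟩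
  | pair _ _ ih1 ih2 =>
    obtain ⟨Q1, a1, b1, c1⟩ := ih1
    obtain ⟨Q2, a2, b2, c2⟩ := ih2
    exact ⟨Q1 ∪ Q2, (two a1 a2 b1 b2).1, (two a1 a2 b1 b2).2, fun O' h =>
      EvalO.pair (c1 O' fun n hn => h n (Finset.mem_union_left _ hn))
        (c2 O' fun n hn => h n (Finset.mem_union_right _ hn))⟩
  | comp _ _ ih1 ih2 =>
    obtain ⟨Q1, a1, b1, c1⟩ := ih1
    obtain ⟨Q2, a2, b2, c2⟩ := ih2
    exact ⟨Q1 ∪ Q2, (two a1 a2 b1 b2).1, (two a1 a2 b1 b2).2, fun O' h =>
      EvalO.comp (c1 O' fun n hn => h n (Finset.mem_union_left _ hn))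
        (c2 O' fun n hn => h n (Finset.mem_union_right _ hn))⟩
  | ite_leaf _ _ ih1 ih2 =>
    obtain ⟨Q1, a1, b1, c1⟩ := ih1
    obtain ⟨Q2, a2, b2, c2⟩ := ih2
    exact ⟨Q1 ∪ Q2, (two a1 a2 b1 b2).1, (two a1 a2 b1 b2).2, fun O' h =>
      EvalO.ite_leaf (c1 O' fun n hn => h n (Finset.mem_union_left _ hn))
        (c2 O' fun n hn => h n (Finset.mem_union_right _ hn))⟩
  | ite_node _ _ ih1 ih2 =>
    obtain ⟨Q1, a1, b1, c1⟩ := ih1
    obtain ⟨Q2, a2, b2, c2⟩ := ih2
    exact ⟨Q1 ∪ Q2, (two a1 a2 b1 b2).1, (two a1 a2 b1 b2).2, fun O' h =>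
      EvalO.ite_node (c1 O' fun n hn => h n (Finset.mem_union_left _ hn))
        (c2 O' fun n hn => h n (Finset.mem_union_right _ hn))⟩
  | loop_stop h => exact ⟨∅, by simp, by simp, fun O' _ => EvalO.loop_stop h⟩
  | loop_step h _ _ ih1 ih2 =>
    obtain ⟨Q1, a1, b1, c1⟩ := ih1
    obtain ⟨Q2, a2, b2, c2⟩ := ih2
    exact ⟨Q1 ∪ Q2, (two a1 a2 b1 b2).1, (two a1 a2 b1 b2).2, fun O' h' =>
      EvalO.loop_step h (c1 O' fun n hn => h' n (Finset.mem_union_left _ hn))
        (c2 O' fun n hn => h' n (Finset.mem_union_right _ hn))⟩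
  | query x =>
    refine ⟨{bn x}, by simp, ?_, fun O' h => ?_⟩
    · intro n hn
      rw [Finset.mem_singleton.1 hn]
      have h1 := H19.bn_size_le x
      have h2 := H19.T.len_lt_size x
      omega
    · have h1 := EvalO.query (O := O') x
      rwa [h (bn x) (Finset.mem_singleton_self _)] at h1

/-! ### Functions computable in polynomial time with an oracle -/

/-- The function `F`, which may depend on the oracle, is computable in polynomial time relative to
the oracle, uniformly for the oracles in `H`. -/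
def PolyOn (H : Set Om) (F : Om → T → T) : Prop :=
  ∃ (c : OCode) (k : ℕ), ∀ O ∈ H, ∀ x : T, ∃ t : ℕ,
    EvalO O c x (F O x) t ∧ t ≤ (x.size + 2) ^ k

variable {H : Set Om}

/-- Programs as oracle programs. -/
def toO : Code → OCode
  | Code.id => OCode.id
  | Code.leaf => OCode.leaf
  | Code.fst => OCode.fst
  | Code.snd => OCode.snd
  | Code.pair f g => OCode.pair (toO f) (toO g)
  | Code.comp f g => OCode.comp (toO f) (toO g)
  | Code.ite c f g => OCode.ite (toO c) (toO f) (toO g)
  | Code.loop f => OCode.loop (toO f)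

theorem Eval_toO {c : Code} {x y : T} {t : ℕ} (h : Eval c x y t) (O : Om) :
    EvalO O (RO.toO c) x y t := by
  induction h with
  | id x => exact EvalO.id x
  | leaf x => exact EvalO.leaf x
  | fst x => exact EvalO.fst x
  | snd x => exact EvalO.snd x
  | pair _ _ ih1 ih2 => exact EvalO.pair ih1 ih2
  | comp _ _ ih1 ih2 => exact EvalO.comp ih1 ih2
  | ite_leaf _ _ ih1 ih2 => exact EvalO.ite_leaf ih1 ih2
  | ite_node _ _ ih1 ih2 => exact EvalO.ite_node ih1 ih2
  | loop_stop h => exact EvalO.loop_stop h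
  | loop_step h _ _ ih1 ih2 => exact EvalO.loop_step h ih1 ih2

theorem PolyOn.of_poly {f : T → T} (hf : PolyTime f) : PolyOn H (fun _ x => f x) := by
  obtain ⟨c, k, h⟩ := hf
  refine ⟨toO c, k, fun O _ x => ?_⟩
  obtain ⟨t, ht, hb⟩ := h x
  exact ⟨t, Eval_toO ht O, hb⟩

theorem PolyOn.congr {F G : Om → T → T} (hF : PolyOn H F) (h : ∀ O ∈ H, ∀ x, F O x = G O x) :
    PolyOn H G := by
  obtain ⟨c, k, hc⟩ := hF
  refine ⟨c, k, fun O hO x => ?_⟩
  rw [← h O hO x]
  exact hc O hO x

theorem PolyOn.mono {H' : Set Om} {F : Om → T → T} (hF : PolyOn H F) (h : H' ⊆ H) :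
    PolyOn H' F := by
  obtain ⟨c, k, hc⟩ := hF
  exact ⟨c, k, fun O hO x => hc O (h hO) x⟩

/-- A function which is uniformly computable is computable relative to each oracle. -/
theorem PolyOn.polyTimeO {F : Om → T → T} (hF : PolyOn H F) {O : Om} (hO : O ∈ H) :
    PolyTimeO O (F O) := by
  obtain ⟨c, k, hc⟩ := hF
  exact ⟨c, k, fun x => hc O hO x⟩

theorem PolyOn.of_bound {F : Om → T → T} (c : OCode) {g : ℕ → ℕ} (hg : PolyB g)
    (h : ∀ O ∈ H, ∀ x, ∃ t : ℕ, EvalO O c x (F O x) t ∧ t ≤ g x.size) : PolyOn H F := by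
  obtain ⟨k, hk⟩ := hg
  refine ⟨c, k, fun O hO x => ?_⟩
  obtain ⟨t, ht, hb⟩ := h O hO x
  exact ⟨t, ht, hb.trans (hk _)⟩

theorem PolyOn.size_bound {F : Om → T → T} (hF : PolyOn H F) :
    ∃ k, ∀ O ∈ H, ∀ x, (F O x).size ≤ (x.size + 2) ^ k := by
  obtain ⟨c, k, h⟩ := hF
  refine ⟨k, fun O hO x => ?_⟩
  obtain ⟨t, ht, hb⟩ := h O hO x
  exact ht.size_le.trans hb

theorem PolyOn.id : PolyOn H (fun _ x => x) := PolyOn.of_poly PolyTime.id

theorem PolyOn.const (a : T) : PolyOn H (fun _ _ => a) := PolyOn.of_poly (PolyTime.const a)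

/-- The answer of the oracle. -/
theorem PolyOn.query : PolyOn H (fun O x => ofBool (O (bn x))) :=
  PolyOn.of_bound OCode.query (g := fun n => n + 3) (PolyB.id.add (PolyB.const 3))
    fun _ _ x => ⟨_, EvalO.query x, le_rfl⟩

theorem PolyOn.node {F G : Om → T → T} (hF : PolyOn H F) (hG : PolyOn H G) :
    PolyOn H (fun O x => T.node (F O x) (G O x)) := by
  obtain ⟨c, k, h⟩ := hF
  obtain ⟨d, m, h'⟩ := hG
  refine ⟨OCode.pair c d, max k m + 2, fun O hO x => ?_⟩
  obtain ⟨t, ht, hb⟩ := h O hO x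
  obtain ⟨t', ht', hb'⟩ := h' O hO x
  refine ⟨_, EvalO.pair ht ht', ?_⟩
  have := pow_add_le (s := x.size + 2) (a := k) (b := m) (by omega)
  omega

theorem PolyOn.comp {F G : Om → T → T} (hF : PolyOn H F) (hG : PolyOn H G) :
    PolyOn H (fun O x => F O (G O x)) := by
  obtain ⟨c, k, h⟩ := hF
  obtain ⟨d, m, h'⟩ := hG
  refine PolyOn.of_bound (OCode.comp c d)
    (g := fun n => (n + 2) ^ m + ((n + 2) ^ m + 2) ^ k + 1) ?_ fun O hO x => ?_
  · have h1 : PolyB (fun n => (n + 2) ^ m) := ⟨m, fun n => le_rfl⟩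
    exact (h1.add ((h1.add (PolyB.const 2)).pow k)).add (PolyB.const 1)
  · obtain ⟨t, ht, hb⟩ := h' O hO x
    obtain ⟨t', ht', hb'⟩ := h O hO (G O x)
    refine ⟨_, EvalO.comp ht ht', ?_⟩
    have h1 := ht.size_le
    have h2 : ((G O x).size + 2) ^ k ≤ ((x.size + 2) ^ m + 2) ^ k :=
      Nat.pow_le_pow_left (by omega) _
    omega

/-- Apply a polynomial-time function without oracle. -/
theorem PolyOn.map {F : Om → T → T} {f : T → T} (hf : PolyTime f) (hF : PolyOn H F) :
    PolyOn H (fun O x => f (F O x)) := (PolyOn.of_poly (H := H) hf).comp hF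

theorem PolyOn.left {F : Om → T → T} (hF : PolyOn H F) : PolyOn H (fun O x => (F O x).left) :=
  PolyOn.map PolyTime.left' hF

theorem PolyOn.right {F : Om → T → T} (hF : PolyOn H F) : PolyOn H (fun O x => (F O x).right) :=
  PolyOn.map PolyTime.right' hF

theorem PolyOn.tif {C F G : Om → T → T} (hC : PolyOn H C) (hF : PolyOn H F)
    (hG : PolyOn H G) : PolyOn H (fun O x => H19.tif (C O x) (F O x) (G O x)) := by
  obtain ⟨cc, kc, hc⟩ := hC
  obtain ⟨cf, kf, hf⟩ := hF
  obtain ⟨cg, kg, hg⟩ := hG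
  refine PolyOn.of_bound (OCode.ite cc cf cg)
    (g := fun n => (n + 2) ^ kc + ((n + 2) ^ kf + (n + 2) ^ kg) + 1) ?_ fun O hO x => ?_
  · have h1 : ∀ m, PolyB (fun n => (n + 2) ^ m) := fun m => ⟨m, fun n => le_rfl⟩
    exact ((h1 _).add ((h1 _).add (h1 _))).add (PolyB.const 1)
  · obtain ⟨t, ht, hb⟩ := hc O hO x
    rcases hcx : C O x with _ | ⟨l, r⟩
    · obtain ⟨t', ht', hb'⟩ := hf O hO x
      rw [hcx] at ht
      rw [tif_leaf]
      exact ⟨_, EvalO.ite_leaf (g := cg) ht ht', by omega⟩
    · obtain ⟨t', ht', hb'⟩ := hg O hO x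
      rw [hcx] at ht
      rw [tif_node]
      exact ⟨_, EvalO.ite_node (f := cf) ht ht', by omega⟩

/-! ### Loops -/

theorem EvalO.loop_of_iterate {O : Om} {c : OCode} {f : T → T} {B : ℕ} :
    ∀ (N : ℕ) (s : T), (∀ i, i < N → (f^[i] s).left ≠ T.leaf) → (f^[N] s).left = T.leaf →
      (∀ i, i < N → ∃ t, EvalO O c (f^[i] s) (f (f^[i] s)) t ∧ t ≤ B) →
      (∀ i, i ≤ N → (f^[i] s).size ≤ B) →
      ∃ t, EvalO O (OCode.loop c) s (f^[N] s).right t ∧ t ≤ (N + 1) * (B + 1) := by
  intro N
  induction N with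
  | zero =>
    intro s _ h0 _ hB
    refine ⟨_, EvalO.loop_stop (by simpa using h0), ?_⟩
    have := hB 0 le_rfl
    simp at this
    omega
  | succ N ih =>
    intro s hlt hN hev hB
    obtain ⟨t, ht, hb⟩ := hev 0 (by omega)
    simp only [Function.iterate_zero, id_eq] at ht
    obtain ⟨t', ht', hb'⟩ := ih (f s)
      (fun i hi => by
        have := hlt (i + 1) (by omega)
        rwa [Function.iterate_succ_apply] at this)
      (by rwa [Function.iterate_succ_apply] at hN)
      (fun i hi => by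
        have := hev (i + 1) (by omega)
        rwa [Function.iterate_succ_apply] at this)
      (fun i hi => by
        have := hB (i + 1) (by omega)
        rwa [Function.iterate_succ_apply] at this)
    refine ⟨_, EvalO.loop_step (by simpa using hlt 0 (by omega)) ht ht', ?_⟩
    have : (N + 1 + 1) * (B + 1) = (N + 1) * (B + 1) + (B + 1) := by ring
    omega

/-- While loops with polynomially many rounds and polynomially bounded states. -/
theorem PolyOn.whileLoop {F S : Om → T → T} (hF : PolyOn H F) (hS : PolyOn H S)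
    (N : Om → T → ℕ)
    (hlt : ∀ O ∈ H, ∀ x i, i < N O x → ((F O)^[i] (S O x)).left ≠ T.leaf)
    (hN : ∀ O ∈ H, ∀ x, ((F O)^[N O x] (S O x)).left = T.leaf)
    (hNb : ∃ k, ∀ O ∈ H, ∀ x : T, N O x ≤ (x.size + 2) ^ k)
    (hB : ∃ k, ∀ O ∈ H, ∀ (x : T) i, i ≤ N O x →
      ((F O)^[i] (S O x)).size ≤ (x.size + 2) ^ k) :
    PolyOn H (fun O x => ((F O)^[N O x] (S O x)).right) := by
  obtain ⟨c, k, hc⟩ := hF
  obtain ⟨kN, hkN⟩ := hNb
  obtain ⟨kB, hkB⟩ := hB
  obtain ⟨cs, ks, hcs⟩ := hS
  refine PolyOn.of_bound (OCode.comp (OCode.loop c) cs)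
    (g := fun n => (n + 2) ^ ks +
      ((n + 2) ^ kN + 1) * ((((n + 2) ^ kB + 2) ^ k + (n + 2) ^ kB) + 1) + 1) ?_ fun O hO x => ?_
  · have h1 : ∀ m, PolyB (fun n => (n + 2) ^ m) := fun m => ⟨m, fun n => le_rfl⟩
    refine ((h1 _).add (((h1 _).add (PolyB.const 1)).mul
      (((((h1 _).add (PolyB.const 2)).pow _).add (h1 _)).add (PolyB.const 1)))).add
      (PolyB.const 1)
  · obtain ⟨t, ht, hb⟩ := hcs O hO x
    obtain ⟨t', ht', hb'⟩ := EvalO.loop_of_iterate (O := O) (c := c) (f := F O)
      (B := ((x.size + 2) ^ kB + 2) ^ k + (x.size + 2) ^ kB) (N O x) (S O x)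
      (hlt O hO x) (hN O hO x)
      (fun i hi => by
        obtain ⟨t, ht, hb⟩ := hc O hO ((F O)^[i] (S O x))
        refine ⟨t, ht, hb.trans ?_⟩
        have : (((F O)^[i] (S O x)).size + 2) ^ k ≤ ((x.size + 2) ^ kB + 2) ^ k :=
          Nat.pow_le_pow_left (by have := hkB O hO x i hi.le; omega) _
        omega)
      (fun i hi => (hkB O hO x i hi).trans (by omega))
    refine ⟨_, EvalO.comp ht ht', ?_⟩
    have h2 : (N O x + 1) * ((((x.size + 2) ^ kB + 2) ^ k + (x.size + 2) ^ kB) + 1) ≤
        ((x.size + 2) ^ kN + 1) * ((((x.size + 2) ^ kB + 2) ^ k + (x.size + 2) ^ kB) + 1) :=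
      Nat.mul_le_mul_right _ (by have := hkN O hO x; omega)
    omega

/-- Bounded iteration: iterate `F O` as many times as the right spine of `N O x` is long. -/
theorem PolyOn.iterate {F N S : Om → T → T} (hF : PolyOn H F) (hN : PolyOn H N)
    (hS : PolyOn H S)
    (hB : ∃ k, ∀ O ∈ H, ∀ (x : T) i, i ≤ (N O x).len →
      ((F O)^[i] (S O x)).size ≤ (x.size + 2) ^ k) :
    PolyOn H (fun O x => (F O)^[(N O x).len] (S O x)) := by
  -- state: `node counter current`
  let g : Om → T → T := fun O y => T.node y.left.right (F O y.right)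
  let s' : Om → T → T := fun O x => T.node (N O x) (S O x)
  have hg : PolyOn H g := ((PolyOn.id.left).right).node (hF.comp PolyOn.id.right)
  have hs' : PolyOn H s' := hN.node hS
  have hiter : ∀ i O x, (g O)^[i] (s' O x) =
      T.node (T.right^[i] (N O x)) ((F O)^[i] (S O x)) := by
    intro i O x
    induction i with
    | zero => rfl
    | succ i ih => rw [Function.iterate_succ_apply', ih, Function.iterate_succ_apply',
        Function.iterate_succ_apply']; rfl
  have hright : ∀ i (y : T), (T.right^[i] y).len = y.len - i := by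
    intro i y
    induction i with
    | zero => rfl
    | succ i ih => rw [Function.iterate_succ_apply', H19.T.len_right, ih]; omega
  have hrs : ∀ i (y : T), (T.right^[i] y).size ≤ y.size := by
    intro i y
    induction i with
    | zero => exact le_rfl
    | succ i ih => rw [Function.iterate_succ_apply']; exact (H19.T.size_right_le _).trans ih
  have hleaf : ∀ y : T, y = T.leaf ↔ y.len = 0 := by
    intro y; cases y <;> simp
  have := PolyOn.whileLoop hg hs' (fun O x => (N O x).len)
    (fun O _ x i hi => by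
      rw [hiter, H19.T.left_node, Ne, hleaf, hright]; omega)
    (fun O _ x => by rw [hiter, H19.T.left_node, hleaf, hright]; omega)
    (by
      obtain ⟨k, hk⟩ := hN.size_bound
      exact ⟨k, fun O hO x => (H19.T.len_lt_size _).le.trans (hk O hO x)⟩)
    (by
      obtain ⟨k, hk⟩ := hN.size_bound
      obtain ⟨m, hm⟩ := hB
      refine ⟨max k m + 2, fun O hO x i hi => ?_⟩
      rw [hiter, T.size]
      have h1 := hm O hO x i hi
      have h2 := (hrs i (N O x)).trans (hk O hO x)
      have h3 := pow_add_le (s := x.size + 2) (a := k) (b := m) (by omega)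
      omega)
  refine this.congr fun O _ x => ?_
  rw [hiter, H19.T.right_node]

/-! ### Testing all elements of a list -/

open Classical in
/-- `F O` accepts all elements of the list on the right spine of `x`. -/
noncomputable def allL (F : Om → T → T) (O : Om) (x : T) : T :=
  ofBool (decide (∀ a ∈ x.toL, F O a ≠ T.leaf))

theorem allL_ne_leaf (F : Om → T → T) (O : Om) (x : T) :
    allL F O x ≠ T.leaf ↔ ∀ a ∈ x.toL, F O a ≠ T.leaf := by
  classical
  rw [allL, H19.ofBool_ne_leaf]
  exact decide_eq_true_iff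

/-- One round of the loop: the state is `node flag (rest of the list)`. -/
def stepL (F : Om → T → T) (O : Om) (s : T) : T :=
  T.node (H19.tif s.right s.left
    (H19.tif (F O s.right.left) T.leaf s.left)) s.right.right

theorem stepL_polyOn {F : Om → T → T} (hF : PolyOn H F) : PolyOn H (stepL F) :=
  (PolyOn.id.right.tif PolyOn.id.left
    ((hF.comp PolyOn.id.right.left).tif (PolyOn.const _) PolyOn.id.left)).node
    PolyOn.id.right.right

theorem stepL_iter (F : Om → T → T) (O : Om) : ∀ (x b : T),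
    (stepL F O)^[x.len] (T.node b x) =
      T.node (H19.tif (allL F O x) T.leaf b) T.leaf := by
  intro x
  induction x with
  | leaf =>
    intro b
    have h : allL F O T.leaf = T.node T.leaf T.leaf := by
      rw [allL]
      simp [H19.T.toL, ofBool]
    rw [H19.T.len_leaf, Function.iterate_zero, id, h, tif_node]
  | node a x _ ih =>
    intro b
    rw [H19.T.len_node, Function.iterate_succ_apply]
    have h1 : stepL F O (T.node b (T.node a x)) =
        T.node (H19.tif (F O a) T.leaf b) x := by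
      simp [stepL]
    rw [h1, ih]
    congr 1
    by_cases ha : F O a = T.leaf
    · have h2 : allL F O (T.node a x) = T.leaf := by
        by_contra hc
        have := (allL_ne_leaf F O _).1 hc a (by simp [H19.T.toL])
        exact this ha
      simp [H19.tif, ha, h2]
    · have h2 : allL F O (T.node a x) = allL F O x := by
        rw [allL, allL]
        congr 1
        simp [H19.T.toL, ha]
      rw [h2]
      simp [H19.tif, ha]

theorem stepL_size (F : Om → T → T) (O : Om) (i : ℕ) : ∀ s : T,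
    ((stepL F O)^[i] s).size ≤ s.size + 3 ∧ ((stepL F O)^[i] s).left.size ≤ s.left.size + 1 ∧
      ((stepL F O)^[i] s).right.size ≤ s.right.size := by
  induction i with
  | zero => intro s; simp
  | succ i ih =>
    intro s
    rw [Function.iterate_succ_apply']
    obtain ⟨-, h2, h3⟩ := ih s
    have hs := H19.T.size_pos s.left
    set u := (stepL F O)^[i] s with hu
    have h4 : (stepL F O u).left.size ≤ s.left.size + 1 := by
      rw [stepL, H19.T.left_node]
      unfold H19.tif
      split_ifs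
      · exact h2
      · simp only [T.size]; omega
      · exact h2
    have h5 : (stepL F O u).right.size ≤ s.right.size := by
      rw [stepL, H19.T.right_node]
      exact (H19.T.size_right_le _).trans h3
    refine ⟨?_, h4, h5⟩
    rw [stepL, T.size]
    rw [stepL, H19.T.left_node] at h4
    rw [stepL, H19.T.right_node] at h5
    have h6 : s.left.size + s.right.size ≤ s.size + 1 := by
      cases s
      · simp [T.size]
      · simp only [H19.T.left_node, H19.T.right_node, T.size]; omega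
    omega

/-- The list loop. -/
theorem PolyOn.allL {F : Om → T → T} (hF : PolyOn H F) : PolyOn H (RO.allL F) := by
  have h1 : PolyOn H (fun O x => (stepL F O)^[x.len] (T.node (T.node T.leaf T.leaf) x)) := by
    refine PolyOn.iterate (F := stepL F) (N := fun _ x => x)
      (S := fun _ x => T.node (T.node T.leaf T.leaf) x) (stepL_polyOn hF) PolyOn.id
      ((PolyOn.const _).node PolyOn.id) ?_
    obtain ⟨k, hk⟩ := PolyB.id.add (PolyB.const 7)
    refine ⟨k, fun O _ x i _ => ((stepL_size F O i _).1).trans (le_trans ?_ (hk x.size))⟩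
    simp only [T.size]; omega
  refine h1.left.congr fun O _ x => ?_
  rw [stepL_iter, H19.T.left_node, RO.allL]
  cases decide (∀ a ∈ x.toL, F O a ≠ T.leaf) <;> simp [ofBool]

/-! ### Clocked programs -/

open Classical in
/-- The output of a program (a leaf if it does not halt). -/
noncomputable def out (c : OCode) (O : Om) (x : T) : T :=
  if h : ∃ y t, EvalO O c x y t then h.choose else T.leaf

theorem out_eq {O : Om} {c : OCode} {x y : T} {t : ℕ} (h : EvalO O c x y t) : out c O x = y := by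
  have h1 : ∃ y t, EvalO O c x y t := ⟨y, t, h⟩
  rw [out, dif_pos h1]
  obtain ⟨t', ht'⟩ := h1.choose_spec
  exact (ht'.det h).1

/-- The output of a clocked program is computable, uniformly for all oracles relative to which the
program obeys its clock. -/
theorem PolyOn.of_halts (c : OCode) (κ : ℕ) : PolyOn {O | HaltsWithin O c κ} (out c) := by
  refine ⟨c, κ, fun O hO x => ?_⟩
  obtain ⟨y, t, h, ht⟩ := hO x
  rw [out_eq h]
  exact ⟨t, h, ht⟩

theorem accepts_iff {O : Om} {c : OCode} {κ : ℕ} {x y : T} {t : ℕ} (h : EvalO O c x y t)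
    (ht : t ≤ (x.size + 2) ^ κ) : Accepts O c κ x ↔ y ≠ T.leaf := by
  constructor
  · rintro ⟨y', t', h', _, hy'⟩
    obtain ⟨rfl, _⟩ := h.det h'
    exact hy'
  · intro hy
    exact ⟨y, t, h, ht, hy⟩

theorem accepts_iff_out {O : Om} {c : OCode} {κ : ℕ} (hO : HaltsWithin O c κ) (x : T) :
    Accepts O c κ x ↔ out c O x ≠ T.leaf := by
  obtain ⟨y, t, h, ht⟩ := hO x
  rw [accepts_iff h ht, out_eq h]

/-- Locality of acceptance. -/
theorem Accepts.loc {O : Om} {c : OCode} {κ : ℕ} {x : T} (h : Accepts O c κ x) :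
    ∃ Q : Finset ℕ, Q.card ≤ (x.size + 2) ^ κ ∧ (∀ n ∈ Q, n.size ≤ (x.size + 2) ^ κ) ∧
      ∀ O' : Om, (∀ n ∈ Q, O' n = O n) → Accepts O' c κ x := by
  obtain ⟨y, t, h, ht, hy⟩ := h
  obtain ⟨Q, h1, h2, h3⟩ := h.loc
  exact ⟨Q, h1.trans ht, fun n hn => (h2 n hn).trans ht, fun O' hO' =>
    ⟨y, t, h3 O' hO', ht, hy⟩⟩

/-! ### The recursion theorem -/

/-- The program with constant output `a`. -/
def OCode.const : T → OCode
  | T.leaf => OCode.leaf
  | T.node a b => OCode.pair (OCode.const a) (OCode.const b)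

theorem EvalO.const (O : Om) (x a : T) : EvalO O (OCode.const a) x a a.size := by
  induction a with
  | leaf => exact EvalO.leaf x
  | node a b iha ihb => exact EvalO.pair iha ihb

theorem qt_eqO (a : T) : H19.qt a = (OCode.const a).enc := by
  induction a with
  | leaf => rfl
  | node a b iha ihb => simp only [H19.qt, OCode.const, OCode.enc, iha, ihb]

/-- **Recursion theorem.** A polynomial-time oracle program may use its own code and its own
clock. -/
theorem PolyOn.recursion {D : Om → T → T} (hD : PolyOn H D) : ∃ (c : OCode) (κ : ℕ),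
    ∀ O ∈ H, ∀ x : T, ∃ t : ℕ,
      EvalO O c x (D O (T.node x (T.node c.enc (T.unary κ)))) t ∧ t ≤ (x.size + 2) ^ κ := by
  have i := PolyTime.id
  -- `S w` is the code of the program built from the program coded by `w.left` and data `w`
  have hS : PolyTime (fun w : T => T.node (T.unary 5) (T.node w.left
      (T.node (T.unary 4) (T.node OCode.id.enc (H19.qt w))))) :=
    (PolyTime.const _).node (i.left.node ((PolyTime.const _).node
      ((PolyTime.const _).node H19.qt_polyTime)))
  have hE0 : PolyTime (fun z : T => (T.node z.left (T.node (T.node (T.unary 5)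
      (T.node z.right.left (T.node (T.unary 4) (T.node OCode.id.enc (H19.qt z.right)))))
        z.right.right))) :=
    (i.left.node ((hS.comp i.right).node i.right.right))
  have hE : PolyOn H (fun O z => D O (T.node z.left (T.node (T.node (T.unary 5)
      (T.node z.right.left (T.node (T.unary 4) (T.node OCode.id.enc (H19.qt z.right)))))
        z.right.right))) :=
    hD.comp (PolyOn.of_poly hE0)
  obtain ⟨e, d, he⟩ := hE
  obtain ⟨κ, hκ⟩ := H19.exists_clock (e.enc.size + 20) (d + 1)
  let w : T := T.node e.enc (T.unary κ)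
  refine ⟨OCode.comp e (OCode.pair OCode.id (OCode.const w)), κ, fun O hO x => ?_⟩
  obtain ⟨t, ht, hb⟩ := he O hO (T.node x w)
  have henc : (OCode.comp e (OCode.pair OCode.id (OCode.const w))).enc = T.node (T.unary 5)
      (T.node e.enc (T.node (T.unary 4) (T.node OCode.id.enc (H19.qt w)))) := by
    simp only [OCode.enc, qt_eqO]
  rw [henc]
  refine ⟨_, EvalO.comp (EvalO.pair (EvalO.id x) (EvalO.const O x w)) ht, ?_⟩
  have hx := H19.T.size_pos x
  have h1 := hκ (x.size + 2) (by omega)
  refine le_trans ?_ h1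
  have hw : w.size = e.enc.size + 2 * κ + 2 := by simp only [w, T.size, H19.T.size_unary]; omega
  simp only [T.size] at hb
  have h2 : (x.size + w.size + 1 + 2) ^ d ≤ (x.size + 2 + (e.enc.size + 20 + 2 * κ)) ^ d :=
    Nat.pow_le_pow_left (by omega) _
  have h3 : 1 ≤ (x.size + 2 + (e.enc.size + 20 + 2 * κ)) ^ d := Nat.one_le_pow _ _ (by omega)
  rw [pow_succ]
  have h4 : x.size + w.size + 1 + 1 ≤ x.size + 2 + (e.enc.size + 20 + 2 * κ) - 1 := by omega
  obtain ⟨q, hq⟩ : ∃ q, x.size + 2 + (e.enc.size + 20 + 2 * κ) = q + 1 :=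
    ⟨x.size + 2 + (e.enc.size + 20 + 2 * κ) - 1, by omega⟩
  rw [hq] at h2 h3 h4 ⊢
  nlinarith

end Pool.Agent.RO
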