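import Pool.Agent.RO.Cst
import Pool.Agent.RO.Prog

/-!
# The program of `T_j`
-/

namespace Pool.Agent.RO

open Pool.Agent.H19 (T PolyTime PolyDec PolyNat PolyN Tm scons bn bl ofBool encL)

/-- Predicates decidable in polynomial time relative to an oracle, uniformly for the oracles
in `H`. -/
def DecOn (H : Set Om) (P : Om → T → Prop) : Prop :=
  ∃ F : Om → T → T, PolyOn H F ∧ ∀ O ∈ H, ∀ x, P O x ↔ F O x ≠ T.leaf

namespace DecOn

variable {H : Set Om}

theorem congr {P Q : Om → T → Prop} (hP : DecOn H P) (h : ∀ O ∈ H, ∀ x, P O x ↔ Q O x) :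
    DecOn H Q := by
  obtain ⟨F, hF, h1⟩ := hP
  exact ⟨F, hF, fun O hO x => (h O hO x).symm.trans (h1 O hO x)⟩

theorem of_dec {P : T → Prop} (hP : PolyDec P) : DecOn H (fun _ x => P x) := by
  obtain ⟨f, hf, h⟩ := hP
  exact ⟨fun _ x => f x, PolyOn.of_poly hf, fun _ _ x => h x⟩

theorem and {P Q : Om → T → Prop} (hP : DecOn H P) (hQ : DecOn H Q) :
    DecOn H (fun O x => P O x ∧ Q O x) := by
  obtain ⟨F, hF, h1⟩ := hP
  obtain ⟨G, hG, h2⟩ := hQ
  refine ⟨fun O x => H19.tif (F O x) T.leaf (G O x), hF.tif (PolyOn.const _) hG,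
    fun O hO x => ?_⟩
  show (P O x ∧ Q O x) ↔ H19.tif (F O x) T.leaf (G O x) ≠ T.leaf
  rw [h1 O hO x, h2 O hO x]
  by_cases h : F O x = T.leaf <;> simp [H19.tif, h]

theorem or {P Q : Om → T → Prop} (hP : DecOn H P) (hQ : DecOn H Q) :
    DecOn H (fun O x => P O x ∨ Q O x) := by
  obtain ⟨F, hF, h1⟩ := hP
  obtain ⟨G, hG, h2⟩ := hQ
  refine ⟨fun O x => H19.tif (F O x) (G O x) (F O x), hF.tif hG hF, fun O hO x => ?_⟩
  show (P O x ∨ Q O x) ↔ H19.tif (F O x) (G O x) (F O x) ≠ T.leaf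
  rw [h1 O hO x, h2 O hO x]
  by_cases h : F O x = T.leaf <;> simp [H19.tif, h]

theorem not {P : Om → T → Prop} (hP : DecOn H P) : DecOn H (fun O x => ¬ P O x) := by
  obtain ⟨F, hF, h1⟩ := hP
  refine ⟨fun O x => H19.tif (F O x) (T.node T.leaf T.leaf) T.leaf,
    hF.tif (PolyOn.const _) (PolyOn.const _), fun O hO x => ?_⟩
  show (¬ P O x) ↔ H19.tif (F O x) (T.node T.leaf T.leaf) T.leaf ≠ T.leaf
  rw [h1 O hO x]
  by_cases h : F O x = T.leaf <;> simp [H19.tif, h]

theorem comp {P : Om → T → Prop} (hP : DecOn H P) {g : T → T} (hg : PolyTime g) :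
    DecOn H (fun O x => P O (g x)) := by
  obtain ⟨F, hF, h1⟩ := hP
  exact ⟨fun O x => F O (g x), hF.comp (PolyOn.of_poly hg), fun O hO x => h1 O hO (g x)⟩

/-- One bit of the oracle. -/
theorem bit {g : T → ℕ} (hg : PolyN g) : DecOn H (fun O x => O (g x) = true) := by
  refine ⟨fun O x => ofBool (O (bn (bl (g x)))), PolyOn.query.comp (PolyOn.of_poly hg),
    fun O _ x => ?_⟩
  show O (g x) = true ↔ ofBool (O (bn (bl (g x)))) ≠ T.leaf
  rw [H19.bn_bl, H19.ofBool_ne_leaf]

/-- All elements of a list. -/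
theorem all {P : Om → T → Prop} (hP : DecOn H P) {l : T → List T}
    (hl : PolyTime (fun x => encL (l x))) : DecOn H (fun O x => ∀ a ∈ l x, P O a) := by
  obtain ⟨F, hF, h1⟩ := hP
  refine ⟨fun O x => allL F O (encL (l x)), hF.allL.comp (PolyOn.of_poly hl), fun O hO x => ?_⟩
  show (∀ a ∈ l x, P O a) ↔ allL F O (encL (l x)) ≠ T.leaf
  rw [allL_ne_leaf, H19.toL_encL]
  exact forall₂_congr fun a _ => h1 O hO a

theorem halts (c : OCode) (κ : ℕ) (hH : ∀ O ∈ H, HaltsWithin O c κ) :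
    DecOn H (fun O x => Accepts O c κ x) :=
  ⟨out c, (PolyOn.of_halts c κ).mono hH, fun O hO x => accepts_iff_out (hH O hO) x⟩

end DecOn

theorem EVLOC_thm : Stmt_EVLOC := fun _ _ _ _ _ h => h.loc

theorem DET_thm : Stmt_DET := fun _ _ _ _ _ _ _ h h' => h.det h'

namespace PROGRAM

variable {H : Set Om}

theorem enc_eq_dec {f g : T → Fm} (hf : PolyTime (fun x => (f x).enc))
    (hg : PolyTime (fun x => (g x).enc)) : PolyDec (fun x => f x = g x) :=
  (PolyDec.eq hf hg).congr fun _ => Fm.enc_inj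

/-- Membership in the diagram. -/
theorem diag_decOn (hG : Stmt_DIAGDEC) : DecOn H (fun O x => decFm x ∈ diag O) := by
  obtain ⟨g, hg, hd⟩ := hG
  have hx := normFm_polyTime
  have hn : PolyN (fun x => g (decFm x).enc) := hg.comp hx
  have hnum : PolyTime (fun x => (Tm.numeral (g (decFm x).enc)).enc) := hn.numeral
  have h1 : PolyDec (fun x => decFm x = Fm.rel (Tm.numeral (g (decFm x).enc))) :=
    enc_eq_dec hx ((PolyTime.const _).node (hnum.node PolyTime.leaf))
  have h2 : PolyDec (fun x => decFm x = Fm.neg (Fm.rel (Tm.numeral (g (decFm x).enc)))) :=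
    enc_eq_dec hx ((PolyTime.const (T.unary 11)).node
      (((PolyTime.const (T.unary 13)).node (hnum.node PolyTime.leaf)).node
        (PolyTime.const Fm.bot.enc)))
  have h3 : DecOn H (fun O x => O (g (decFm x).enc) = true) := DecOn.bit hn
  refine (((DecOn.of_dec h1).and h3).or ((DecOn.of_dec h2).and h3.not)).congr fun O _ x => ?_
  rw [hd O (decFm x)]
  simp

/-- Membership in the theory presented by a clocked program. -/
theorem theory_decOn (hG : Stmt_DIAGDEC) (c : OCode) (κ : ℕ) (hH : ∀ O ∈ H, HaltsWithin O c κ) :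
    DecOn H (fun O x => decFm x ∈ theory O c κ) :=
  ((DecOn.of_dec S12_polyDec).or ((diag_decOn hG).or
    ((DecOn.halts c κ hH).comp normFm_polyTime))).congr fun _ _ _ => Iff.rfl

/-- The test of an item. -/
theorem item_decOn (hG : Stmt_DIAGDEC) (p : Par) : DecOn p.H (fun O a => p.ItemOK O a) := by
  have i := PolyTime.id
  have h1 : DecOn p.H (fun _ a => a.left = T.leaf) := DecOn.of_dec (PolyDec.eq_leaf i.left)
  have h2 : DecOn p.H (fun O a => O (bn a.right) = true) :=
    DecOn.bit (H19.canon_polyTime.comp i.right)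
  have h3 : DecOn p.H (fun O a => decFm a.right ∈ p.S O) :=
    (theory_decOn hG p.cS p.kS fun O hO => hO.1).comp i.right
  refine ((h1.and h2).or (h1.not.and h3)).congr fun O _ a => ?_
  unfold Par.ItemOK
  by_cases h : a.left = T.leaf <;> simp [h]

end PROGRAM

open PROGRAM in
theorem PROGRAM_thm (hD : Stmt_D0POLY) (hI : Stmt_ITEMS) (hG : Stmt_DIAGDEC) :
    Stmt_PROGRAM := by
  intro p j hfP
  have i := PolyTime.id
  have hu : PolyTime (fun z : T => unfalsum z.left) :=
    H19.uu_polyTime.comp i.left.right.left.right.left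
  have h1 : DecOn p.H (fun _ z => (falsum (unfalsum z.left)).enc = z.left ∧
      p.D0 j (unfalsum z.left) z.right) := by
    refine DecOn.of_dec ((PolyDec.eq (falsum_polyTime.comp hu) i.left).and ?_)
    exact ((hD p j hfP).comp (hu.node i.right)).congr fun z => Iff.rfl
  have h2 : DecOn p.H (fun O z => ∀ a ∈ Par.items (unfalsum z.left), p.ItemOK O a) :=
    (item_decOn hG p).all (hI.comp hu)
  have h3 : DecOn p.H (fun O z => Accepts O p.c0 p.k0 z.left) :=
    (DecOn.halts p.c0 p.k0 fun O hO => hO.2).comp i.left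
  have h4 : DecOn p.H (fun O z => p.Want j z.right O z.left) :=
    ((h1.and h2).or (h1.not.and h3)).congr fun O _ z => by
      unfold Par.Want
      rw [and_assoc]
  obtain ⟨F, hF, hFw⟩ := h4
  obtain ⟨c, κ, hc⟩ := hF.recursion
  refine ⟨c, κ, fun O hO => ⟨fun x => ?_, fun x => ?_⟩⟩
  · obtain ⟨t, ht, hb⟩ := hc O hO x
    exact ⟨_, t, ht, hb⟩
  · obtain ⟨t, ht, hb⟩ := hc O hO x
    rw [accepts_iff ht hb, ← hFw O hO]
    simp

end Pool.Agent.RO
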