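import Pool.Agent.RO.Cst

/-!
# D0POLY: the syntactical part of a description is decided in polynomial time
-/

namespace Pool.Agent.RO.D0POLY

open Pool.Agent.H19 (T PolyTime PolyDec PolyNat PolyN PolyB PolyTime₂ tfold)

/-! ### Numbers -/

theorem lgN_le (n : ℕ) : lgN n ≤ n := by
  have : n.size ≤ n := Nat.size_le.2 Nat.lt_two_pow_self
  unfold lgN; omega

theorem lgN_pow (k : ℕ) : lgN (2 ^ k) = k := by
  simp [lgN, Nat.size_pow]

theorem lgN_polyNat {f : T → ℕ} (hf : PolyNat f) : PolyNat (fun x => lgN (f x)) :=
  (hf.toN.size).sub (PolyNat.const 1)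

theorem isPow_polyDec {f : T → ℕ} (hf : PolyNat f) :
    PolyDec (fun x => f x = 2 ^ lgN (f x)) :=
  PolyDec.eqN hf.toN (PolyN.pow2 (lgN_polyNat hf))

/-! ### Towers -/

open Classical in
/-- One round of the test whether a number is in the tower. -/
noncomputable def tn (n : ℕ) : ℕ := if 2 ≤ n ∧ n = 2 ^ lgN n then lgN n else n

theorem tn_le (n : ℕ) : tn n ≤ n := by
  unfold tn; split_ifs
  · exact lgN_le n
  · exact le_rfl

theorem tow_pos (s : ℕ) : 1 ≤ tow s := by
  cases s with
  | zero => exact le_rfl
  | succ s => exact Nat.one_le_two_pow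

theorem le_tow (s : ℕ) : s ≤ tow s := by
  induction s with
  | zero => exact Nat.zero_le _
  | succ s ih =>
    have : tow s < 2 ^ tow s := Nat.lt_two_pow_self
    show s + 1 ≤ 2 ^ tow s
    omega

theorem tn_tow_succ (s : ℕ) : tn (tow (s + 1)) = tow s := by
  have h1 : lgN (tow (s + 1)) = tow s := lgN_pow _
  have h2 : 2 ≤ tow (s + 1) := by
    show 2 ^ 1 ≤ 2 ^ tow s
    exact Nat.pow_le_pow_right (by norm_num) (tow_pos s)
  unfold tn
  rw [h1, if_pos ⟨h2, rfl⟩]

theorem tn_one : tn 1 = 1 := by
  unfold tn; rw [if_neg (by omega)]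

theorem tn_iter_tow (k : ℕ) : ∀ s : ℕ, s ≤ k → tn^[k] (tow s) = 1 := by
  induction k with
  | zero =>
    intro s hs
    obtain rfl : s = 0 := by omega
    rfl
  | succ k ih =>
    intro s hs
    rw [Function.iterate_succ_apply]
    cases s with
    | zero =>
      have : tn (tow 0) = tow 0 := tn_one
      rw [this]; exact ih 0 (Nat.zero_le _)
    | succ s => rw [tn_tow_succ]; exact ih s (by omega)

theorem tow_of_iter (k : ℕ) : ∀ n : ℕ, tn^[k] n = 1 → ∃ s, n = tow s := by
  induction k with
  | zero => intro n h; exact ⟨0, h⟩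
  | succ k ih =>
    intro n h
    rw [Function.iterate_succ_apply] at h
    obtain ⟨s, hs⟩ := ih _ h
    unfold tn at hs
    split_ifs at hs with hc
    · refine ⟨s + 1, ?_⟩
      show n = 2 ^ tow s
      rw [← hs]; exact hc.2
    · exact ⟨s, hs⟩

theorem isTow_iff (n : ℕ) : (∃ s, n = tow s) ↔ tn^[n] n = 1 := by
  constructor
  · rintro ⟨s, rfl⟩
    exact tn_iter_tow _ s (le_tow s)
  · exact tow_of_iter n n

theorem tn_iter_le (k n : ℕ) : tn^[k] n ≤ n := by
  induction k with
  | zero => exact le_rfl
  | succ k ih => rw [Function.iterate_succ_apply']; exact (tn_le _).trans ih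

theorem tnU_polyTime : PolyTime (fun y => T.unary (tn y.len)) := by
  have i := PolyTime.id
  have hl : PolyNat (fun y : T => y.len) := PolyNat.len i
  refine (PolyTime.ifP (P := fun y : T => 2 ≤ y.len ∧ y.len = 2 ^ lgN y.len)
    ((PolyDec.le (PolyNat.const 2) hl).and (isPow_polyDec hl)) (lgN_polyNat hl) hl).congr
    fun y => ?_
  unfold tn
  split_ifs <;> rfl

theorem tnU_iter (k n : ℕ) : (fun y : T => T.unary (tn y.len))^[k] (T.unary n) =
    T.unary (tn^[k] n) := by
  induction k with
  | zero => rfl
  | succ k ih => rw [Function.iterate_succ_apply', ih, Function.iterate_succ_apply', T.len_unary]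

theorem isTow_polyDec {f : T → ℕ} (hf : PolyNat f) : PolyDec (fun x => ∃ s, f x = tow s) := by
  have h1 : PolyTime (fun x => T.unary (tn^[f x] (f x))) := by
    refine (PolyTime.iterate (f := fun y : T => T.unary (tn y.len))
      (n := fun x => T.unary (f x)) (s := fun x => T.unary (f x)) tnU_polyTime hf hf ?_).congr
      fun x => ?_
    · obtain ⟨k, hk⟩ := PolyTime.size_bound hf
      refine ⟨k, fun x i _ => ?_⟩
      have h1 := hk x
      rw [tnU_iter]
      have h2 := tn_iter_le i (f x)
      simp only [T.size_unary] at h1 ⊢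
      omega
    · rw [T.len_unary, tnU_iter]
  refine (PolyDec.eqN (PolyNat.toN h1) (PolyN.const 1)).congr fun x => ?_
  exact (isTow_iff (f x)).symm

/-! ### One link of the chain -/

theorem bound_polyDec (e : ℕ) {E : T → T} {M : T → ℕ} (hE : PolyTime E) (hM : PolyNat M) :
    PolyDec (fun z => (E z).size ≤ 2 ^ (M z / e)) := by
  rcases Nat.eq_zero_or_pos e with rfl | he
  · refine (PolyDec.le (PolyNat.size hE) (PolyNat.const 1)).congr fun z => ?_
    simp
  · have h1 : PolyNat (fun z => (E z).size - 1) := (PolyNat.size hE).sub (PolyNat.const 1)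
    have h2 : PolyNat (fun z => ((E z).size - 1).size) := h1.toN.size
    refine (PolyDec.le (h2.mul (PolyNat.const e)) hM).congr fun z => ?_
    rw [← Nat.le_div_iff_mul_le he, Nat.size_le]
    have := T.size_pos (E z)
    omega

theorem proof_polyDec (p : Par) (hfP : PolyTime p.fP) {E q : T → T} {M : T → ℕ}
    (hE : PolyTime E) (hq : PolyTime q) (hM : PolyNat M) :
    PolyDec (fun z => IsProof Set.univ (decProof (E z)) (p.sent (q z) (M z))) := by
  have h2 : PolyDec (fun z : T =>
      IsProof (Set.univ : Set Fm) (decProof z.right.left) (decFm z.right.right)) :=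
    isProofP_polyDec (Th := fun _ => (Set.univ : Set Fm))
      ((PolyDec.const True).congr fun z => by simp)
  have h3 : PolyTime (fun z => (p.sent (q z) (M z)).enc) :=
    rfn_polyTime p.μ (hfP.comp hq) ((PolyNat.const p.K).mul hM)
  refine (h2.comp (PolyTime.leaf.node (hE.node h3))).congr fun z => ?_
  simp only [T.left_node, T.right_node, decFm_enc]

theorem ok_polyDec (p : Par) (j : ℕ) (hfP : PolyTime p.fP) {E q : T → T} {M : T → ℕ}
    (hE : PolyTime E) (hq : PolyTime q) (hM : PolyNat M) :
    PolyDec (fun z => p.Ok j (q z) (M z) (E z)) :=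
  (PolyDec.le (PolyNat.const (p.m j)) hM).and
    ((bound_polyDec p.e hE hM).and (proof_polyDec p hfP hE hq hM))

/-! ### The chain -/

open Classical in
/-- One round of the check of a chain. -/
noncomputable def step (p : Par) (j : ℕ) (h a : T) : T :=
  if a ≠ T.leaf ∧ a.left.len = 2 ^ lgN a.left.len ∧ p.Ok j a.right (lgN a.left.len) h then
    T.node (T.unary (lgN a.left.len)) a.right
  else T.leaf

theorem step_polyTime (p : Par) (j : ℕ) (hfP : PolyTime p.fP) : PolyTime₂ (step p j) := by
  have i := PolyTime.id
  have hM : PolyNat (fun z : T => z.right.left.len) := PolyNat.len i.right.left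
  refine (PolyTime.ifP (P := fun z : T => z.right ≠ T.leaf ∧
    z.right.left.len = 2 ^ lgN z.right.left.len ∧
      p.Ok j z.right.right (lgN z.right.left.len) z.left)
    ((PolyDec.ne_leaf i.right).and ((isPow_polyDec hM).and
      (ok_polyDec p j hfP i.left i.right.right (lgN_polyNat hM))))
    ((lgN_polyNat hM).node i.right.right) PolyTime.leaf).congr fun z => ?_
  unfold step
  split_ifs <;> rfl

theorem fold_leaf (p : Par) (j : ℕ) (C : T) : tfold (step p j) C T.leaf = T.leaf := by
  induction C with
  | leaf => rfl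
  | node h t _ ih =>
    have : step p j h T.leaf = T.leaf := by
      unfold step; rw [if_neg (fun h => h.1 rfl)]
    rw [tfold, this]; exact ih

theorem fold_iff (p : Par) (j : ℕ) (q : T) (C : T) : ∀ M : ℕ,
    (tfold (step p j) C (T.node (T.unary M) q) ≠ T.leaf ↔ p.Chain j q C M) := by
  induction C with
  | leaf => intro M; simp [tfold, Par.Chain]
  | node E C _ ih =>
    intro M
    rw [tfold, Par.Chain]
    by_cases hc : M = 2 ^ lgN M ∧ p.Ok j q (lgN M) E
    · have : step p j E (T.node (T.unary M) q) = T.node (T.unary (lgN M)) q := by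
        unfold step
        rw [T.left_node, T.right_node, T.len_unary, if_pos ⟨by simp, hc⟩]
      rw [this, ih (lgN M)]
      tauto
    · have : step p j E (T.node (T.unary M) q) = T.leaf := by
        unfold step
        rw [T.left_node, T.right_node, T.len_unary, if_neg (fun h => hc h.2)]
      rw [this, fold_leaf]
      tauto

/-- The weight of a state. -/
def w (a : T) : ℕ := 2 * a.left.len + a.right.size + 2

theorem step_size (p : Par) (j : ℕ) (h a : T) : (step p j h a).size ≤ w a := by
  have h1 := T.size_pos a.right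
  have h2 := lgN_le a.left.len
  unfold step w
  split_ifs
  · simp only [T.size, T.size_unary]; omega
  · simp only [T.size]; omega

theorem step_w (p : Par) (j : ℕ) (h a : T) : w (step p j h a) ≤ w a := by
  have h1 := T.size_pos a.right
  have h2 := lgN_le a.left.len
  unfold step
  split_ifs
  · simp only [w, T.left_node, T.right_node, T.len_unary]; omega
  · simp only [w, T.left_leaf, T.right_leaf, T.len_leaf, T.size]; omega

theorem fold_size (p : Par) (j : ℕ) (l : T) : ∀ (a : T) (B : ℕ), a.size ≤ B → w a ≤ B →
    (tfold (step p j) l a).size ≤ B := by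
  induction l with
  | leaf => intro a B h1 _; exact h1
  | node h t _ ih =>
    intro a B _ h2
    exact ih _ B ((step_size p j h a).trans h2) ((step_w p j h a).trans h2)

theorem w_le (a : T) : w a ≤ 2 * a.size + 4 := by
  have h1 := T.len_lt_size a.left
  have h2 : a.left.size + a.right.size ≤ a.size + 1 := by
    cases a <;> simp [T.size, T.left, T.right]; omega
  unfold w; omega

theorem chain_polyDec (p : Par) (j : ℕ) (hfP : PolyTime p.fP) {C q : T → T} {M : T → ℕ}
    (hC : PolyTime C) (hq : PolyTime q) (hM : PolyNat M) :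
    PolyDec (fun z => p.Chain j (q z) (C z) (M z)) := by
  have h1 : PolyTime₂ (tfold (step p j)) := by
    refine PolyTime₂.tfold (step_polyTime p j hfP) (G := fun n => 2 * n + 4)
      (((PolyB.const 2).mul PolyB.id).add (PolyB.const 4)) (fun a b h => by dsimp only; omega)
      fun l a => ?_
    have h2 := w_le a
    exact fold_size p j l a _ (by omega) (by omega)
  refine (PolyDec.ne_leaf (h1.comp hC (PolyTime.node hM hq))).congr fun z => ?_
  exact fold_iff p j (q z) (C z) (M z)

end Pool.Agent.RO.D0POLY

open Pool.Agent.H19 (T PolyTime PolyDec PolyNat) in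
theorem Pool.Agent.RO.D0POLY_thm : Pool.Agent.RO.Stmt_D0POLY := by
  intro p j hfP
  have i := PolyTime.id
  have hM : PolyNat (fun z : T => z.left.left.len) := PolyNat.len i.left.left
  exact (D0POLY.isTow_polyDec hM).and ((PolyDec.le (PolyNat.const (p.m j)) hM).and
    ((PolyDec.le (PolyNat.len i.left.right.left) hM).and
      (D0POLY.chain_polyDec p j hfP i.left.right.right i.right hM)))
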