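import Pool.Agent.RO.Cst

/-!
Module RO_WINSYS: the windows form a system of windows.
-/

set_option autoImplicit false

namespace Pool.Agent.RO.WINSYS

open Pool.Agent.RO

theorem tow_strictMono : StrictMono tow :=
  strictMono_nat_of_lt_succ fun _ => Nat.lt_two_pow_self

theorem tow_pos (s : ℕ) : 1 ≤ tow s := by
  cases s with
  | zero => exact le_rfl
  | succ n => exact Nat.one_le_two_pow

theorem two_mul_le (M : ℕ) (h : 1 ≤ M) : 2 * M ≤ 2 ^ M := by
  induction M, h using Nat.le_induction with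
  | base => norm_num
  | succ n hn ih =>
    have h2 : 2 ≤ 2 ^ n := by
      calc 2 = 2 ^ 1 := by norm_num
        _ ≤ 2 ^ n := Nat.pow_le_pow_right (by norm_num) hn
    rw [pow_succ]
    omega

theorem pos_ge (M x i : ℕ) : 2 ^ (2 * M) ≤ pos M x i := by
  unfold pos
  omega

theorem pos_lt (M x i : ℕ) (hM : 1 ≤ M) (hx : x < 2 ^ M) (hi : i < 2 * M) :
    pos M x i < 2 ^ (2 * M + 1) := by
  unfold pos
  have h1 := two_mul_le M hM
  have h2 : (x + 1) * 2 ^ M ≤ 2 ^ M * 2 ^ M := Nat.mul_le_mul_right _ hx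
  have h3 : 2 ^ (2 * M) = 2 ^ M * 2 ^ M := by
    rw [two_mul, pow_add]
  have h4 : 2 ^ (2 * M + 1) = 2 * (2 ^ M * 2 ^ M) := by
    rw [pow_succ, h3]
    ring
  rw [h3, h4]
  have h5 : (x + 1) * 2 ^ M = x * 2 ^ M + 2 ^ M := by ring
  omega

theorem pos_M (M x i M' x' i' : ℕ) (hM : 1 ≤ M) (hx : x < 2 ^ M) (hi : i < 2 * M)
    (h : pos M x i = pos M' x' i') : ¬ M < M' := by
  intro hlt
  have h1 := pos_lt M x i hM hx hi
  have h2 := pos_ge M' x' i'
  have h3 : 2 ^ (2 * M + 1) ≤ 2 ^ (2 * M') := Nat.pow_le_pow_right (by norm_num) (by omega)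
  omega

theorem pos_inj (M x i M' x' i' : ℕ) (hM : 1 ≤ M) (hM' : 1 ≤ M') (hx : x < 2 ^ M)
    (hi : i < 2 * M) (hx' : x' < 2 ^ M') (hi' : i' < 2 * M')
    (h : pos M x i = pos M' x' i') : M = M' ∧ x = x' ∧ i = i' := by
  have h1 := pos_M M x i M' x' i' hM hx hi h
  have h2 := pos_M M' x' i' M x i hM' hx' hi' h.symm
  have h3 : M = M' := by omega
  subst h3
  unfold pos at h
  have h4 := two_mul_le M hM
  have h5 : x * 2 ^ M + i = x' * 2 ^ M + i' := by omega
  have hp : 0 < 2 ^ M := by positivity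
  have h6 : x = x' := by
    have e1 : (x * 2 ^ M + i) / 2 ^ M = x := by
      rw [mul_comm, Nat.mul_add_div hp, Nat.div_eq_of_lt (by omega)]
      rfl
    have e2 : (x' * 2 ^ M + i') / 2 ^ M = x' := by
      rw [mul_comm, Nat.mul_add_div hp, Nat.div_eq_of_lt (by omega)]
      rfl
    rw [← e1, ← e2, h5]
  subst h6
  exact ⟨rfl, rfl, by omega⟩

end Pool.Agent.RO.WINSYS

namespace Pool.Agent.RO

theorem WINSYS_thm : Stmt_WINSYS := by
  intro p
  refine ⟨?_, ?_, ?_⟩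
  · intro a b hab
    exact WINSYS.tow_strictMono (Nat.add_lt_add_left hab _)
  · intro d
    exact WINSYS.tow_pos _
  · intro d x i d' x' i' hx hi hx' hi' h
    obtain ⟨h1, h2, h3⟩ := WINSYS.pos_inj _ _ _ _ _ _ (WINSYS.tow_pos _) (WINSYS.tow_pos _)
      hx hi hx' hi' h
    have h4 : p.s0 + d = p.s0 + d' := WINSYS.tow_strictMono.injective h1
    exact ⟨by omega, h2, h3⟩

end Pool.Agent.RO

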