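import Pool.Agent.RO.PDefs

/-!
# Planting ones into a random oracle
-/

open MeasureTheory

namespace Pool.Agent.RO.PLANT

/-- The fair coin. -/
noncomputable def fair : Measure Bool := (PMF.uniformOfFintype Bool).toMeasure

instance : IsProbabilityMeasure fair := by unfold fair; infer_instance

theorem coin_eq : coin = Measure.infinitePi (fun _ : ℕ => fair) := rfl

instance : IsProbabilityMeasure coin := by rw [coin_eq]; infer_instance

open Classical in
/-- The bits in `B` are `true`, the others are fair. -/
noncomputable def mB (B : Finset ℕ) (n : ℕ) : Measure Bool :=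
  if n ∈ B then Measure.dirac true else fair

instance (B : Finset ℕ) (n : ℕ) : IsProbabilityMeasure (mB B n) := by
  unfold mB; split_ifs <;> infer_instance

theorem map_plant (B : Finset ℕ) : Measure.map (plant B) coin = Measure.infinitePi (mB B) := by
  classical
  have h := Measure.infinitePi_map_pi (μ := fun _ : ℕ => fair)
    (f := fun n : ℕ => if n ∈ B then (fun _ : Bool => true) else id)
    (fun n => measurable_of_finite _)
  have h1 : (fun (x : ℕ → Bool) (i : ℕ) => (if i ∈ B then (fun _ : Bool => true) else id) (x i))
      = plant B := by
    funext x i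
    unfold plant
    split_ifs <;> rfl
  have h2 : (fun i : ℕ => Measure.map (if i ∈ B then (fun _ : Bool => true) else id) fair)
      = mB B := by
    funext i
    unfold mB
    split_ifs
    · rw [Measure.map_const, measure_univ, one_smul]
    · rw [Measure.map_id]
  rw [coin_eq, ← h1, h]
  congr 1

theorem fair_true (t : Set Bool) : 2 * fair (t ∩ {true}) = Measure.dirac true t := by
  classical
  have hs : fair {true} = 2⁻¹ := by
    unfold fair
    rw [PMF.toMeasure_apply_singleton _ _ (MeasurableSet.singleton _)]
    simp
  by_cases ht : true ∈ t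
  · have : t ∩ {true} = {true} := by
      ext x; constructor
      · rintro ⟨_, h⟩; exact h
      · intro h; rw [Set.mem_singleton_iff] at h; subst h; exact ⟨ht, rfl⟩
    rw [this, hs, Measure.dirac_apply_of_mem ht]
    exact ENNReal.mul_inv_cancel (by norm_num) (by norm_num)
  · have : t ∩ {true} = ∅ := by
      ext x; constructor
      · rintro ⟨h1, h⟩; rw [Set.mem_singleton_iff] at h; subst h; exact ht h1
      · intro h; exact h.elim
    rw [this, measure_empty, mul_zero, Measure.dirac_apply]
    simp [ht]

theorem restrict_eq (B : Finset ℕ) :
    (2 : ENNReal) ^ B.card • coin.restrict (ones B) = Measure.infinitePi (mB B) := by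
  classical
  apply Measure.eq_infinitePi
  intro s t ht
  have hpi : MeasurableSet ((s : Set ℕ).pi t) := MeasurableSet.pi s.countable_toSet fun i _ => ht i
  rw [Measure.smul_apply, Measure.restrict_apply hpi, smul_eq_mul]
  have hset : (s : Set ℕ).pi t ∩ ones B = ((s ∪ B : Finset ℕ) : Set ℕ).pi
      (fun i => (if i ∈ s then t i else Set.univ) ∩ (if i ∈ B then {true} else Set.univ)) := by
    ext R
    simp only [Set.mem_inter_iff, Set.mem_pi, ones, Set.mem_ofPred_eq, Finset.coe_union,
      Set.mem_union, Finset.mem_coe]
    constructor
    · rintro ⟨h1, h2⟩ i _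
      constructor
      · split_ifs with h
        · exact h1 i h
        · trivial
      · split_ifs with h
        · exact h2 i h
        · trivial
    · intro h
      constructor
      · intro i hi
        have := (h i (Or.inl hi)).1
        rwa [if_pos hi] at this
      · intro i hi
        have := (h i (Or.inr hi)).2
        rwa [if_pos hi] at this
  rw [hset, coin_eq, Measure.infinitePi_pi]
  swap
  · intro i _
    exact MeasurableSet.of_discrete
  have hpow : (2 : ENNReal) ^ B.card = ∏ i ∈ s ∪ B, (if i ∈ B then (2 : ENNReal) else 1) := by
    rw [Finset.prod_ite_mem, Finset.prod_const]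
    congr 2
    ext i; simp
  rw [hpow, ← Finset.prod_mul_distrib]
  have hR : ∏ i ∈ s, (mB B i) (t i) = ∏ i ∈ s ∪ B, (if i ∈ s then (mB B i) (t i) else 1) := by
    rw [Finset.prod_ite_mem]
    congr 1
    ext i; simp
  rw [hR]
  apply Finset.prod_congr rfl
  intro i hi
  unfold mB
  by_cases hB : i ∈ B
  · by_cases hs : i ∈ s
    · simp only [hB, hs, if_true]
      exact fair_true _
    · simp only [hB, hs, if_true, if_false]
      rw [fair_true, Measure.dirac_apply_of_mem (Set.mem_univ _)]
  · by_cases hs : i ∈ s
    · simp only [hB, hs, if_true, if_false, one_mul, Set.inter_univ]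
    · exfalso
      rcases Finset.mem_union.mp hi with h | h
      · exact hs h
      · exact hB h

theorem measurable_plant (B : Finset ℕ) : Measurable (plant B) := by
  classical
  refine measurable_pi_iff.mpr fun n => ?_
  unfold plant
  by_cases h : n ∈ B
  · simp only [h, if_true]; exact measurable_const
  · simp only [h, if_false]; exact measurable_pi_apply n

end Pool.Agent.RO.PLANT

namespace Pool.Agent.RO

open PLANT

theorem PROB_thm : Stmt_PROB := by
  unfold Stmt_PROB
  infer_instance

theorem PLANT_thm : Stmt_PLANT := by
  intro B E hE
  have h1 : coin (plant B ⁻¹' E) = Measure.infinitePi (mB B) E := by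
    rw [← map_plant B, Measure.map_apply (measurable_plant B) hE]
  have h2 : Measure.infinitePi (mB B) E = (2 : ENNReal) ^ B.card * coin (E ∩ ones B) := by
    rw [← restrict_eq B, Measure.smul_apply, Measure.restrict_apply hE, smul_eq_mul]
  rw [h1, h2, ← mul_assoc, ← mul_pow, ENNReal.inv_mul_cancel (by norm_num) (by norm_num),
    one_pow, one_mul]

end Pool.Agent.RO
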