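import Pool.Agent.RO.Sem
import Pool.Agent.Lib_helper19.Diagonal

/-! # Checking proofs in polynomial time (with an oracle symbol) -/

namespace Pool.Agent.RO

open Pool.Agent.H19
open Pool.Agent.H19.T

/-- Decode a formula. -/
def decFm : T → Fm
  | T.leaf => Fm.bot
  | T.node _ T.leaf => Fm.bot
  | T.node tag (T.node a b) =>
    if tag = T.unary 9 then Fm.eq (decTm a) (decTm b)
    else if tag = T.unary 10 then Fm.le (decTm a) (decTm b)
    else if tag = T.unary 11 then Fm.imp (decFm a) (decFm b)
    else if tag = T.unary 12 then Fm.all (decFm a)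
    else if tag = T.unary 13 then Fm.rel (decTm a)
    else Fm.bot

@[simp] theorem decFm_enc (φ : Fm) : decFm φ.enc = φ := by
  induction φ <;> simp_all [Fm.enc, decFm, T.unary_inj]

theorem Fm.enc_inj {φ ψ : Fm} : φ.enc = ψ.enc ↔ φ = ψ :=
  ⟨fun h => by rw [← decFm_enc φ, h, decFm_enc], fun h => by rw [h]⟩

theorem rShift_fm (d : ℕ) (φ : Fm) : ∀ c : ℕ,
    rShift φ.enc (T.node (T.unary c) (T.unary d)) = (φ.shift c d).enc := by
  induction φ with
  | bot => intro c; simp [Fm.enc, rShift, Fm.shift, T.unary]
  | eq s t => intro c; simp [Fm.enc, rShift, Fm.shift, T.unary, rShift_tm]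
  | le s t => intro c; simp [Fm.enc, rShift, Fm.shift, T.unary, rShift_tm]
  | rel t => intro c; simp [Fm.enc, rShift, Fm.shift, T.unary, rShift_tm]
  | imp φ ψ ih1 ih2 => intro c; simp [Fm.enc, rShift, Fm.shift, T.unary, ih1, ih2]
  | all φ ih =>
    intro c
    have := ih (c + 1)
    simp only [T.unary] at this
    simp [Fm.enc, rShift, Fm.shift, T.unary, this]

theorem rInst_fm (t : Tm) (φ : Fm) : ∀ k : ℕ,
    rInst φ.enc (T.node (T.unary k) t.enc) = (φ.inst k t).enc := by
  induction φ with
  | bot => intro c; simp [Fm.enc, rInst, Fm.inst, T.unary]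
  | eq s t => intro c; simp [Fm.enc, rInst, Fm.inst, T.unary, rInst_tm]
  | le s t => intro c; simp [Fm.enc, rInst, Fm.inst, T.unary, rInst_tm]
  | rel t => intro c; simp [Fm.enc, rInst, Fm.inst, T.unary, rInst_tm]
  | imp φ ψ ih1 ih2 => intro c; simp [Fm.enc, rInst, Fm.inst, T.unary, ih1, ih2]
  | all φ ih =>
    intro c
    have := ih (c + 1)
    simp only [T.unary] at this
    simp [Fm.enc, rInst, Fm.inst, T.unary, this]

theorem normFm_size (x : T) : (decFm x).enc.size ≤ 30 * x.size := by
  induction x using decFm.induct with
  | case1 => simp [decFm, Fm.enc, T.size, T.unary]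
  | case2 t => simp [decFm, Fm.enc, T.size, T.unary]; omega
  | case3 a b =>
    have h1 := normTm_size a
    have h2 := normTm_size b
    simp only [decFm, if_true, Fm.enc, T.size, T.size_unary]
    omega
  | case4 a b h0 =>
    have h1 := normTm_size a
    have h2 := normTm_size b
    simp only [decFm, h0, if_true, if_false, Fm.enc, T.size, T.size_unary]; omega
  | case5 a b h0 h1 ih1 ih2 =>
    simp only [decFm, h0, h1, if_true, if_false, Fm.enc, T.size, T.size_unary] at *; omega
  | case6 a b h0 h1 h2 ih =>
    simp only [decFm, h0, h1, h2, if_true, if_false, Fm.enc, T.size, T.size_unary] at *; omega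
  | case7 a b h0 h1 h2 h3 =>
    have h4 := normTm_size a
    simp only [decFm, h0, h1, h2, h3, if_true, if_false, Fm.enc, T.size, T.size_unary] at *; omega
  | case8 t a b h0 h1 h2 h3 h4 =>
    have := T.size_pos t
    have := T.size_pos a
    have := T.size_pos b
    simp only [decFm, h0, h1, h2, h3, h4, if_false, Fm.enc, T.size, T.size_unary]
    omega

theorem normFm_polyTime : PolyTime (fun x => (decFm x).enc) := by
  have i := PolyTime.id
  have L := PolyTime.leaf
  have t := i.left.left
  have a := normTm_polyTime.comp i.left.right.left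
  have b := normTm_polyTime.comp i.left.right.right
  have va := i.right.left
  have vb := i.right.right
  have Z : PolyTime (fun _ => (Fm.bot).enc) := PolyTime.const _
  refine PolyTime.synRec₁ (F := fun x => (decFm x).enc) (d := (Fm.bot).enc)
    (comb := fun w =>
      if w.left.left = T.unary 9 then T.node (T.unary 9)
        (T.node (decTm w.left.right.left).enc (decTm w.left.right.right).enc)
      else if w.left.left = T.unary 10 then T.node (T.unary 10)
        (T.node (decTm w.left.right.left).enc (decTm w.left.right.right).enc)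
      else if w.left.left = T.unary 11 then
        T.node (T.unary 11) (T.node w.right.left w.right.right)
      else if w.left.left = T.unary 12 then T.node (T.unary 12) (T.node w.right.left T.leaf)
      else if w.left.left = T.unary 13 then T.node (T.unary 13)
        (T.node (decTm w.left.right.left).enc T.leaf)
      else (Fm.bot).enc) ?_ rfl (fun _ => rfl) ?_
    (G := fun n => 30 * n) ((PolyB.const 30).mul PolyB.id) (fun a b h => by dsimp only; omega)
    normFm_size
  · exact PolyTime.ifEqs t ((PolyTime.const _).node (a.node b))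
      (PolyTime.ifEqs t ((PolyTime.const _).node (a.node b))
      (PolyTime.ifEqs t ((PolyTime.const _).node (va.node vb))
      (PolyTime.ifEqs t ((PolyTime.const _).node (va.node L))
      (PolyTime.ifEqs t ((PolyTime.const _).node (a.node L)) Z))))
  · intro t a b
    simp only [decFm, T.left_node, T.right_node]
    split_ifs <;> rfl

theorem PolyDec.ofFm {P : Fm → Prop} {Q : T → Prop} (hQ : PolyDec Q) (h : ∀ φ, P φ ↔ Q φ.enc) :
    PolyDec (fun x => P (decFm x)) :=
  (hQ.comp normFm_polyTime).congr fun x => (h _).symm

theorem Fm.guarded_iff (φ : Fm) : φ.guarded = true ↔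
    (φ.enc.left = T.unary 11 ∧ φ.enc.right.left.left = T.unary 10 ∧
      φ.enc.right.left.right.left = (Tm.var 0).enc ∧
      ¬ (decTm φ.enc.right.left.right.right).occurs 0 = true) := by
  cases φ with
  | imp ψ χ =>
    cases ψ with
    | le s t =>
      have h0 : s.enc = (Tm.var 0).enc ↔ s = Tm.var 0 := Tm.enc_inj
      simp only [Fm.enc, T.left_node, T.right_node, decTm_enc, h0]
      cases s with
      | var i =>
        cases i with
        | zero => simp [Fm.guarded]
        | succ i => simp [Fm.guarded]
      | _ => simp [Fm.guarded]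
    | _ => simp [Fm.guarded, Fm.enc, T.unary_inj]
  | _ => simp [Fm.guarded, Fm.enc, T.unary_inj]

theorem Fm.sharp_iff (φ : Fm) : φ.sharp = true ↔
    (φ.guarded = true ∧ φ.enc.right.left.right.right.left = T.unary 4) := by
  cases φ with
  | imp ψ χ =>
    cases ψ with
    | le s t =>
      cases s with
      | var i =>
        cases i with
        | zero =>
          cases t <;> simp [Fm.sharp, Fm.guarded, Fm.enc, Tm.enc, Tm.occurs, T.unary_inj]
        | succ i => simp [Fm.sharp, Fm.guarded]
      | _ => simp [Fm.sharp, Fm.guarded]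
    | _ => simp [Fm.sharp, Fm.guarded]
  | _ => simp [Fm.sharp, Fm.guarded]

theorem guarded_polyDec : PolyDec (fun x => (decFm x).guarded = true) := by
  have i := PolyTime.id
  refine PolyDec.ofFm (Q := fun e => e.left = T.unary 11 ∧ e.right.left.left = T.unary 10 ∧
      e.right.left.right.left = (Tm.var 0).enc ∧
      ¬ (decTm e.right.left.right.right).occurs 0 = true) ?_ Fm.guarded_iff
  exact (PolyDec.eq i.left (PolyTime.const _)).and ((PolyDec.eq i.right.left.left
    (PolyTime.const _)).and ((PolyDec.eq i.right.left.right.left (PolyTime.const _)).and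
    (occurs_polyDec.comp i.right.left.right.right).not))

theorem sharp_polyDec : PolyDec (fun x => (decFm x).sharp = true) := by
  have i := PolyTime.id
  refine ((guarded_polyDec.and ((PolyDec.eq i.right.left.right.right.left
    (PolyTime.const (T.unary 4))).comp normFm_polyTime))).congr fun x => ?_
  rw [Fm.sharp_iff]

theorem sigmaPi_polyTime :
    PolyTime (fun x => T.node (ofBool (decFm x).isSigma) (ofBool (decFm x).isPi)) := by
  have i := PolyTime.id
  have L := PolyTime.leaf
  have t := i.left.left
  have TT : PolyTime (fun _ => T.node T.leaf T.leaf) := PolyTime.const _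
  have TTT : PolyTime (fun _ => T.node (T.node T.leaf T.leaf) (T.node T.leaf T.leaf)) :=
    PolyTime.const _
  have hand : ∀ p q : Bool, ofBool (p && q) = tif (ofBool p) T.leaf (ofBool q) := by
    intro p q; cases p <;> cases q <;> simp [ofBool, tif]
  refine PolyTime.synRec₁
    (F := fun x => T.node (ofBool (decFm x).isSigma) (ofBool (decFm x).isPi))
    (d := T.node (T.node T.leaf T.leaf) (T.node T.leaf T.leaf))
    (comb := fun w =>
      if w.left.left = T.unary 9 then T.node (T.node T.leaf T.leaf) (T.node T.leaf T.leaf)
      else if w.left.left = T.unary 10 then T.node (T.node T.leaf T.leaf) (T.node T.leaf T.leaf)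
      else if w.left.left = T.unary 11 then
        T.node (tif w.right.left.right T.leaf w.right.right.left)
          (tif w.right.left.left T.leaf w.right.right.right)
      else if w.left.left = T.unary 12 then
        T.node (tif (ofBool (decFm w.left.right.left).sharp) T.leaf w.right.left.left)
          (tif (ofBool (decFm w.left.right.left).guarded) T.leaf w.right.left.right)
      else T.node (T.node T.leaf T.leaf) (T.node T.leaf T.leaf)) ?_ rfl (fun _ => rfl) ?_
    (G := fun _ => 7) (PolyB.const 7) (fun _ _ _ => le_rfl) ?_
  · exact PolyTime.ifEqs t TTT (PolyTime.ifEqs t TTT (PolyTime.ifEqs t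
      ((i.right.left.right.tif L i.right.right.left).node
        (i.right.left.left.tif L i.right.right.right)) (PolyTime.ifEqs t
      (((sharp_polyDec.ofBool.comp i.left.right.left).tif L i.right.left.left).node
        ((guarded_polyDec.ofBool.comp i.left.right.left).tif L i.right.left.right)) TTT)))
  · intro t a b
    simp only [decFm, T.left_node, T.right_node]
    split_ifs
    · rfl
    · rfl
    · simp only [Fm.isSigma, Fm.isPi, hand]
    · simp only [Fm.isSigma, Fm.isPi, hand]
    · rfl
    · rfl
  · intro x
    have h1 := ofBool_size (decFm x).isSigma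
    have h2 := ofBool_size (decFm x).isPi
    simp only [T.size]; omega

theorem isSigma_polyDec : PolyDec (fun x => (decFm x).isSigma = true) :=
  PolyDec.of_ofBool (sigmaPi_polyTime.left.congr fun _ => rfl)

/-! ### The axioms of `S^1_2` -/

theorem PolyDec.memList (L : List Fm) : PolyDec (fun x => decFm x ∈ L) := by
  induction L with
  | nil => exact (PolyDec.const False).congr fun x => by simp
  | cons a L ih =>
    refine ((PolyDec.eq normFm_polyTime (PolyTime.const a.enc)).or ih).congr fun x => ?_
    rw [Fm.enc_inj, List.mem_cons]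

theorem shift_polyTime (c d : ℕ) : PolyTime (fun x => ((decFm x).shift c d).enc) := by
  refine (rShift_polyTime₂.comp normFm_polyTime (PolyTime.const
    (T.node (T.unary c) (T.unary d)))).congr fun x => ?_
  rw [rShift_fm]

theorem pind_polyTime : PolyTime (fun x => (pind (decFm x)).enc) := by
  have L := PolyTime.leaf
  have c : ∀ a : T, PolyTime (fun _ => a) := fun a => PolyTime.const a
  have f := normFm_polyTime
  exact (c _).node ((((c _).node (((c _).node ((c _).node f)).node L))).node
    ((c _).node ((((c _).node (((c _).node (((c _).node ((c _).node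
      ((c _).node ((shift_polyTime 1 1).node (shift_polyTime 0 1))))).node L)).node L))).node
      ((c _).node (f.node L)))))

theorem S12_polyDec : PolyDec (fun x => decFm x ∈ S12) := by
  have i := PolyTime.id
  have c3 := i.right.right.right.right.right.left
  have h1 : PolyDec (fun x => decFm x ∈ basicList) := PolyDec.memList _
  have h2 : PolyDec (fun x => ∃ ψ : Fm, ψ.isSigma = true ∧ decFm x = pind ψ) := by
    refine PolyDec.ofFm (P := fun φ => ∃ ψ : Fm, ψ.isSigma = true ∧ φ = pind ψ)
      (Q := fun e => (decFm e.right.right.right.right.right.left).isSigma = true ∧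
        e = (pind (decFm e.right.right.right.right.right.left)).enc) ?_ ?_
    · exact (isSigma_polyDec.comp c3).and (PolyDec.eq i (pind_polyTime.comp c3))
    · intro φ
      constructor
      · rintro ⟨ψ, h, rfl⟩
        have : decFm (pind ψ).enc.right.right.right.right.right.left = ψ := by
          simp [pind, Fm.enc]
        rw [this]; exact ⟨h, rfl⟩
      · rintro ⟨h, h'⟩
        exact ⟨_, h, Fm.enc_inj.1 h'⟩
  exact (h1.or h2).congr fun x => Iff.rfl

/-! ### Proof lines -/

/-- Decode a proof line. -/
def decStep (x : T) : Step :=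
  if x.left = T.unary 0 then Step.hyp (decFm x.right)
  else if x.left = T.unary 1 then Step.axK (decFm x.right.left) (decFm x.right.right)
  else if x.left = T.unary 2 then
    Step.axS (decFm x.right.left) (decFm x.right.right.left) (decFm x.right.right.right)
  else if x.left = T.unary 3 then Step.dne (decFm x.right)
  else if x.left = T.unary 4 then Step.allE (decFm x.right.left) (decTm x.right.right)
  else if x.left = T.unary 5 then Step.allK (decFm x.right.left) (decFm x.right.right)
  else if x.left = T.unary 6 then Step.vac (decFm x.right)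
  else if x.left = T.unary 7 then Step.refl (decTm x.right)
  else if x.left = T.unary 8 then
    Step.subst (decFm x.right.left) (decTm x.right.right.left) (decTm x.right.right.right)
  else if x.left = T.unary 9 then Step.mp (decFm x.right.left) (decFm x.right.right)
  else Step.gen (decFm x.right)

@[simp] theorem decStep_enc (s : Step) : decStep s.enc = s := by
  cases s <;> simp [decStep, Step.enc, T.unary_inj]

/-- Decode a proof. -/
def decProof (x : T) : List Step := x.toL.map decStep

@[simp] theorem decProof_enc (π : List Step) : decProof (encProof π) = π := by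
  induction π with
  | nil => rfl
  | cons s π ih =>
    simp only [decProof, encProof, T.toL, List.map_cons, decStep_enc] at ih ⊢
    rw [ih]

theorem inst_polyTime : PolyTime₂ (fun x y => ((decFm x).inst 0 (decTm y)).enc) := by
  have i := PolyTime.id
  refine (rInst_polyTime₂.comp (normFm_polyTime.comp i.left) (PolyTime.leaf.node
    (normTm_polyTime.comp i.right))).congr fun x => ?_
  exact rInst_fm _ _ 0

theorem concl_polyTime : PolyTime (fun x => (decStep x).concl.enc) := by
  have i := PolyTime.id
  have c : ∀ a : T, PolyTime (fun _ => a) := fun a => PolyTime.const a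
  have L := PolyTime.leaf
  have F : ∀ {f : T → T}, PolyTime f → PolyTime (fun x => (decFm (f x)).enc) :=
    fun hf => normFm_polyTime.comp hf
  have D : ∀ {f : T → T}, PolyTime f → PolyTime (fun x => (decTm (f x)).enc) :=
    fun hf => normTm_polyTime.comp hf
  have t := i.left
  have r := i.right
  have rl := i.right.left
  have rr := i.right.right
  have rrl := i.right.right.left
  have rrr := i.right.right.right
  have I : ∀ {f g : T → T}, PolyTime f → PolyTime g → PolyTime (fun x =>
    T.node (T.unary 11) (T.node (f x) (g x))) := fun hf hg => (c _).node (hf.node hg)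
  have A : ∀ {f : T → T}, PolyTime f → PolyTime (fun x =>
    T.node (T.unary 12) (T.node (f x) T.leaf)) := fun hf => (c _).node (hf.node L)
  have E : ∀ {f g : T → T}, PolyTime f → PolyTime g → PolyTime (fun x =>
    T.node (T.unary 9) (T.node (f x) (g x))) := fun hf hg => (c _).node (hf.node hg)
  have B : PolyTime (fun _ => Fm.bot.enc) := c _
  have N : ∀ {f g : T → T}, PolyTime f → PolyTime g → PolyTime (fun x =>
    ((decFm (f x)).inst 0 (decTm (g x))).enc) := fun hf hg => inst_polyTime.comp hf hg
  have key := PolyTime.ifEqs (c := T.unary 0) t (F r)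
    (PolyTime.ifEqs (c := T.unary 1) t (I (F rl) (I (F rr) (F rl)))
    (PolyTime.ifEqs (c := T.unary 2) t (I (I (F rl) (I (F rrl) (F rrr)))
      (I (I (F rl) (F rrl)) (I (F rl) (F rrr))))
    (PolyTime.ifEqs (c := T.unary 3) t (I (I (I (F r) B) B) (F r))
    (PolyTime.ifEqs (c := T.unary 4) t (I (A (F rl)) (N rl rr))
    (PolyTime.ifEqs (c := T.unary 5) t (I (A (I (F rl) (F rr))) (I (A (F rl)) (A (F rr))))
    (PolyTime.ifEqs (c := T.unary 6) t (I (F r) (A ((shift_polyTime 0 1).comp r)))
    (PolyTime.ifEqs (c := T.unary 7) t (E (D r) (D r))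
    (PolyTime.ifEqs (c := T.unary 8) t (I (E (D rrl) (D rrr)) (I (N rl rrl) (N rl rrr)))
    (PolyTime.ifEqs (c := T.unary 9) t (F rr) (A (F r)))))))))))
  refine key.congr fun x => ?_
  simp only [decStep]
  split_ifs <;> rfl

/-- A list of formulas as a tree. -/
def encPrev (prev : List Fm) : T := encL (prev.map Fm.enc)

theorem mem_encPrev (prev : List Fm) (φ : Fm) : φ.enc ∈ (encPrev prev).toL ↔ φ ∈ prev := by
  simp only [encPrev, toL_encL, List.mem_map]
  exact ⟨fun ⟨ψ, h, h'⟩ => Fm.enc_inj.1 h' ▸ h, fun h => ⟨φ, h, rfl⟩⟩

theorem okP_polyDec {Th : T → Set Fm} (hTh : PolyDec (fun z => decFm z.left ∈ Th z.right)) :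
    ∃ f : T → T, PolyTime f ∧ ∀ x p prev, (f (T.node x (T.node p (encPrev prev))) ≠ T.leaf ↔
      (decStep x).ok (Th p) prev) := by
  have i := PolyTime.id
  have TT : PolyTime (fun _ => T.node T.leaf T.leaf) := PolyTime.const _
  obtain ⟨f0, hf0, h0⟩ := hTh.comp (i.left.right.node i.right.left)
  obtain ⟨f9, hf9, h9⟩ := (PolyDec.mem i.right.right ((PolyTime.const (T.unary 11)).node
    ((normFm_polyTime.comp i.left.right.left).node
      (normFm_polyTime.comp i.left.right.right)))).and
    (PolyDec.mem i.right.right (normFm_polyTime.comp i.left.right.left))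
  obtain ⟨f10, hf10, h10⟩ := PolyDec.mem i.right.right (normFm_polyTime.comp i.left.right)
  have t := i.left.left
  refine ⟨_, PolyTime.ifEqs (c := T.unary 0) t hf0 (PolyTime.ifEqs (c := T.unary 1) t TT
    (PolyTime.ifEqs (c := T.unary 2) t TT (PolyTime.ifEqs (c := T.unary 3) t TT
    (PolyTime.ifEqs (c := T.unary 4) t TT (PolyTime.ifEqs (c := T.unary 5) t TT
    (PolyTime.ifEqs (c := T.unary 6) t TT (PolyTime.ifEqs (c := T.unary 7) t TT
    (PolyTime.ifEqs (c := T.unary 8) t TT
    (PolyTime.ifEqs (c := T.unary 9) t hf9 hf10))))))))), fun x p prev => ?_⟩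
  simp only [T.left_node, decStep]
  split_ifs
  · rw [← h0]; rfl
  · simp [Step.ok]
  · simp [Step.ok]
  · simp [Step.ok]
  · simp [Step.ok]
  · simp [Step.ok]
  · simp [Step.ok]
  · simp [Step.ok]
  · simp [Step.ok]
  · rw [← h9]
    simp only [T.left_node, T.right_node, Step.ok, mem_encPrev]
    have := mem_encPrev prev (Fm.imp (decFm x.right.left) (decFm x.right.right))
    simp only [Fm.enc] at this
    rw [this]
  · rw [← h10]
    simp only [T.left_node, T.right_node, Step.ok, mem_encPrev]

/-- One round of proof checking. -/
def gChkP (f : T → T) (h a : T) : T :=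
  tif a T.leaf (tif (f (T.node h a.right)) T.leaf
    (T.node T.leaf (T.node a.right.left (T.node (decStep h).concl.enc a.right.right))))

theorem tfoldP_leaf {f : T → T} (l : T) : tfold (gChkP f) l T.leaf = T.leaf := by
  induction l with
  | leaf => rfl
  | node h t _ ih => simp [tfold, gChkP, ih]

theorem gChkP_fold {Th : T → Set Fm} {f : T → T}
    (hf : ∀ x p prev, (f (T.node x (T.node p (encPrev prev))) ≠ T.leaf ↔
      (decStep x).ok (Th p) prev)) (p y : T) (φ : Fm) : ∀ prev : List Fm,
    ((tfold (gChkP f) y (T.node T.leaf (T.node p (encPrev prev))) ≠ T.leaf ∧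
      (tfold (gChkP f) y (T.node T.leaf (T.node p (encPrev prev)))).right.right ≠ T.leaf ∧
      (tfold (gChkP f) y (T.node T.leaf (T.node p (encPrev prev)))).right.right.left = φ.enc) ↔
      Derives (Th p) prev (decProof y) φ) := by
  induction y with
  | leaf =>
    intro prev
    simp only [tfold, decProof, T.toL, List.map_nil, Derives]
    cases prev with
    | nil => simp [encPrev]
    | cons a l => simp [encPrev, Fm.enc_inj]
  | node h t _ ih =>
    intro prev
    have h1 : decProof (T.node h t) = decStep h :: decProof t := by
      simp [decProof, T.toL]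
    rw [h1]
    simp only [Derives, tfold]
    by_cases hok : f (T.node h (T.node p (encPrev prev))) = T.leaf
    · have h2 : ¬ (decStep h).ok (Th p) prev := by rw [← hf]; simp [hok]
      have h3 : gChkP f h (T.node T.leaf (T.node p (encPrev prev))) = T.leaf := by
        simp [gChkP, hok]
      rw [h3, tfoldP_leaf]
      simp [h2]
    · have h2 : (decStep h).ok (Th p) prev := by rw [← hf]; exact hok
      have h3 : gChkP f h (T.node T.leaf (T.node p (encPrev prev))) =
          T.node T.leaf (T.node p (encPrev ((decStep h).concl :: prev))) := by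
        simp only [gChkP, T.right_node, T.left_node, tif_node]
        rw [tif, if_neg hok]; rfl
      rw [h3, ih]
      simp [h2]

theorem gChkP_size {f : T → T} {k : ℕ}
    (hk : ∀ x : T, ((decStep x).concl.enc).size ≤ (x.size + 2) ^ k) (N : ℕ) (l : T) :
    ∀ a : T, l.size ≤ N → (tfold (gChkP f) l a).size ≤ a.size + l.size * ((N + 2) ^ k + 5) := by
  induction l with
  | leaf => intro a _; simp [tfold]
  | node h t _ ih =>
    intro a hN
    simp only [T.size] at hN
    have h1 := ih (gChkP f h a) (by omega)
    have h2 : (gChkP f h a).size ≤ a.size + ((N + 2) ^ k + 5) := by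
      have h3 := hk h
      have h4 : (h.size + 2) ^ k ≤ (N + 2) ^ k := Nat.pow_le_pow_left (by omega) _
      simp only [gChkP, tif]
      split_ifs
      · simp only [T.size]; omega
      · simp only [T.size]; omega
      · have := T.size_right_le a
        have := T.size_parts_eq a.right
        simp only [T.size]; omega
    have h5 := T.size_pos h
    simp only [tfold, T.size]
    calc _ ≤ (gChkP f h a).size + t.size * ((N + 2) ^ k + 5) := h1
      _ ≤ a.size + ((N + 2) ^ k + 5) + t.size * ((N + 2) ^ k + 5) := by omega
      _ ≤ a.size + (h.size + t.size + 1) * ((N + 2) ^ k + 5) := by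
        have : (h.size + t.size + 1) * ((N + 2) ^ k + 5) =
          h.size * ((N + 2) ^ k + 5) + t.size * ((N + 2) ^ k + 5) + ((N + 2) ^ k + 5) := by ring
        rw [this]; omega

/-- **Proofs are checked in polynomial time**, uniformly in a family of theories: on
`node p (node y x)` check that `y` is a proof of the formula `x` in the theory `Th p`. -/
theorem isProofP_polyDec {Th : T → Set Fm}
    (hTh : PolyDec (fun z => decFm z.left ∈ Th z.right)) :
    PolyDec (fun z => IsProof (Th z.left) (decProof z.right.left) (decFm z.right.right)) := by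
  obtain ⟨f, hf, hfok⟩ := okP_polyDec hTh
  have i := PolyTime.id
  have L := PolyTime.leaf
  obtain ⟨k, hk⟩ := concl_polyTime.size_bound
  have hg : PolyTime₂ (gChkP f) := by
    refine i.right.tif L ((hf.comp (i.left.node i.right.right)).tif L
      (L.node (i.right.right.left.node ((concl_polyTime.comp i.left).node i.right.right.right))))
  have hG : PolyB (fun n => n + n * ((n + 2) ^ k + 5)) :=
    PolyB.id.add (PolyB.id.mul (PolyB.add ⟨k, fun _ => le_rfl⟩ (PolyB.const 5)))
  have hfold : PolyTime₂ (tfold (gChkP f)) := by
    refine PolyTime₂.tfold hg hG ?_ fun l a => ?_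
    · intro a b h
      have h1 : (a + 2) ^ k ≤ (b + 2) ^ k := Nat.pow_le_pow_left (by omega) _
      have h2 : a * ((a + 2) ^ k + 5) ≤ b * ((b + 2) ^ k + 5) := Nat.mul_le_mul h (by omega)
      dsimp only; omega
    · have h1 := gChkP_size (f := f) hk (l.size + a.size) l a (by omega)
      have h2 : l.size * ((l.size + a.size + 2) ^ k + 5) ≤
          (l.size + a.size) * ((l.size + a.size + 2) ^ k + 5) :=
        Nat.mul_le_mul_right _ (by omega)
      omega
  have hr : PolyTime (fun z : T => tfold (gChkP f) z.right.left
      (T.node T.leaf (T.node z.left T.leaf))) :=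
    hfold.comp i.right.left (L.node (i.left.node L))
  refine (((PolyDec.ne_leaf hr).and ((PolyDec.ne_leaf hr.right.right).and
    (PolyDec.eq hr.right.right.left (normFm_polyTime.comp i.right.right))))).congr fun z => ?_
  exact gChkP_fold hfok z.left z.right.left (decFm z.right.right) []

/-- A false sentence describing a tree. -/
def falsum (v : T) : Fm := Fm.imp (Fm.eq (tt v) (tt v)) Fm.bot

theorem falsum_polyTime : PolyTime (fun v => (falsum v).enc) :=
  (PolyTime.const _).node (((PolyTime.const _).node (tt_polyTime.node tt_polyTime)).node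
    (PolyTime.const _))

/-- The tree described by a formula, if it is of the form `falsum v`. -/
def unfalsum (x : T) : T := uu x.right.left.right.left

theorem unfalsum_enc (v : T) : unfalsum (falsum v).enc = v := by
  simp [unfalsum, falsum, Fm.enc, uu_tt]

/-! ### A short proof of anything from `falsum v` -/

/-- A proof of `φ` from `falsum v`. -/
def refute (v : T) (φ : Fm) : List Step :=
  [Step.hyp (falsum v), Step.refl (tt v), Step.mp (Fm.eq (tt v) (tt v)) Fm.bot,
    Step.axK Fm.bot (Fm.imp φ Fm.bot),
    Step.mp Fm.bot (Fm.imp (Fm.imp φ Fm.bot) Fm.bot), Step.dne φ,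
    Step.mp (Fm.imp (Fm.imp φ Fm.bot) Fm.bot) φ]

theorem refute_isProof {Th : Set Fm} {v : T} (h : falsum v ∈ Th) (φ : Fm) :
    IsProof Th (refute v φ) φ := by
  simp only [IsProof, refute, Derives, Step.ok, Step.concl]
  refine ⟨h, trivial, ⟨?_, ?_⟩, trivial, ⟨?_, ?_⟩, trivial, ⟨?_, ?_⟩, rfl⟩ <;>
    simp [falsum]

theorem refute_size (v : T) (φ : Fm) :
    (encProof (refute v φ)).size ≤ 65 * v.size + (7 * φ.enc.size + 1000) := by
  have h := tt_size v
  simp only [encProof, refute, Step.enc, falsum, Fm.enc, T.size, T.size_unary]
  omega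

/-! ### The reflection sentences in polynomial time -/

theorem rfn_polyTime (μ : Fm) {g : T → T} {f : T → ℕ} (hg : PolyTime g) (hf : PolyNat f) :
    PolyTime (fun x => (rfn (decFm (g x)) μ (f x)).enc) := by
  have L := PolyTime.leaf
  have c : ∀ a : T, PolyTime (fun _ => a) := fun a => PolyTime.const a
  have I : ∀ {f g : T → T}, PolyTime f → PolyTime g → PolyTime (fun x =>
    T.node (T.unary 11) (T.node (f x) (g x))) := fun hf hg => (c _).node (hf.node hg)
  have A : ∀ {f : T → T}, PolyTime f → PolyTime (fun x =>
    T.node (T.unary 12) (T.node (f x) T.leaf)) := fun hf => (c _).node (hf.node L)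
  have LE : ∀ i : ℕ, PolyTime (fun x => T.node (T.unary 10) (T.node (Tm.len (Tm.var i)).enc
    (Tm.numeral (f x)).enc)) := fun i => (c _).node ((c _).node hf.numeral)
  exact A (A (A (A (I (LE 0) (I (LE 1) (I (LE 2) (I (LE 3)
    (I (normFm_polyTime.comp hg) (c μ.enc)))))))))


end Pool.Agent.RO
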