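import Pool.Agent.RO.Cst
import Pool.Agent.Lib_helper19.NPred

/-! # ITEMS: the list of items of a description is computable in polynomial time -/

namespace Pool.Agent.RO.ITEMS

open Pool.Agent.H19
open Pool.Agent.H19.T

/-- Coded concatenation. -/
theorem encL_append (l m : List T) : encL (l ++ m) = app (encL l) (encL m) := by
  induction l with
  | nil => rfl
  | cons a l ih => simp [ih]

/-- The items for the axioms of one derivation. -/
noncomputable def hI (E : T) : T :=
  encL ((hyps (decProof E)).map fun φ => T.node (T.node T.leaf T.leaf) φ.enc)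

theorem hI_leaf : hI T.leaf = T.leaf := by
  simp [hI, decProof, T.toL, hyps]

theorem hI_node (a b : T) : hI (T.node a b) =
    tif a.left (T.node (T.node (T.node T.leaf T.leaf) (decFm a.right).enc) (hI b)) (hI b) := by
  have h0 : decProof (T.node a b) = decStep a :: decProof b := rfl
  by_cases h : a.left = T.leaf
  · have h1 : decStep a = Step.hyp (decFm a.right) := by
      simp [decStep, T.unary, h]
    simp only [hI, h0, h1, hyps, List.map_cons, encL_cons, tif, h, if_true]
  · have h1 : hyps (decStep a :: decProof b) = hyps (decProof b) := by
      have : ¬ a.left = T.unary 0 := h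
      simp only [decStep, this, if_false]
      split_ifs <;> rfl
    simp only [hI, h0, h1, tif, h, if_false]

theorem hI_size (E : T) : (hI E).size ≤ 35 * E.size := by
  induction E with
  | leaf => rw [hI_leaf]; simp [T.size]
  | node a b _ ih =>
    rw [hI_node, tif]
    have h1 := normFm_size a.right
    have h2 := T.size_right_le a
    split_ifs <;> simp only [T.size] at * <;> omega

theorem hI_polyTime : PolyTime hI := by
  have i := PolyTime.id
  refine PolyTime₂.binRec₁ (F := hI) (c := T.leaf)
    (comb := fun w => H19.tif w.left.left.left (T.node (T.node (T.node T.leaf T.leaf)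
      (decFm w.left.left.right).enc) w.right.right) w.right.right)
    (i.left.left.left.tif (((PolyTime.const _).node
      (normFm_polyTime.comp i.left.left.right)).node i.right.right) i.right.right)
    hI_leaf (fun a b => ?_) (G := fun n => 35 * n) ((PolyB.const 35).mul PolyB.id)
    (fun a b h => by dsimp only; omega) hI_size
  rw [hI_node]; rfl

/-- The items for the axioms of all derivations in the list. -/
noncomputable def cI (C : T) : T :=
  encL (C.toL.flatMap fun E => (hyps (decProof E)).map fun φ =>
    T.node (T.node T.leaf T.leaf) φ.enc)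

theorem cI_leaf : cI T.leaf = T.leaf := rfl

theorem cI_node (a b : T) : cI (T.node a b) = app (hI a) (cI b) := by
  simp only [cI, T.toL, List.flatMap_cons, encL_append, hI]

theorem cI_size (C : T) : (cI C).size ≤ 35 * C.size := by
  induction C with
  | leaf => rw [cI_leaf]; simp [T.size]
  | node a b _ ih =>
    rw [cI_node]
    have h1 := hI_size a
    have h2 := app_size (hI a) (cI b)
    simp only [T.size] at *; omega

theorem cI_polyTime : PolyTime cI := by
  have i := PolyTime.id
  refine PolyTime₂.binRec₁ (F := cI) (c := T.leaf)
    (comb := fun w => H19.app (hI w.left.left) w.right.right)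
    ((hI_polyTime.comp i.left.left).app i.right.right)
    cI_leaf (fun a b => ?_) (G := fun n => 35 * n) ((PolyB.const 35).mul PolyB.id)
    (fun a b h => by dsimp only; omega) cI_size
  rw [cI_node]; rfl

/-- Tabulation: the list of the values at `0, …, f x - 1`. -/
theorem PolyTime.tab {g : T → T → T} (hg : PolyTime₂ g) {f : T → ℕ} (hf : PolyNat f) :
    PolyTime (fun x => encL ((List.range (f x)).map fun i => g (T.unary i) x)) := by
  have i := PolyTime.id
  let st : T → T := fun s => T.node (T.node (g s.right.left.right s.right.right) s.left)
    (T.node s.right.left.right s.right.right)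
  have hst : PolyTime st :=
    ((hg.comp i.right.left.right i.right.right).node i.left).node
      (i.right.left.right.node i.right.right)
  have hit : ∀ (n : ℕ) (x : T) (j : ℕ), j ≤ n →
      st^[j] (T.node T.leaf (T.node (T.unary n) x)) =
        T.node (encL ((List.range' (n - j) j).map fun i => g (T.unary i) x))
          (T.node (T.unary (n - j)) x) := by
    intro n x j
    induction j with
    | zero => intro _; simp
    | succ j ih =>
      intro hj
      rw [Function.iterate_succ_apply', ih (by omega)]
      obtain ⟨m, hm⟩ : ∃ m, n - j = m + 1 := ⟨n - j - 1, by omega⟩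
      have hm' : n - (j + 1) = m := by omega
      rw [hm, hm', List.range'_succ, List.map_cons, encL_cons]
      simp only [st, T.left_node, T.right_node, T.unary]
  obtain ⟨k, hk⟩ := PolyTime.size_bound (f := fun z => g z.left z.right) hg
  obtain ⟨a, ha⟩ := PolyTime.size_bound hf
  simp only [T.size_unary] at ha
  -- bound for the values
  have hval : ∀ (x : T) (i : ℕ), i < f x →
      (g (T.unary i) x).size ≤ ((x.size + 2) ^ a + x.size + 4) ^ k := by
    intro x i hi
    refine (hk (T.node (T.unary i) x)).trans (Nat.pow_le_pow_left ?_ _)
    have := ha x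
    simp only [T.size, T.size_unary]; omega
  have hbound : PolyB (fun n => (n + 2) ^ a * (((n + 2) ^ a + n + 4) ^ k + 1) + (n + 2) ^ a +
      n + 5) := by
    have h1 : PolyB (fun n => (n + 2) ^ a) := ⟨a, fun n => le_rfl⟩
    have h2 : PolyB (fun n => ((n + 2) ^ a + n + 4) ^ k) :=
      ((h1.add PolyB.id).add (PolyB.const 4)).pow k
    exact (((h1.mul (h2.add (PolyB.const 1))).add h1).add PolyB.id).add (PolyB.const 5)
  have key := PolyTime.iterate (f := st) (n := fun x => T.unary (f x))
    (s := fun x => T.node T.leaf (T.node (T.unary (f x)) x)) hst hf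
    (PolyTime.leaf.node (PolyTime.node hf i)) (by
      obtain ⟨m, hm⟩ := hbound
      refine ⟨m, fun x j hj => le_trans ?_ (hm x.size)⟩
      rw [T.len_unary] at hj
      rw [hit _ _ _ hj]
      have h1 : ∀ b ∈ (List.range' (f x - j) j).map (fun i => g (T.unary i) x),
          b.size ≤ ((x.size + 2) ^ a + x.size + 4) ^ k := by
        intro b hb
        obtain ⟨i, hi, rfl⟩ := List.mem_map.1 hb
        rw [List.mem_range'_1] at hi
        exact hval x i (by omega)
      have h2 := encL_size_le h1
      rw [List.length_map, List.length_range'] at h2
      have h3 := ha x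
      have h4 : j * (((x.size + 2) ^ a + x.size + 4) ^ k + 1) ≤
          (x.size + 2) ^ a * (((x.size + 2) ^ a + x.size + 4) ^ k + 1) :=
        Nat.mul_le_mul_right _ (by omega)
      simp only [T.size, T.size_unary]
      omega)
  refine key.left.congr fun x => ?_
  rw [T.len_unary, hit _ _ _ le_rfl, T.left_node, Nat.sub_self, List.range_eq_range']

/-- One step of the logarithm on unary numbers. -/
theorem lg_step : PolyTime (fun s => T.unary (lgN s.len)) := by
  have h := (PolyN.size ((PolyNat.len PolyTime.id).toN) : PolyNat fun x => (x.len).size)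
  refine (PolyTime.right (f := fun x => T.unary (x.len).size) h).congr fun x => ?_
  unfold lgN
  cases (x.len).size <;> rfl

theorem lgN_le (n : ℕ) : lgN n ≤ n := by
  unfold lgN
  have : n.size ≤ n := by
    rw [Nat.size_le]; exact Nat.lt_two_pow_self
  omega

theorem iter_lgN_le (j n : ℕ) : lgN^[j] n ≤ n := by
  induction j with
  | zero => simp
  | succ j ih => rw [Function.iterate_succ_apply']; exact (lgN_le _).trans ih

theorem iterLg_polyNat {c m : T → T} (hc : PolyTime c) (hm : PolyTime m) :
    PolyNat (fun x => lgN^[(c x).len] (m x).len) := by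
  have hit : ∀ (j n : ℕ), (fun s : T => T.unary (lgN s.len))^[j] (T.unary n) =
      T.unary (lgN^[j] n) := by
    intro j n
    induction j with
    | zero => rfl
    | succ j ih =>
      rw [Function.iterate_succ_apply', ih, Function.iterate_succ_apply', T.len_unary]
  have key := PolyTime.iterate (n := c) (s := fun x => T.unary (m x).len) lg_step hc
    (PolyNat.len hm) (by
      obtain ⟨k, hk⟩ := (PolyTime.size_bound (PolyNat.len hm).unary)
      refine ⟨k, fun x j _ => le_trans ?_ (hk x)⟩
      rw [hit, T.size_unary, T.size_unary]
      have := iter_lgN_le j (m x).len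
      omega)
  exact key.congr fun x => hit _ _

theorem first_polyTime₂ : PolyTime₂ (fun j v => T.node T.leaf
    (bl (2 * pos v.left.len (bn v.right.left) j.len + 1))) := by
  have i := PolyTime.id
  have hM : PolyNat (fun z : T => z.right.left.len) := PolyNat.len i.right.left
  have hx : PolyN (fun z : T => bn z.right.right.left) :=
    PolyN.comp (f := fun x => bn x) canon_polyTime i.right.right.left
  have hj : PolyN (fun z : T => z.left.len) := (PolyNat.len i.left).toN
  have h1 : PolyN (fun z : T => 2 ^ (2 * z.right.left.len)) :=
    PolyN.pow2 ((PolyNat.const 2).mul hM)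
  have h2 : PolyN (fun z : T => bn z.right.right.left * 2 ^ z.right.left.len) :=
    hx.mul (PolyN.pow2 hM)
  have h3 : PolyN (fun z : T => pos z.right.left.len (bn z.right.right.left) z.left.len) :=
    (h1.add h2).add hj
  exact PolyTime.leaf.node ((((PolyN.const 2).mul h3).add (PolyN.const 1)))

end Pool.Agent.RO.ITEMS

namespace Pool.Agent.RO

open Pool.Agent.H19 ITEMS in
/-- ITEMS. -/
theorem ITEMS_thm : Stmt_ITEMS := by
  have i := PolyTime.id
  have hn : PolyNat (fun v : T => v.left.len + lgN^[v.right.right.len] v.left.len) :=
    (PolyNat.len i.left).add (iterLg_polyNat i.right.right i.left)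
  have h1 := PolyTime.tab first_polyTime₂ hn
  have h2 := cI_polyTime.comp i.right.right
  refine (h1.app h2).congr fun v => ?_
  simp only [Par.items, encL_append, cI, T.len_unary]

end Pool.Agent.RO
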