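import Pool.Agent.RO.Cst

/-!
# The main theorem from the theorem for presented theories
-/

open MeasureTheory

namespace Pool.Agent.RO

open Pool.Agent.H19 (T)

namespace MAIN

theorem eval_size {O : Om} {c : OCode} {x y : T} {t : ℕ} (h : EvalO O c x y t) : y.size ≤ t := by
  induction h with
  | id x => exact le_rfl
  | leaf x => simp [T.size]
  | fst x => exact T.size_left_le x
  | snd x => exact T.size_right_le x
  | query x =>
    cases O (H19.bn x)
    · simp only [H19.ofBool, T.size]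
      omega
    · simp only [H19.ofBool, T.size]
      omega
  | pair _ _ h1 h2 => simp only [T.size]; omega
  | comp _ _ _ h2 => omega
  | ite_leaf _ _ _ h2 => omega
  | ite_node _ _ _ h2 => omega
  | @loop_stop f x hx => have := T.size_right_le x; omega
  | loop_step _ _ _ _ h2 => omega

theorem exists_code (hD : Stmt_DET) {O : Om} {S : Set Fm} (hS : InClassT O S) :
    ∃ (c : OCode) (k : ℕ), HaltsWithin O c k ∧ theory O c k = S := by
  obtain ⟨_, f, ⟨c, k, hc⟩, hf⟩ := hS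
  refine ⟨c, k, fun x => ?_, ?_⟩
  · obtain ⟨t, h1, h2⟩ := hc x
    exact ⟨f x, t, h1, h2⟩
  · ext φ
    rw [hf φ]
    have h1 : Accepts O c k φ.enc ↔ f φ.enc ≠ T.leaf := by
      constructor
      · rintro ⟨y, t, h2, _, h3⟩
        obtain ⟨t', h4, _⟩ := hc φ.enc
        rw [← (hD O c _ _ _ _ _ h2 h4).1]
        exact h3
      · intro h2
        obtain ⟨t', h4, h5⟩ := hc φ.enc
        exact ⟨_, t', h4, h5, h2⟩
    show φ ∈ S12 ∨ φ ∈ diag O ∨ Accepts O c k φ.enc ↔ _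
    rw [h1]

theorem growth (e k : ℕ) (he : 0 < e) : ∃ N : ℕ, ∀ n ≥ N, (2 * n + 3) ^ k ≤ 2 ^ (n / e) := by
  have h1 := tendsto_pow_const_div_const_pow_of_one_lt k (r := (2 : ℝ)) one_lt_two
  have hpos : (0 : ℝ) < 1 / (2 * (2 * e + 3) ^ k) := by positivity
  have h2 := (h1.eventually (gt_mem_nhds hpos))
  obtain ⟨Q, hQ⟩ := Filter.eventually_atTop.1 h2
  refine ⟨e * Q, fun n hn => ?_⟩
  have h3 : Q ≤ n / e + 1 := by
    have : Q ≤ n / e := (Nat.le_div_iff_mul_le he).2 (by rw [mul_comm]; exact hn)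
    omega
  have h4 := hQ (n / e + 1) h3
  set q := n / e with hq
  have h5 : 2 * n + 3 ≤ (2 * e + 3) * (q + 1) := by
    have h6 : n < e * (q + 1) := by
      rw [mul_comm]
      exact (Nat.div_lt_iff_lt_mul he).1 (by rw [← hq]; omega)
    nlinarith
  have h7 : (2 * n + 3) ^ k ≤ ((2 * e + 3) * (q + 1)) ^ k := Nat.pow_le_pow_left h5 k
  refine h7.trans ?_
  rw [mul_pow]
  have h8 : (0 : ℝ) < 2 ^ (q + 1) := by positivity
  rw [div_lt_div_iff₀ h8 (by positivity)] at h4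
  have h9 : ((2 * (e : ℝ) + 3) ^ k * ((q : ℝ) + 1) ^ k) * 2 < 2 ^ q * 2 := by
    push_cast at h4
    rw [pow_succ] at h4
    nlinarith [h4]
  have h10 : ((2 * (e : ℝ) + 3) ^ k * ((q : ℝ) + 1) ^ k) < 2 ^ q := by linarith
  have h11 : (((2 * e + 3) ^ k * (q + 1) ^ k : ℕ) : ℝ) < ((2 ^ q : ℕ) : ℝ) := by
    push_cast
    exact h10
  exact (Nat.cast_lt.1 h11).le

end MAIN

open MAIN in
theorem MAIN_thm (hC : Pool.Agent.RO.Stmt_CNT) (hD : Pool.Agent.RO.Stmt_DET)
    (hP : Pool.Agent.RO.Stmt_PRES) : Pool.Agent.RO.Stmt_MAIN := by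
  intro μ hμ P hPf A
  have : Countable OCode := hC
  have h1 : ∀ᵐ R ∂coin, ∀ (cS : OCode) (kS : ℕ) (c0 : OCode) (k0 : ℕ),
      HaltsWithin (join A R) cS kS → HaltsWithin (join A R) c0 k0 →
      Consistent (theory (join A R) cS kS) → Consistent (theory (join A R) c0 k0) →
      ∃ (c : OCode) (κ : ℕ), HaltsWithin (join A R) c κ ∧
        theory (join A R) c κ = theory (join A R) c0 k0 ∧
        ∃ e : ℕ, 0 < e ∧ ∀ N : ℕ, ∃ n ≥ N, ∀ π : List Step,
          IsProof (theory (join A R) cS kS) π (rfn (P c κ) μ n) →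
            2 ^ (n / e) < (encProof π).size := by
    rw [ae_all_iff]; intro cS
    rw [ae_all_iff]; intro kS
    rw [ae_all_iff]; intro c0
    rw [ae_all_iff]; intro k0
    exact hP μ hμ P hPf A cS kS c0 k0
  filter_upwards [h1] with R hR
  have h2 : ∀ S T₀ : Set Fm, InClassT (join A R) S → InClassT (join A R) T₀ →
      ∃ (c : OCode) (κ : ℕ), HaltsWithin (join A R) c κ ∧ theory (join A R) c κ = T₀ ∧
        ∃ e : ℕ, 0 < e ∧ ∀ N : ℕ, ∃ n ≥ N, ∀ π : List Step,
          IsProof S π (rfn (P c κ) μ n) → 2 ^ (n / e) < (encProof π).size := by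
    intro S T₀ hS hT
    obtain ⟨cS, kS, h3, h4⟩ := exists_code hD hS
    obtain ⟨c0, k0, h5, h6⟩ := exists_code hD hT
    have h7 := hR cS kS c0 k0 h3 h5 (by rw [h4]; exact hS.1) (by rw [h6]; exact hT.1)
    rw [h4, h6] at h7
    exact h7
  refine ⟨h2, ?_⟩
  intro S hS
  obtain ⟨c, κ, h3, h4, e, he, h5⟩ := h2 S S hS hS
  refine ⟨c, κ, h3, by rw [h4]; exact hS, ?_⟩
  rintro ⟨f, ⟨c', k, hc'⟩, hf⟩
  obtain ⟨N, hN⟩ := growth e k he
  obtain ⟨n, hn, h6⟩ := h5 N
  obtain ⟨π, h7, h8⟩ := hf n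
  have h9 := h6 π h8
  obtain ⟨t, h10, h11⟩ := hc' (T.unary n)
  have h12 := eval_size h10
  rw [h7] at h12
  have h13 : (T.unary n).size + 2 ≤ 2 * n + 3 := by
    have : (T.unary n).size = 2 * n + 1 := T.size_unary n
    omega
  have h14 := Nat.pow_le_pow_left h13 k
  have h15 := hN n hn
  omega

end Pool.Agent.RO
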