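import Pool.Agent.RO.PDefs

/-! Module MEAS: measurability and independence of later windows. -/

open MeasureTheory

namespace Pool.Agent.RO.MEAS

lemma isOpen_agree (Q : Finset ℕ) (R : Om) : IsOpen {R' : Om | ∀ n ∈ Q, R' n = R n} := by
  have h : {R' : Om | ∀ n ∈ Q, R' n = R n} = ⋂ n ∈ Q, {R' : Om | R' n = R n} := by
    ext R'
    simp
  rw [h]
  apply isOpen_biInter_finset
  intro n _
  have hc : Continuous (fun R' : Om => R' n) := continuous_apply n
  exact (isOpen_discrete {R n}).preimage hc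

lemma isOpen_A {m : ℕ → ℕ} {β : ℕ → ℕ → ℕ → ℕ} {A : ℕ → Set Om} (h : Loc m β A) (d : ℕ) :
    IsOpen (A d) := by
  rw [isOpen_iff_forall_mem_open]
  intro R hR
  obtain ⟨Q, -, -, hQ⟩ := h d R hR
  exact ⟨{R' : Om | ∀ n ∈ Q, R' n = R n}, fun R' hR' => hQ R' hR', isOpen_agree Q R,
    fun n _ => rfl⟩

lemma indep_const (B : Set ℕ) (p : Prop) : IndepOf B {_R : Om | p} := fun _ _ _ => Iff.rfl

lemma IndepOf.inter {B : Set ℕ} {E F : Set Om} (hE : IndepOf B E) (hF : IndepOf B F) :
    IndepOf B (E ∩ F) := fun R R' h => and_congr (hE R R' h) (hF R R' h)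

lemma IndepOf.union {B : Set ℕ} {E F : Set Om} (hE : IndepOf B E) (hF : IndepOf B F) :
    IndepOf B (E ∪ F) := fun R R' h => or_congr (hE R R' h) (hF R R' h)

lemma IndepOf.compl {B : Set ℕ} {E : Set Om} (hE : IndepOf B E) :
    IndepOf B Eᶜ := fun R R' h => not_congr (hE R R' h)

lemma indep_A {m : ℕ → ℕ} {β : ℕ → ℕ → ℕ → ℕ} {A : ℕ → Set Om} (h : Loc m β A) {d d' : ℕ}
    (hd : d < d') : IndepOf (Win m β d') (A d) := by
  have key : ∀ R R' : Om, (∀ n, n ∉ Win m β d' → R n = R' n) → R ∈ A d → R' ∈ A d := by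
    intro R R' hRR hR
    obtain ⟨Q, -, hQw, hQ⟩ := h d R hR
    exact hQ R' fun n hn => (hRR n (hQw n hn d' hd)).symm
  intro R R' hRR
  exact ⟨key R R' hRR, key R' R fun n hn => (hRR n hn).symm⟩

lemma st_succ_set (A : ℕ → Set Om) (a d : ℕ) :
    {R : Om | st A R (d + 1) = a} =
      (A d ∩ {R | st A R d = a}) ∪ ((A d)ᶜ ∩ {_R : Om | d + 1 = a}) := by
  classical
  ext R
  by_cases h : R ∈ A d
  · simp [st, h]
  · simp [st, h]

lemma st_zero_set (A : ℕ → Set Om) (a : ℕ) :
    {R : Om | st A R 0 = a} = {_R : Om | (0 : ℕ) = a} := by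
  ext R
  simp [st]

lemma st_le (A : ℕ → Set Om) (R : Om) : ∀ d, st A R d ≤ d
  | 0 => le_rfl
  | d + 1 => by
    classical
    by_cases h : R ∈ A d
    · simp only [st, h, if_true]
      exact (st_le A R d).trans (Nat.le_succ d)
    · simp only [st, h, if_false]
      exact le_rfl

lemma Fa_eq (m : ℕ → ℕ) (β : ℕ → ℕ → ℕ → ℕ) (a d : ℕ) :
    Fa m β a d = ⋃ x ∈ Finset.range (2 ^ m d), ⋂ i ∈ Finset.range (m d + m a),
      {R : Om | R (β d x i) = true} := by
  ext R
  simp [Fa]

lemma meas_bit (n : ℕ) : MeasurableSet {R : Om | R n = true} := by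
  have h : Measurable (fun R : Om => R n) := measurable_pi_apply n
  exact h (measurableSet_singleton true)

lemma meas_Fa (m : ℕ → ℕ) (β : ℕ → ℕ → ℕ → ℕ) (a d : ℕ) : MeasurableSet (Fa m β a d) := by
  rw [Fa_eq]
  exact Finset.measurableSet_biUnion _ fun x _ => Finset.measurableSet_biInter _ fun i _ =>
    meas_bit _

lemma indep_Fa {m : ℕ → ℕ} {β : ℕ → ℕ → ℕ → ℕ} (hW : Windows m β) {a d d' : ℕ} (ha : a ≤ d)
    (hd : d < d') : IndepOf (Win m β d') (Fa m β a d) := by
  have hma : m a ≤ m d := hW.mono.monotone ha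
  have key : ∀ R R' : Om, (∀ n, n ∉ Win m β d' → R n = R' n) → R ∈ Fa m β a d →
      R' ∈ Fa m β a d := by
    rintro R R' hRR ⟨x, hx, hi⟩
    refine ⟨x, hx, fun i hi' => ?_⟩
    rw [← hRR]
    · exact hi i hi'
    · rintro ⟨x', hx', i', hi'', he⟩
      have := (hW.inj d x i d' x' i' hx (by omega) hx' hi'' he).1
      omega
  intro R R' hRR
  exact ⟨key R R' hRR, key R' R fun n hn => (hRR n hn).symm⟩

lemma FF_eq (m : ℕ → ℕ) (β : ℕ → ℕ → ℕ → ℕ) (A : ℕ → Set Om) (d : ℕ) :
    FF m β A d = ⋃ a ∈ Finset.range (d + 1), ({R | st A R d = a} ∩ Fa m β a d) := by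
  ext R
  simp only [FF, Set.mem_ofPred_eq, Finset.mem_range, Set.mem_iUnion, Set.mem_inter_iff,
    exists_prop]
  constructor
  · intro h
    exact ⟨st A R d, Nat.lt_succ_of_le (st_le A R d), rfl, h⟩
  · rintro ⟨a, -, rfl, h⟩
    exact h

lemma NoErr_eq (m : ℕ → ℕ) (β : ℕ → ℕ → ℕ → ℕ) (A : ℕ → Set Om) (d : ℕ) :
    NoErr m β A d = ⋂ d' ∈ Finset.range d, (A d' ∩ FF m β A d')ᶜ := by
  ext R
  simp [NoErr]

lemma Err_eq (m : ℕ → ℕ) (β : ℕ → ℕ → ℕ → ℕ) (A : ℕ → Set Om) :
    Err m β A = ⋃ d, (A d ∩ FF m β A d) := by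
  ext R
  simp [Err]

end Pool.Agent.RO.MEAS

namespace Pool.Agent.RO

open MEAS

theorem MEAS_thm : Stmt_MEAS := by
  intro m β A hW hL
  have hA : ∀ d, MeasurableSet (A d) := fun d => (isOpen_A hL d).measurableSet
  have hAi : ∀ d d', d < d' → IndepOf (Win m β d') (A d) := fun d d' hd => indep_A hL hd
  have hst : ∀ d a, MeasurableSet {R | st A R d = a} := by
    intro d
    induction d with
    | zero =>
      intro a
      rw [st_zero_set]
      exact MeasurableSet.const _
    | succ d ih =>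
      intro a
      rw [st_succ_set]
      exact ((hA d).inter (ih a)).union ((hA d).compl.inter (MeasurableSet.const _))
  have hsti : ∀ d a d', d ≤ d' → IndepOf (Win m β d') {R | st A R d = a} := by
    intro d
    induction d with
    | zero =>
      intro a d' _
      rw [st_zero_set]
      exact indep_const _ _
    | succ d ih =>
      intro a d' hd
      rw [st_succ_set]
      exact IndepOf.union (IndepOf.inter (hAi d d' (by omega)) (ih a d' (by omega)))
        (IndepOf.inter (IndepOf.compl (hAi d d' (by omega))) (indep_const _ _))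
  have hFF : ∀ d, MeasurableSet (FF m β A d) := by
    intro d
    rw [FF_eq]
    exact Finset.measurableSet_biUnion _ fun a _ => (hst d a).inter (meas_Fa m β a d)
  have hFFi : ∀ d d', d < d' → IndepOf (Win m β d') (FF m β A d) := by
    intro d d' hd R R' hRR
    rw [FF_eq]
    simp only [Set.mem_iUnion, exists_prop, Finset.mem_range]
    refine exists_congr fun a => and_congr_right fun ha => ?_
    exact (IndepOf.inter (hsti d a d' hd.le) (indep_Fa hW (by omega) hd)) R R' hRR
  refine ⟨hA, hAi, fun a d => hst d a, fun a d d' h => hsti d a d' h, fun a d => meas_Fa m β a d,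
    fun a d d' ha hd => indep_Fa hW ha hd, hFF, hFFi, ?_, ?_, ?_, ?_⟩
  · intro d
    rw [NoErr_eq]
    exact Finset.measurableSet_biInter _ fun d' _ => ((hA d').inter (hFF d')).compl
  · intro d d' hd R R' hRR
    rw [NoErr_eq]
    simp only [Set.mem_iInter, Finset.mem_range]
    refine forall_congr' fun e => forall_congr' fun he => ?_
    exact (IndepOf.compl (IndepOf.inter (hAi e d' (by omega)) (hFFi e d' (by omega)))) R R' hRR
  · rw [Err_eq]
    exact MeasurableSet.iUnion fun d => (hA d).inter (hFF d)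
  · intro R d
    exact st_le A R d

end Pool.Agent.RO
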