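import Pool.Agent.RO.Cst

/-!
# Membership in the diagram by one query

The number `n` is recovered from the codes of `rel n̄` and `¬ rel n̄` in polynomial time.
-/

namespace Pool.Agent.RO.DIAGDEC

open Pool.Agent.H19
open Pool.Agent.H19 (T PolyTime PolyTime₂ PolyDec PolyNat PolyB PolyN Tm bn bl tif)

/-- The value of the code of a binary numeral. -/
def V : T → ℕ
  | T.leaf => 0
  | T.node _ T.leaf => 0
  | T.node t (T.node a b) =>
    if t = T.unary 2 then V a + 1 else if t = T.unary 6 then 2 * V b else 0

theorem V_node (t a b : T) : V (T.node t (T.node a b)) =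
    if t = T.unary 2 then V a + 1 else if t = T.unary 6 then 2 * V b else 0 := rfl

theorem V_size : ∀ x : T, (V x).size ≤ x.size
  | T.leaf => by simp [V]
  | T.node _ T.leaf => by simp [V]
  | T.node t (T.node a b) => by
    have h1 := V_size a
    have h2 := V_size b
    have h3 := size_add_le (V a) 1
    have h4 := size_mul_le 2 (V b)
    have h5 : (1 : ℕ).size = 1 := by decide
    have h6 : (2 : ℕ).size = 2 := by decide
    have h7 := T.size_pos t
    have h8 := T.size_pos a
    have h9 := T.size_pos b
    rw [V_node]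
    split_ifs
    · simp only [T.size]; omega
    · simp only [T.size]; omega
    · simp

theorem V_numeral (n : ℕ) : V (Tm.numeral n).enc = n := by
  induction n using Nat.strong_induction_on with
  | _ n ih =>
    by_cases h : n = 0
    · subst h
      rw [Tm.numeral_zero]
      rfl
    · have h1 := ih (n / 2) (by omega)
      rw [Tm.numeral_pos h]
      have h2 : V (Tm.mul Tm.two (Tm.numeral (n / 2))).enc = 2 * (n / 2) := by
        show V (T.node (T.unary 6) (T.node Tm.two.enc (Tm.numeral (n / 2)).enc)) = _
        rw [V_node, if_neg (by decide), if_pos rfl, h1]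
      split_ifs with h3
      · rw [h2]; omega
      · show V (T.node (T.unary 2) (T.node (Tm.mul Tm.two (Tm.numeral (n / 2))).enc T.leaf)) = _
        rw [V_node, if_pos rfl, h2]; omega

theorem V_polyN : PolyN V := by
  have i := PolyTime.id
  have hp : PolyDec (fun w : T => w.left.left = T.unary 2) :=
    PolyDec.eq i.left.left (PolyTime.const _)
  have hq : PolyDec (fun w : T => w.left.left = T.unary 6) :=
    PolyDec.eq i.left.left (PolyTime.const _)
  have h1 : PolyN (fun w : T => bn w.right.left + 1) := (canon_polyTime.comp i.right.left).succ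
  have h2 : PolyN (fun w : T => 2 * bn w.right.right) :=
    (PolyN.const 2).mul (canon_polyTime.comp i.right.right)
  have hc : PolyTime (fun w : T => if w.left.left = T.unary 2 then bl (bn w.right.left + 1) else
      if w.left.left = T.unary 6 then bl (2 * bn w.right.right) else T.leaf) := by
    refine (PolyTime.ifP hp h1 (PolyTime.ifP hq h2 PolyTime.leaf)).congr fun x => ?_
    split_ifs <;> rfl
  refine PolyTime.synRec₁ (F := fun x => bl (V x)) (d := T.leaf) hc ?_ ?_ ?_
    (G := fun n => 4 * n + 1) (((PolyB.const 4).mul PolyB.id).add (PolyB.const 1))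
    (fun a b h => by dsimp only; omega) ?_
  · show bl (V T.leaf) = T.leaf
    simp [V]
  · intro t
    show bl (V (T.node t T.leaf)) = T.leaf
    simp [V]
  · intro t a b
    show bl (V (T.node t (T.node a b))) = if t = T.unary 2 then bl (bn (bl (V a)) + 1) else
      if t = T.unary 6 then bl (2 * bn (bl (V b))) else T.leaf
    rw [V_node, bn_bl, bn_bl]
    split_ifs
    · rfl
    · rfl
    · simp
  · intro x
    have h3 := bl_size (V x)
    have h4 := V_size x
    show (bl (V x)).size ≤ 4 * x.size + 1
    omega

/-- The queried number. -/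
def g (x : T) : ℕ := if x.left = T.unary 13 then V x.right.left else V x.right.left.right.left

theorem g_polyN : PolyN g := by
  have i := PolyTime.id
  have hp : PolyDec (fun x : T => x.left = T.unary 13) :=
    PolyDec.eq i.left (PolyTime.const _)
  have h1 : PolyN (fun x : T => V x.right.left) := V_polyN.comp i.right.left
  have h2 : PolyN (fun x : T => V x.right.left.right.left) :=
    V_polyN.comp i.right.left.right.left
  refine (PolyTime.ifP hp h1 h2).congr fun x => ?_
  unfold g
  split_ifs <;> rfl

theorem g_rel (n : ℕ) : g (Fm.rel (Tm.numeral n)).enc = n := by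
  show (if T.unary 13 = T.unary 13 then V (Tm.numeral n).enc else _) = n
  rw [if_pos rfl, V_numeral]

theorem g_neg (n : ℕ) : g (Fm.neg (Fm.rel (Tm.numeral n))).enc = n := by
  show (if T.unary 11 = T.unary 13 then _ else V (Tm.numeral n).enc) = n
  rw [if_neg (by decide), V_numeral]

end Pool.Agent.RO.DIAGDEC

namespace Pool.Agent.RO

open DIAGDEC in
/-- DIAGDEC. -/
theorem DIAGDEC_thm : Stmt_DIAGDEC := by
  refine ⟨g, g_polyN, fun O φ => ⟨?_, ?_⟩⟩
  · rintro ⟨n, ⟨h1, rfl⟩ | ⟨h1, rfl⟩⟩
    · left
      rw [g_rel]
      exact ⟨rfl, h1⟩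
    · right
      rw [g_neg]
      exact ⟨rfl, h1⟩
  · rintro (⟨h1, h2⟩ | ⟨h1, h2⟩)
    · exact ⟨_, Or.inl ⟨h2, h1⟩⟩
    · exact ⟨_, Or.inr ⟨h2, h1⟩⟩

end Pool.Agent.RO
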