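import Pool.Agent.RO.Defs
import Pool.Agent.Lib_helper19.Reflection

/-! # Soundness of the calculus, the standard model, absoluteness (with an oracle symbol) -/

namespace Pool.Agent.RO

open Pool.Agent.H19

theorem Fm.sat_shift {M : Type} (A : Str M) (d : ℕ) (φ : Fm) : ∀ (c : ℕ) (v : ℕ → M),
    (φ.shift c d).sat A v ↔ φ.sat A (fun i => if i < c then v i else v (i + d)) := by
  induction φ with
  | bot => intro c v; rfl
  | eq s t => intro c v; simp only [Fm.shift, Fm.sat, Tm.val_shift]
  | le s t => intro c v; simp only [Fm.shift, Fm.sat, Tm.val_shift]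
  | rel t => intro c v; simp only [Fm.shift, Fm.sat, Tm.val_shift]
  | imp φ ψ ih1 ih2 => intro c v; simp only [Fm.shift, Fm.sat, ih1, ih2]
  | all φ ih =>
    intro c v
    simp only [Fm.shift, Fm.sat, ih]
    refine forall_congr' fun a => ?_
    have : (fun i => if i < c + 1 then scons a v i else scons a v (i + d)) =
        scons a (fun i => if i < c then v i else v (i + d)) := by
      funext i
      cases i with
      | zero => simp [scons]
      | succ i =>
        simp only [scons, Nat.add_lt_add_iff_right, show i + 1 + d = i + d + 1 by omega]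
    rw [this]

theorem Fm.sat_inst_aux {M : Type} (A : Str M) (t : Tm) (φ : Fm) : ∀ (k : ℕ) (v : ℕ → M),
    (φ.inst k t).sat A v ↔ φ.sat A (fun i => if i < k then v i else
      if i = k then t.val A.toStr (fun j => v (j + k)) else v (i - 1)) := by
  induction φ with
  | bot => intro k v; rfl
  | eq s t => intro k v; simp only [Fm.inst, Fm.sat, Tm.val_inst]
  | le s t => intro k v; simp only [Fm.inst, Fm.sat, Tm.val_inst]
  | rel t => intro k v; simp only [Fm.inst, Fm.sat, Tm.val_inst]
  | imp φ ψ ih1 ih2 => intro k v; simp only [Fm.inst, Fm.sat, ih1, ih2]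
  | all φ ih =>
    intro k v
    simp only [Fm.inst, Fm.sat, ih]
    refine forall_congr' fun a => ?_
    have : (fun i => if i < k + 1 then scons a v i else
        if i = k + 1 then t.val A.toStr (fun j => scons a v (j + (k + 1)))
          else scons a v (i - 1)) =
        scons a (fun i => if i < k then v i else
          if i = k then t.val A.toStr (fun j => v (j + k)) else v (i - 1)) := by
      funext i
      cases i with
      | zero => simp [scons]
      | succ i =>
        by_cases h1 : i < k
        · simp [scons, h1]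
        · by_cases h2 : i = k
          · subst h2
            simp only [lt_irrefl, if_false, if_true, scons]
            rfl
          · obtain ⟨j, rfl⟩ : ∃ j, i = j + 1 := ⟨i - 1, by omega⟩
            simp [scons, h1, h2]
    rw [this]

theorem Fm.sat_inst {M : Type} (A : Str M) (t : Tm) (φ : Fm) (v : ℕ → M) :
    (φ.inst 0 t).sat A v ↔ φ.sat A (scons (t.val A.toStr v) v) := by
  rw [Fm.sat_inst_aux]
  have : (fun i => if i < 0 then v i else
      if i = 0 then t.val A.toStr (fun j => v (j + 0)) else v (i - 1)) =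
      scons (t.val A.toStr v) v := by
    funext i
    cases i with
    | zero => simp [scons]
    | succ i => simp [scons]
  rw [this]

theorem Fm.sat_shift_one {M : Type} (A : Str M) (φ : Fm) (a : M) (v : ℕ → M) :
    (φ.shift 0 1).sat A (scons a v) ↔ φ.sat A v := by
  rw [Fm.sat_shift]
  have : (fun i => if i < 0 then scons a v i else scons a v (i + 1)) = v := by
    funext i; simp [scons]
  rw [this]

@[simp] theorem Fm.sat_neg {M : Type} (A : Str M) (φ : Fm) (v : ℕ → M) :
    (Fm.neg φ).sat A v ↔ ¬ φ.sat A v := Iff.rfl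

@[simp] theorem Fm.sat_and {M : Type} (A : Str M) (φ ψ : Fm) (v : ℕ → M) :
    (Fm.and φ ψ).sat A v ↔ φ.sat A v ∧ ψ.sat A v := by
  simp only [Fm.and, Fm.neg, Fm.sat]; tauto

@[simp] theorem Fm.sat_or {M : Type} (A : Str M) (φ ψ : Fm) (v : ℕ → M) :
    (Fm.or φ ψ).sat A v ↔ φ.sat A v ∨ ψ.sat A v := by
  simp only [Fm.or, Fm.neg, Fm.sat]; tauto

@[simp] theorem Fm.sat_iff {M : Type} (A : Str M) (φ ψ : Fm) (v : ℕ → M) :
    (Fm.iff φ ψ).sat A v ↔ (φ.sat A v ↔ ψ.sat A v) := by
  simp only [Fm.iff, Fm.sat_and, Fm.sat]; tauto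

/-- **Soundness of the calculus.** -/
theorem Derives.sound {M : Type} {A : Str M} {Th : Set Fm} (hA : A.Models Th) (π : List Step) :
    ∀ (prev : List Fm) (φ : Fm), (∀ ψ ∈ prev, ∀ v, ψ.sat A v) → Derives Th prev π φ →
      ∀ v, φ.sat A v := by
  induction π with
  | nil =>
    intro prev φ hp h v
    simp only [Derives] at h
    exact hp φ (List.mem_of_mem_head? (by rw [h]; rfl)) v
  | cons s π ih =>
    intro prev φ hp h v
    simp only [Derives] at h
    obtain ⟨h1, h2⟩ := h
    refine ih _ φ ?_ h2 v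
    intro ψ hψ
    rcases List.mem_cons.1 hψ with rfl | hψ
    swap
    · exact hp ψ hψ
    intro w
    cases s with
    | hyp φ => exact hA φ h1 w
    | axK φ ψ => intro a _; exact a
    | axS φ ψ χ => intro a b c; exact a c (b c)
    | dne φ => intro a; by_contra hc; exact a hc
    | allE φ t =>
      intro a
      rw [Fm.sat_inst]
      exact a _
    | allK φ ψ => intro a b c; exact a c (b c)
    | vac φ =>
      intro a c
      rw [Fm.sat_shift_one]; exact a
    | refl t => rfl
    | subst φ s t =>
      intro a b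
      rw [Fm.sat_inst] at b ⊢
      have : s.val A.toStr w = t.val A.toStr w := a
      rwa [← this]
    | mp φ ψ => exact hp _ h1.1 w (hp _ h1.2 w)
    | gen φ => intro a; exact hp _ h1 _

theorem IsProof.sound {M : Type} {A : Str M} {Th : Set Fm} (hA : A.Models Th) {π : List Step}
    {φ : Fm} (h : IsProof Th π φ) (v : ℕ → M) : φ.sat A v :=
  Derives.sound hA π [] φ (by simp) h v

/-! ### The embedding of the formulas without oracle -/

theorem Fm.emb_shift (φ : H19.Fm) : ∀ c d : ℕ, Fm.emb (φ.shift c d) = (Fm.emb φ).shift c d := by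
  induction φ with
  | bot => intro c d; rfl
  | eq s t => intro c d; rfl
  | le s t => intro c d; rfl
  | imp φ ψ ih1 ih2 =>
    intro c d
    simp only [H19.Fm.shift, Fm.emb, Fm.shift, ih1, ih2]
  | all φ ih =>
    intro c d
    simp only [H19.Fm.shift, Fm.emb, Fm.shift, ih]

theorem Fm.emb_guarded (φ : H19.Fm) : (Fm.emb φ).guarded = φ.guarded := by
  cases φ with
  | imp ψ χ =>
    cases ψ with
    | le s t =>
      cases s with
      | var i => cases i <;> rfl
      | _ => rfl
    | _ => rfl
  | _ => rfl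

theorem Fm.emb_sharp (φ : H19.Fm) : (Fm.emb φ).sharp = φ.sharp := by
  cases φ with
  | imp ψ χ =>
    cases ψ with
    | le s t =>
      cases s with
      | var i =>
        cases i with
        | zero => cases t <;> rfl
        | succ i => rfl
      | _ => rfl
    | _ => rfl
  | _ => rfl

theorem Fm.emb_sigma (φ : H19.Fm) :
    (Fm.emb φ).isSigma = φ.isSigma ∧ (Fm.emb φ).isPi = φ.isPi := by
  induction φ with
  | bot => exact ⟨rfl, rfl⟩
  | eq s t => exact ⟨rfl, rfl⟩
  | le s t => exact ⟨rfl, rfl⟩
  | imp φ ψ ih1 ih2 =>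
    simp only [Fm.emb, Fm.isSigma, Fm.isPi, H19.Fm.isSigma, H19.Fm.isPi, ih1.1, ih1.2, ih2.1,
      ih2.2, and_self]
  | all φ ih =>
    simp only [Fm.emb, Fm.isSigma, Fm.isPi, H19.Fm.isSigma, H19.Fm.isPi, ih.1, ih.2,
      Fm.emb_guarded, Fm.emb_sharp, and_self]

theorem Fm.emb_sat {M : Type} (A : Str M) (φ : H19.Fm) : ∀ v : ℕ → M,
    (Fm.emb φ).sat A v ↔ φ.sat A.toStr v := by
  induction φ with
  | bot => intro v; rfl
  | eq s t => intro v; rfl
  | le s t => intro v; rfl
  | imp φ ψ ih1 ih2 => intro v; simp only [Fm.emb, Fm.sat, H19.Fm.sat, ih1, ih2]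
  | all φ ih => intro v; simp only [Fm.emb, Fm.sat, H19.Fm.sat, ih]

theorem emb_pind (φ : H19.Fm) : Fm.emb (H19.pind φ) = pind (Fm.emb φ) := by
  simp only [H19.pind, pind, Fm.emb, Fm.emb_shift]

theorem emb_S12 {φ : H19.Fm} (h : φ ∈ H19.S12) : Fm.emb φ ∈ S12 := by
  rcases h with h | ⟨ψ, h1, rfl⟩
  · exact Or.inl (List.mem_map_of_mem h)
  · exact Or.inr ⟨Fm.emb ψ, by rw [(Fm.emb_sigma ψ).1, h1], emb_pind ψ⟩

theorem good_of_models {M : Type} {A : Str M} (h : A.Models S12) : Good A.toStr :=
  H19.good_of_models fun _ hφ v => (Fm.emb_sat A _ v).1 (h _ (emb_S12 hφ) v)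

/-! ### The standard model -/

theorem stdN_toStr (O : Om) : (stdN O).toStr = H19.stdN := rfl

theorem stdN_basic (O : Om) : ∀ φ ∈ basicList, ∀ v, φ.sat (stdN O) v := by
  intro φ hφ v
  obtain ⟨ψ, hψ, rfl⟩ := List.mem_map.1 hφ
  exact (Fm.emb_sat _ ψ v).2 (H19.stdN_basic ψ hψ v)

theorem stdN_pind (O : Om) (φ : Fm) (v : ℕ → ℕ) : (pind φ).sat (stdN O) v := by
  intro h1 h2 a
  have h1' : ∀ n : ℕ, n = 0 → φ.sat (stdN O) (scons n v) := h1
  have h2' : ∀ n m : ℕ, m = n / 2 → (φ.shift 1 1).sat (stdN O) (scons m (scons n v)) →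
      (φ.shift 0 1).sat (stdN O) (scons m (scons n v)) := h2
  have key : ∀ n : ℕ, φ.sat (stdN O) (scons n v) := by
    intro n
    induction n using Nat.strong_induction_on with
    | _ n ih =>
      by_cases hn : n = 0
      · exact h1' n hn
      · have h3 := h2' n (n / 2) rfl
        rw [Fm.sat_shift_one] at h3
        refine h3 ?_
        rw [Fm.sat_shift]
        have : (fun i => if i < 1 then scons (n / 2) (scons n v) i else
            scons (n / 2) (scons n v) (i + 1)) = scons (n / 2) v := by
          funext i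
          cases i with
          | zero => simp [scons]
          | succ i => simp [scons]
        rw [this]
        exact ih (n / 2) (by omega)
  exact key a

theorem stdN_models (O : Om) : (stdN O).Models S12 := by
  intro φ hφ v
  rcases hφ with hφ | ⟨ψ, _, rfl⟩
  · exact stdN_basic O φ hφ v
  · exact stdN_pind O ψ v

theorem stdN_diag (O : Om) : (stdN O).Models (diag O) := by
  rintro φ ⟨n, ⟨h, rfl⟩ | ⟨h, rfl⟩⟩ v
  · show O ((Tm.numeral n).val H19.stdN v) = true
    rw [Tm.numeral_val, h]
  · show ¬ O ((Tm.numeral n).val H19.stdN v) = true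
    rw [Tm.numeral_val, h]; simp

/-! ### Absoluteness -/

/-- All quantifiers are bounded. -/
def Fm.bdd : Fm → Bool
  | Fm.bot => true
  | Fm.eq _ _ => true
  | Fm.le _ _ => true
  | Fm.rel _ => true
  | Fm.imp φ ψ => Fm.bdd φ && Fm.bdd ψ
  | Fm.all φ => φ.guarded && Fm.bdd φ

theorem Fm.guarded_of_sharp {φ : Fm} (h : φ.sharp = true) : φ.guarded = true := by
  cases φ with
  | imp ψ χ =>
    cases ψ with
    | le s t =>
      cases s with
      | var i =>
        cases i with
        | zero =>
          cases t with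
          | len t => simpa [Fm.sharp, Fm.guarded, Tm.occurs] using h
          | _ => simp [Fm.sharp] at h
        | succ i => simp [Fm.sharp] at h
      | _ => simp [Fm.sharp] at h
    | _ => simp [Fm.sharp] at h
  | _ => simp [Fm.sharp] at h

theorem Fm.guarded_elim {φ : Fm} (h : φ.guarded = true) :
    ∃ t ψ, φ = Fm.imp (Fm.le (Tm.var 0) t) ψ ∧ t.occurs 0 = false := by
  cases φ with
  | imp ψ χ =>
    cases ψ with
    | le s t =>
      cases s with
      | var i =>
        cases i with
        | zero => exact ⟨t, χ, rfl, by simpa [Fm.guarded] using h⟩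
        | succ i => simp [Fm.guarded] at h
      | _ => simp [Fm.guarded] at h
    | _ => simp [Fm.guarded] at h
  | _ => simp [Fm.guarded] at h

theorem Fm.bdd_of (φ : Fm) :
    (φ.isSigma = true → φ.bdd = true) ∧ (φ.isPi = true → φ.bdd = true) := by
  induction φ with
  | bot => simp [Fm.bdd]
  | eq s t => simp [Fm.bdd]
  | le s t => simp [Fm.bdd]
  | rel t => simp [Fm.bdd]
  | imp φ ψ ih1 ih2 =>
    simp only [Fm.isSigma, Fm.isPi, Fm.bdd, Bool.and_eq_true]
    tauto
  | all φ ih =>
    simp only [Fm.isSigma, Fm.isPi, Fm.bdd, Bool.and_eq_true]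
    refine ⟨fun h => ⟨Fm.guarded_of_sharp h.1, ih.1 h.2⟩, fun h => ⟨h.1, ih.2 h.2⟩⟩

/-- A model of `S^1_2(O)` and of the diagram of `O` has the right oracle on the standard
numbers. -/
theorem Str.rel_iff {M : Type} {A : Str M} {O : Om} (g : Good A.toStr)
    (hd : A.Models (diag O)) (n : ℕ) : A.rel (A.nat n) ↔ O n = true := by
  cases h : O n
  · have := hd (Fm.neg (Fm.rel (Tm.numeral n))) ⟨n, Or.inr ⟨h, rfl⟩⟩ (fun _ => A.zero)
    rw [Fm.sat_neg] at this
    simp only [Fm.sat, g.numeral] at this
    simpa using this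
  · have := hd (Fm.rel (Tm.numeral n)) ⟨n, Or.inl ⟨h, rfl⟩⟩ (fun _ => A.zero)
    simp only [Fm.sat, g.numeral] at this
    simpa using this

/-- **Absoluteness of bounded formulas** between the standard model and models of `S^1_2(O)` and
the diagram. -/
theorem sat_iff_of_models {M : Type} {A : Str M} {O : Om} (g : Good A.toStr)
    (hd : A.Models (diag O)) (φ : Fm) : φ.bdd = true →
    ∀ v : ℕ → ℕ, φ.sat A (fun i => A.nat (v i)) ↔ φ.sat (stdN O) v := by
  induction φ with
  | bot => intro _ v; rfl
  | eq s t =>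
    intro _ v
    simp only [Fm.sat, g.val, stdN_toStr]
    exact ⟨fun h => g.inj h, fun h => by rw [h]⟩
  | le s t =>
    intro _ v
    simp only [Fm.sat, g.val, stdN_toStr]
    exact g.le_iff
  | rel t =>
    intro _ v
    simp only [Fm.sat, g.val, stdN_toStr]
    exact Str.rel_iff g hd _
  | imp φ ψ ih1 ih2 =>
    intro h v
    simp only [Fm.bdd, Bool.and_eq_true] at h
    simp only [Fm.sat, ih1 h.1, ih2 h.2]
  | all φ ih =>
    intro h v
    simp only [Fm.bdd, Bool.and_eq_true] at h
    obtain ⟨h1, h2⟩ := h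
    have ih' := ih h2
    have hcons : ∀ k : ℕ, scons (A.nat k) (fun i => A.nat (v i)) =
        fun i => A.nat (scons k v i) := by
      intro k; funext i; cases i <;> rfl
    obtain ⟨t, ψ, rfl, ht⟩ := Fm.guarded_elim h1
    simp only [Fm.sat, Tm.val, stdN_toStr] at ih' ⊢
    constructor
    · intro h a
      have h3 := h (A.nat a)
      rw [hcons] at h3
      exact (ih' (scons a v)).1 h3
    · intro h a ha
      have hval : t.val A.toStr (scons a fun i => A.nat (v i)) =
          A.nat (t.val H19.stdN (scons 0 v)) := by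
        rw [← g.val]
        apply Tm.val_congr_of_occurs
        intro i hi
        cases i with
        | zero => rw [ht] at hi; exact absurd hi (by simp)
        | succ i => rfl
      rw [hval] at ha
      obtain ⟨k, hk, rfl⟩ := g.initial (x := a) ha
      rw [hcons]
      refine (ih' (scons k v)).2 (h k) ?_
      rw [g.val]
      have h5 : t.val H19.stdN (scons k v) = t.val H19.stdN (scons 0 v) := by
        apply Tm.val_congr_of_occurs
        intro i hi
        cases i with
        | zero => rw [ht] at hi; exact absurd hi (by simp)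
        | succ i => rfl
      rw [h5]
      exact g.le_iff.2 hk

theorem Fm.sat_congr_below {M : Type} (A : Str M) (φ : Fm) : ∀ {k : ℕ} (_ : φ.fvBelow k)
    {v w : ℕ → M} (_ : ∀ i, i < k → v i = w i), φ.sat A v ↔ φ.sat A w := by
  induction φ with
  | bot => intro k _ v w _; rfl
  | eq s t =>
    intro k hk v w h
    simp only [Fm.sat]
    rw [Tm.val_congr_below A.toStr s hk.1 h, Tm.val_congr_below A.toStr t hk.2 h]
  | le s t =>
    intro k hk v w h
    simp only [Fm.sat]
    rw [Tm.val_congr_below A.toStr s hk.1 h, Tm.val_congr_below A.toStr t hk.2 h]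
  | rel t =>
    intro k hk v w h
    simp only [Fm.sat]
    rw [Tm.val_congr_below A.toStr t hk h]
  | imp φ ψ ih1 ih2 =>
    intro k hk v w h
    simp only [Fm.sat]
    rw [ih1 hk.1 h, ih2 hk.2 h]
  | all φ ih =>
    intro k hk v w h
    simp only [Fm.sat]
    refine forall_congr' fun a => ih hk fun i hi => ?_
    cases i with
    | zero => rfl
    | succ i => exact h i (by omega)

theorem inst3_sat (O : Om) (μ : Fm) (e x z : ℕ) (v : ℕ → ℕ) :
    (inst3 μ e x z).sat (stdN O) v ↔ μ.sat (stdN O) (scons e (scons x (scons z v))) := by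
  simp only [inst3, Fm.sat_inst, stdN_toStr, Tm.numeral_val]

/-- A consistent theory containing `S^1_2(O)` and the diagram of `O` that proves `rfn P μ n` is
right about it. -/
theorem rfn_sound {O : Om} {Th : Set Fm} (hS : S12 ⊆ Th) (hD : diag O ⊆ Th) (hc : Consistent Th)
    {P μ : Fm} (hP : P.bdd = true) (hμ : μ.bdd = true) {n : ℕ} (hp : Provable Th (rfn P μ n))
    {e x z u : ℕ} (he : e.size ≤ n) (hx : x.size ≤ n) (hz : z.size ≤ n) (hu : u.size ≤ n)
    (hPt : P.sat (stdN O) (vec4 e x z u)) : μ.sat (stdN O) (vec4 e x z u) := by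
  obtain ⟨M, A, hA⟩ := hc
  obtain ⟨π, hπ⟩ := hp
  have g : Good A.toStr := good_of_models fun φ hφ v => hA φ (hS hφ) v
  have hd : A.Models (diag O) := fun φ hφ v => hA φ (hD hφ) v
  have h1 := hπ.sound hA (fun _ => A.zero)
  have h2 := h1 (A.nat u) (A.nat z) (A.nat x) (A.nat e)
  have henv : scons (A.nat e) (scons (A.nat x) (scons (A.nat z) (scons (A.nat u)
      fun _ => A.zero))) = fun i => A.nat (vec4 e x z u i) := by
    funext i
    rcases i with _ | _ | _ | _ | i <;> rfl
  simp only [Fm.sat, g.numeral, Tm.val] at h2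
  rw [henv] at h2
  have h3 := h2 (by simp only [vec4, scons, g.len]; exact g.le_iff.2 he)
    (by simp only [vec4, scons, g.len]; exact g.le_iff.2 hx)
    (by simp only [vec4, scons, g.len]; exact g.le_iff.2 hz)
    (by simp only [vec4, scons, g.len]; exact g.le_iff.2 hu)
  rw [sat_iff_of_models g hd P hP, sat_iff_of_models g hd μ hμ] at h3
  exact h3 hPt

/-- The universal formula has a false instance, the same for all oracles. -/
theorem IsUniversal.false_instance {μ : Fm} (hμ : IsUniversal μ) :
    ∃ e z : ℕ, ∀ O : Om, ¬ μ.sat (stdN O) (vec3 e 0 z) := by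
  obtain ⟨e, p, hpoly, π, hπ⟩ := hμ.2.2 Fm.bot rfl trivial
  refine ⟨e, 2 ^ ((p.val H19.stdN (fun _ => 0))), fun O h => ?_⟩
  have h1 := hπ.sound (stdN_models O)
    (scons 0 (scons (2 ^ (p.val H19.stdN (fun _ => 0))) fun _ => 0))
  simp only [Fm.sat, Fm.sat_iff, Fm.sat_inst, stdN_toStr, Tm.numeral_val] at h1
  have h2 : (p.inst 0 (Tm.len (Tm.var 0))).val H19.stdN
      (scons 0 (scons (2 ^ (p.val H19.stdN (fun _ => 0))) fun _ => 0)) =
      p.val H19.stdN (fun _ => 0) := by
    have : ∀ (q : Tm), q.isPoly → ∀ v w : ℕ → ℕ, v 0 = w 0 →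
        q.val H19.stdN v = q.val H19.stdN w := by
      intro q hq v w hvw
      induction q with
      | var i => simp only [Tm.isPoly] at hq; subst hq; exact hvw
      | zero => rfl
      | succ t ih => simp only [Tm.val]; rw [ih hq]
      | half t ih => simp [Tm.isPoly] at hq
      | len t ih => simp [Tm.isPoly] at hq
      | add s t ih1 ih2 => simp only [Tm.val]; rw [ih1 hq.1, ih2 hq.2]
      | mul s t ih1 ih2 => simp only [Tm.val]; rw [ih1 hq.1, ih2 hq.2]
      | smash s t ih1 ih2 => simp [Tm.isPoly] at hq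
    rw [Tm.val_inst]
    apply this p hpoly
    simp [Tm.val, scons, H19.stdN]
  have h3 := h1 (by
    show (p.inst 0 (Tm.len (Tm.var 0))).val H19.stdN _ ≤ _
    rw [h2]
    simp only [Tm.val, scons, H19.stdN, Nat.size_pow]
    omega)
  exact h3.2 h

end Pool.Agent.RO
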