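import Pool.Agent.RO.Chk

/-!
# The construction: definitions and statements of the modules

`T_j` is a presentation of `T₀`: its program accepts what the program of `T₀` accepts and, in
addition, the false sentences `falsum v` for which `v` describes a failure of window
`v.left.len`.
-/

namespace Pool.Agent.RO

open Pool.Agent.H19 (T PolyTime PolyDec PolyNat Tm scons bn bl ofBool encL tif)

/-- The tower function `1, 2, 4, 16, 65536, …`. -/
def tow : ℕ → ℕ
  | 0 => 1
  | s + 1 => 2 ^ tow s

/-- The binary logarithm. -/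
def lgN (n : ℕ) : ℕ := n.size - 1

/-- The position of bit `i` of block `x` of the window of size `M`. -/
def pos (M x i : ℕ) : ℕ := 2 ^ (2 * M) + x * 2 ^ M + i

/-- The axioms of the theory used in a proof. -/
def hyps : List Step → List Fm
  | [] => []
  | Step.hyp φ :: π => φ :: hyps π
  | _ :: π => hyps π

/-- The parameters of the construction: the base oracle `A`, the programs of `S` and `T₀`, the
universal formula `μ`, the function `fP` that computes the proof formulas, the constants `e`, `K`,
the number `s₀` of the first window. -/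
structure Par where
  A : Om
  cS : OCode
  kS : ℕ
  c0 : OCode
  k0 : ℕ
  μ : Fm
  fP : T → T
  e : ℕ
  K : ℕ
  s0 : ℕ

namespace Par

variable (p : Par)

/-- The size of window `s`. -/
def m (s : ℕ) : ℕ := tow (p.s0 + s)

/-- The positions of the bits of window `s`. -/
def β (s x i : ℕ) : ℕ := pos (p.m s) x i

/-- The theory `S` relative to `O`. -/
def S (O : Om) : Set Fm := theory O p.cS p.kS

/-- The theory `T₀` relative to `O`. -/
def T0 (O : Om) : Set Fm := theory O p.c0 p.k0

/-- The oracles for which both programs halt within their clocks. -/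
def H : Set Om := {O | HaltsWithin O p.cS p.kS ∧ HaltsWithin O p.c0 p.k0}

/-- The reflection sentence attached to window size `M`, for the presentation coded by `q`. -/
def sent (q : T) (M : ℕ) : Fm := rfn (decFm (p.fP q)) p.μ (p.K * M)

/-- `E` is a short derivation of the reflection sentence for window size `M` (from any axioms),
and `M` is at least the size of window `j`. -/
def Ok (j : ℕ) (q : T) (M : ℕ) (E : T) : Prop :=
  p.m j ≤ M ∧ E.size ≤ 2 ^ (M / p.e) ∧ IsProof Set.univ (decProof E) (p.sent q M)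

/-- The list `C` of derivations belongs to the consecutive windows below window size `M`. -/
def Chain (j : ℕ) (q : T) : T → ℕ → Prop
  | T.leaf, _ => True
  | T.node E C, M => M = 2 ^ lgN M ∧ p.Ok j q (lgN M) E ∧ Chain j q C (lgN M)

/-- The purely syntactical part of the description `v = node (unary M) (node x C)` of a
failure. -/
def D0 (j : ℕ) (v q : T) : Prop :=
  (∃ s, v.left.len = tow s) ∧ p.m j ≤ v.left.len ∧ v.right.left.len ≤ v.left.len ∧
    p.Chain j q v.right.right v.left.len

/-- The items of the description `v` that are to be checked with the oracle: the first `M + a` bits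
of block `x`, and the axioms used in the derivations. -/
noncomputable def items (v : T) : List T :=
  ((List.range (v.left.len + lgN^[v.right.right.len] v.left.len)).map fun i =>
    T.node T.leaf (bl (2 * pos v.left.len (bn v.right.left) i + 1))) ++
  (v.right.right.toL.flatMap fun E => (hyps (decProof E)).map fun φ =>
    T.node (T.node T.leaf T.leaf) φ.enc)

/-- The test of an item relative to `O`. -/
def ItemOK (O : Om) (a : T) : Prop :=
  if a.left = T.leaf then O (bn a.right) = true else decFm a.right ∈ p.S O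

/-- The description `v` is accepted relative to `O`, by the presentation coded by `q`. -/
def AccV (j : ℕ) (q : T) (O : Om) (v : T) : Prop :=
  p.D0 j v q ∧ ∀ a ∈ items v, p.ItemOK O a

/-- What the program of `T_j` is to accept. -/
def Want (j : ℕ) (q : T) (O : Om) (x : T) : Prop :=
  ((falsum (unfalsum x)).enc = x ∧ p.D0 j (unfalsum x) q ∧
      ∀ a ∈ items (unfalsum x), p.ItemOK O a) ∨
    (¬ ((falsum (unfalsum x)).enc = x ∧ p.D0 j (unfalsum x) q) ∧ Accepts O p.c0 p.k0 x)

/-- Window `j + d` is accepted: `S` has a short proof of its reflection sentence. -/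
def Acc (j : ℕ) (q : T) (d : ℕ) : Set Om :=
  {R | ∃ E : T, E.size ≤ 2 ^ (p.m (j + d) / p.e) ∧
    IsProof (p.S (join p.A R)) (decProof E) (p.sent q (p.m (j + d)))}

/-- The constants are large enough. -/
structure Good (p : Par) : Prop where
  e_eq : p.e = 4 * (p.kS + 1)
  s0_big : 40 * (p.kS + 1) ≤ tow p.s0

end Par

/-! ### The statements of the modules -/

/-- HYPS -/
def Stmt_HYPS : Prop := ∀ (Th : Set Fm) (π : List Step) (φ : Fm),
  IsProof Th π φ ↔ IsProof Set.univ π φ ∧ ∀ ψ ∈ hyps π, ψ ∈ Th

/-- EVLOC (helper95, Prog.lean): a computation depends on few oracle bits. -/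
def Stmt_EVLOC : Prop := ∀ (O : Om) (c : OCode) (x y : T) (t : ℕ), EvalO O c x y t →
  ∃ Q : Finset ℕ, Q.card ≤ t ∧ (∀ n ∈ Q, n.size ≤ t) ∧
    ∀ O' : Om, (∀ n ∈ Q, O' n = O n) → EvalO O' c x y t

/-- DET (helper95, Prog.lean): computations are deterministic. -/
def Stmt_DET : Prop := ∀ (O : Om) (c : OCode) (x y y' : T) (t t' : ℕ),
  EvalO O c x y t → EvalO O c x y' t' → y = y' ∧ t = t'

/-- CNT: there are countably many programs. -/
def Stmt_CNT : Prop := Countable OCode

/-- DIAGDEC: membership in the diagram by one query. -/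
def Stmt_DIAGDEC : Prop := ∃ g : T → ℕ, H19.PolyN g ∧ ∀ (O : Om) (φ : Fm), φ ∈ diag O ↔
  (φ = Fm.rel (Tm.numeral (g φ.enc)) ∧ O (g φ.enc) = true) ∨
    (φ = Fm.neg (Fm.rel (Tm.numeral (g φ.enc))) ∧ O (g φ.enc) = false)

/-- WINSYS: the windows form a system of windows (also from `j` on). -/
def Stmt_WINSYS : Prop := ∀ p : Par, Windows p.m p.β

/-- D0POLY: the syntactical part is decidable in polynomial time. -/
def Stmt_D0POLY : Prop := ∀ (p : Par) (j : ℕ), PolyTime p.fP →
  PolyDec (fun z => p.D0 j z.left z.right)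

/-- ITEMS: the list of items is computable in polynomial time. -/
def Stmt_ITEMS : Prop := PolyTime (fun v => encL (Par.items v))

/-- LOCAL: few oracle bits decide that a window is accepted. -/
def Stmt_LOCAL : Prop := ∀ (p : Par), p.Good → ∀ (j : ℕ) (q : T),
  Loc (fun d => p.m (j + d)) (fun d => p.β (j + d)) (p.Acc j q)

/-- ACCFF: an accepted description shows a failure. -/
def Stmt_ACCFF : Prop := ∀ (p : Par) (j : ℕ) (q : T) (R : Om) (v : T),
  p.AccV j q (join p.A R) v →
    ∃ d, R ∈ FF (fun d => p.m (j + d)) (fun d => p.β (j + d)) (p.Acc j q) d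

/-- FFACC: a failure gives a short accepted description. -/
def Stmt_FFACC : Prop := ∀ (p : Par), p.Good → ∀ (j : ℕ) (q : T) (R : Om) (d : ℕ),
  R ∈ FF (fun d => p.m (j + d)) (fun d => p.β (j + d)) (p.Acc j q) d →
    ∃ v : T, p.AccV j q (join p.A R) v ∧ v.size ≤ 20 * p.m (j + d)

/-- PROGRAM: the program of `T_j`. -/
def Stmt_PROGRAM : Prop := ∀ (p : Par) (j : ℕ), PolyTime p.fP →
  ∃ (c : OCode) (κ : ℕ), ∀ O ∈ p.H, HaltsWithin O c κ ∧
    ∀ x : T, Accepts O c κ x ↔ p.Want j (T.node c.enc (T.unary κ)) O x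

/-- SAME: if no description is accepted then the program presents `T₀`. -/
def Stmt_SAME : Prop := ∀ (p : Par) (j : ℕ) (q : T) (O : Om) (c : OCode) (κ : ℕ),
  (∀ x : T, Accepts O c κ x ↔ p.Want j q O x) → Consistent (p.T0 O) →
  (∀ v, ¬ p.AccV j q O v) → theory O c κ = p.T0 O

/-- ERROR: if a description `v` of size at most `20 M` is accepted then a consistent `S` does not
prove the reflection sentence for `M`. -/
def Stmt_ERROR : Prop := ∀ (μ : Fm), IsUniversal μ → ∃ K : ℕ, 0 < K ∧
  ∀ (P : OCode → ℕ → Fm), IsFormalisation μ P → ∀ (p : Par), p.μ = μ → K ≤ p.K →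
  ∀ (j : ℕ) (O : Om) (c : OCode) (κ : ℕ),
    p.fP (T.node c.enc (T.unary κ)) = (P c κ).enc →
    (∀ x : T, Accepts O c κ x ↔ p.Want j (T.node c.enc (T.unary κ)) O x) →
    Consistent (p.S O) → ∀ (v : T) (M : ℕ), 1 ≤ M → v.size ≤ 20 * M →
    p.AccV j (T.node c.enc (T.unary κ)) O v →
    ¬ Provable (p.S O) (p.sent (T.node c.enc (T.unary κ)) M)

/-- The theorem for presented theories. -/
def Stmt_PRES : Prop := ∀ (μ : Fm), IsUniversal μ → ∀ (P : OCode → ℕ → Fm),
  IsFormalisation μ P → ∀ (A : Om) (cS : OCode) (kS : ℕ) (c0 : OCode) (k0 : ℕ),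
  ∀ᵐ R ∂coin, HaltsWithin (join A R) cS kS → HaltsWithin (join A R) c0 k0 →
    Consistent (theory (join A R) cS kS) → Consistent (theory (join A R) c0 k0) →
    ∃ (c : OCode) (κ : ℕ), HaltsWithin (join A R) c κ ∧
      theory (join A R) c κ = theory (join A R) c0 k0 ∧
      ∃ e : ℕ, 0 < e ∧ ∀ N : ℕ, ∃ n ≥ N, ∀ π : List Step,
        IsProof (theory (join A R) cS kS) π (rfn (P c κ) μ n) →
          2 ^ (n / e) < (encProof π).size

/-- The main theorem. -/
def Stmt_MAIN : Prop := ∀ (μ : Fm), IsUniversal μ → ∀ (P : OCode → ℕ → Fm),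
  IsFormalisation μ P → ∀ (A : Om), ∀ᵐ R ∂coin,
    (∀ S T₀ : Set Fm, InClassT (join A R) S → InClassT (join A R) T₀ →
      ∃ (c : OCode) (κ : ℕ), HaltsWithin (join A R) c κ ∧ theory (join A R) c κ = T₀ ∧
        ∃ e : ℕ, 0 < e ∧ ∀ N : ℕ, ∃ n ≥ N, ∀ π : List Step,
          IsProof S π (rfn (P c κ) μ n) → 2 ^ (n / e) < (encProof π).size) ∧
    ReflectionConjecture (join A R) μ P

end Pool.Agent.RO
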