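import Pool.Agent.RO.PDefs

/-!
# Approximation of measurable sets of oracles by sets depending on finitely many bits
-/

open MeasureTheory

namespace Pool.Agent.RO.APPROX

/-- The oracles whose first `N` bits force membership in `U`. -/
def core (U : Set Om) (N : ℕ) : Set Om := {y | ∀ z : Om, (∀ i < N, z i = y i) → z ∈ U}

theorem core_subset (U : Set Om) (N : ℕ) : core U N ⊆ U := fun y hy => hy y (fun _ _ => rfl)

theorem core_mono (U : Set Om) : Monotone (core U) := by
  intro N M h y hy z hz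
  exact hy z (fun i hi => hz i (lt_of_lt_of_le hi h))

theorem core_indep (U : Set Om) (N : ℕ) : IndepOf {n | N ≤ n} (core U N) := by
  have key : ∀ R R' : Om, (∀ n, n ∉ {n : ℕ | N ≤ n} → R n = R' n) → R ∈ core U N →
      R' ∈ core U N := by
    intro R R' h hR z hz
    refine hR z (fun i hi => ?_)
    rw [hz i hi, h i (by simpa using hi)]
  intro R R' h
  exact ⟨key R R' h, key R' R (fun n hn => (h n hn).symm)⟩

theorem isOpen_core (U : Set Om) (N : ℕ) : IsOpen (core U N) := by
  rw [isOpen_iff_forall_mem_open]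
  intro y hy
  refine ⟨PiNat.cylinder y N, ?_, PiNat.isOpen_cylinder _ y N, PiNat.self_mem_cylinder y N⟩
  intro z hz w hw
  refine hy w (fun i hi => ?_)
  rw [hw i hi]
  exact hz i hi

theorem iUnion_core {U : Set Om} (hU : IsOpen U) : ⋃ N, core U N = U := by
  apply Set.Subset.antisymm
  · exact Set.iUnion_subset (fun N => core_subset U N)
  · intro y hy
    obtain ⟨s, hs, hys, hsU⟩ :=
      (PiNat.isTopologicalBasis_cylinders (fun _ : ℕ => Bool)).exists_subset_of_mem_open hy hU
    obtain ⟨x, n, rfl⟩ := hs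
    rw [Set.mem_iUnion]
    refine ⟨n, fun z hz => hsU ?_⟩
    intro i hi
    rw [hz i hi]
    exact hys i hi

end Pool.Agent.RO.APPROX

theorem Pool.Agent.RO.APPROX_thm (h0 : Pool.Agent.RO.Stmt_PROB) : Pool.Agent.RO.Stmt_APPROX := by
  intro E hE η hη
  have : IsProbabilityMeasure Pool.Agent.RO.coin := h0
  obtain ⟨U, hEU, hU, -, hU2⟩ :=
    hE.exists_isOpen_sdiff_lt (μ := Pool.Agent.RO.coin) (measure_ne_top _ _) hη.ne'
  obtain ⟨K, hKE, hK, hK2⟩ :=
    hE.exists_isCompact_sdiff_lt (μ := Pool.Agent.RO.coin) (measure_ne_top _ _) hη.ne'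
  have hcov : K ⊆ ⋃ N, Pool.Agent.RO.APPROX.core U N := by
    rw [Pool.Agent.RO.APPROX.iUnion_core hU]
    exact hKE.trans hEU
  obtain ⟨N, hN⟩ := hK.elim_directed_cover (Pool.Agent.RO.APPROX.core U)
    (fun N => Pool.Agent.RO.APPROX.isOpen_core U N) hcov
    (Pool.Agent.RO.APPROX.core_mono U).directed_le
  refine ⟨N, Pool.Agent.RO.APPROX.core U N, (Pool.Agent.RO.APPROX.isOpen_core U N).measurableSet,
    Pool.Agent.RO.APPROX.core_indep U N, ?_, ?_⟩
  · exact (measure_mono (Set.sdiff_subset_sdiff_right hN)).trans hK2.le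
  · exact (measure_mono (Set.sdiff_subset_sdiff_left
      (Pool.Agent.RO.APPROX.core_subset U N))).trans hU2.le
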