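import Pool.Agent.RO.PDefs

/-!
# Random oracles: module RISK
-/

open MeasureTheory

namespace Pool.Agent.RO

namespace RISK

/-- the first `k` positions of a block -/
def blk (β : ℕ → ℕ → ℕ → ℕ) (d x k : ℕ) : Finset ℕ := (Finset.range k).image (β d x)

theorem blk_card {m : ℕ → ℕ} {β : ℕ → ℕ → ℕ → ℕ} (hW : Windows m β) {d x k : ℕ}
    (hx : x < 2 ^ m d) (hk : k ≤ 2 * m d) : (blk β d x k).card = k := by
  unfold blk
  rw [Finset.card_image_of_injOn, Finset.card_range]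
  intro i hi j hj hij
  have hi' : i < k := Finset.mem_range.1 hi
  have hj' : j < k := Finset.mem_range.1 hj
  exact (hW.inj d x i d x j hx (by omega) hx (by omega) hij).2.2

theorem blk_sub {m : ℕ → ℕ} {β : ℕ → ℕ → ℕ → ℕ} {d x k : ℕ}
    (hx : x < 2 ^ m d) (hk : k ≤ 2 * m d) {n : ℕ} (hn : n ∈ blk β d x k) : n ∈ Win m β d := by
  unfold blk at hn
  rw [Finset.mem_image] at hn
  obtain ⟨i, hi, rfl⟩ := hn
  have hi' : i < k := Finset.mem_range.1 hi
  exact ⟨x, hx, i, by omega, rfl⟩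

theorem plant_pre {B : Finset ℕ} {W : Set ℕ} {G : Set Om} (hB : ∀ n ∈ B, n ∈ W)
    (hG : IndepOf W G) : plant B ⁻¹' G = G := by
  ext R
  rw [Set.mem_preimage]
  refine hG _ _ fun n hn => ?_
  unfold plant
  rw [if_neg fun h => hn (hB n h)]

theorem Fa_sub {m : ℕ → ℕ} {β : ℕ → ℕ → ℕ → ℕ} {a d : ℕ} :
    Fa m β a d ⊆ ⋃ x ∈ Finset.range (2 ^ m d), ones (blk β d x (m d + m a)) := by
  rintro R ⟨x, hx, h⟩
  rw [Set.mem_iUnion₂]
  refine ⟨x, Finset.mem_range.2 hx, fun n hn => ?_⟩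
  unfold blk at hn
  rw [Finset.mem_image] at hn
  obtain ⟨i, hi, rfl⟩ := hn
  exact h i (Finset.mem_range.1 hi)

end RISK

theorem RISK_thm (hP : Stmt_PLANT) : Stmt_RISK := by
  intro m β hW a d had G hG hGi
  have hma : m a ≤ m d := hW.mono.monotone had
  have h1 : ∀ x ∈ Finset.range (2 ^ m d),
      coin (ones (RISK.blk β d x (m d + m a)) ∩ G) = (2⁻¹ : ENNReal) ^ (m d + m a) * coin G := by
    intro x hx
    have hx' := Finset.mem_range.1 hx
    rw [Set.inter_comm, hP _ G hG, RISK.blk_card hW hx' (by omega),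
      RISK.plant_pre (fun n hn => RISK.blk_sub hx' (by omega) hn) hGi]
  calc coin (Fa m β a d ∩ G)
      ≤ coin (⋃ x ∈ Finset.range (2 ^ m d), (ones (RISK.blk β d x (m d + m a)) ∩ G)) := by
        refine measure_mono ?_
        rw [← Set.iUnion₂_inter]
        exact Set.inter_subset_inter_left _ RISK.Fa_sub
    _ ≤ ∑ x ∈ Finset.range (2 ^ m d), coin (ones (RISK.blk β d x (m d + m a)) ∩ G) :=
        measure_biUnion_finset_le _ _
    _ = ∑ _x ∈ Finset.range (2 ^ m d), (2⁻¹ : ENNReal) ^ (m d + m a) * coin G :=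
        Finset.sum_congr rfl h1
    _ = (2⁻¹ : ENNReal) ^ m a * coin G := by
        rw [Finset.sum_const, Finset.card_range, nsmul_eq_mul, pow_add]
        have h2 : ((2 ^ m d : ℕ) : ENNReal) * (2⁻¹ : ENNReal) ^ m d = 1 := by
          push_cast
          rw [← mul_pow, ENNReal.mul_inv_cancel (by norm_num) (by norm_num), one_pow]
        calc ((2 ^ m d : ℕ) : ENNReal) * ((2⁻¹ : ENNReal) ^ m d * (2⁻¹ : ENNReal) ^ m a * coin G)
            = (((2 ^ m d : ℕ) : ENNReal) * (2⁻¹ : ENNReal) ^ m d) * ((2⁻¹ : ENNReal) ^ m a * coin G) := by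
              ring
          _ = (2⁻¹ : ENNReal) ^ m a * coin G := by rw [h2, one_mul]

end Pool.Agent.RO
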