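import Pool.Agent.RO.PDefs

/-!
# Module WINDOW
-/

open MeasureTheory
open scoped BigOperators ENNReal

namespace Pool.Agent.RO.WINDOW

theorem measurable_plant (B : Finset ℕ) : Measurable (plant B) := by
  rw [measurable_pi_iff]
  intro n
  unfold plant
  by_cases h : n ∈ B
  · simp only [h, if_true]
    exact measurable_const
  · simp only [h, if_false]
    exact measurable_pi_apply n

/-- The positions of the first `m d + m a` bits of block `x` of window `d`. -/
noncomputable def BB (m : ℕ → ℕ) (β : ℕ → ℕ → ℕ → ℕ) (a d x : ℕ) : Finset ℕ :=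
  (Finset.range (m d + m a)).image (β d x)

variable {m : ℕ → ℕ} {β : ℕ → ℕ → ℕ → ℕ} {A : ℕ → Set Om} {a d : ℕ}

theorem lt_two_mul (hW : Windows m β) (had : a ≤ d) {i : ℕ} (hi : i < m d + m a) :
    i < 2 * m d := by
  have := hW.mono.monotone had
  omega

theorem card_BB (hW : Windows m β) (had : a ≤ d) {x : ℕ} (hx : x < 2 ^ m d) :
    (BB m β a d x).card = m d + m a := by
  rw [BB, Finset.card_image_of_injOn, Finset.card_range]
  intro i hi j hj hij
  rw [Finset.coe_range, Set.mem_Iio] at hi hj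
  exact (hW.inj d x i d x j hx (lt_two_mul hW had hi) hx (lt_two_mul hW had hj) hij).2.2

theorem BB_sub (hW : Windows m β) (had : a ≤ d) {x : ℕ} (hx : x < 2 ^ m d) {n : ℕ}
    (hn : n ∈ BB m β a d x) : n ∈ Win m β d := by
  rw [BB, Finset.mem_image] at hn
  obtain ⟨i, hi, rfl⟩ := hn
  rw [Finset.mem_range] at hi
  exact ⟨x, hx, i, lt_two_mul hW had hi, rfl⟩

theorem BB_disj (hW : Windows m β) (had : a ≤ d) {x x' : ℕ} (hx : x < 2 ^ m d)
    (hx' : x' < 2 ^ m d) {n : ℕ} (hn : n ∈ BB m β a d x) (hn' : n ∈ BB m β a d x') : x = x' := by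
  rw [BB, Finset.mem_image] at hn hn'
  obtain ⟨i, hi, rfl⟩ := hn
  obtain ⟨j, hj, hij⟩ := hn'
  rw [Finset.mem_range] at hi hj
  exact (hW.inj d x i d x' j hx (lt_two_mul hW had hi) hx' (lt_two_mul hW had hj) hij.symm).2.1

theorem mem_ones_iff {x : ℕ} {R : Om} :
    R ∈ ones (BB m β a d x) ↔ ∀ i < m d + m a, R (β d x i) = true := by
  constructor
  · intro h i hi
    exact h _ (Finset.mem_image_of_mem _ (Finset.mem_range.2 hi))
  · intro h n hn
    rw [BB, Finset.mem_image] at hn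
    obtain ⟨i, hi, rfl⟩ := hn
    exact h i (Finset.mem_range.1 hi)

theorem mem_Fa_iff {R : Om} : R ∈ Fa m β a d ↔ ∃ x < 2 ^ m d, R ∈ ones (BB m β a d x) := by
  constructor
  · rintro ⟨x, hx, h⟩
    exact ⟨x, hx, mem_ones_iff.2 h⟩
  · rintro ⟨x, hx, h⟩
    exact ⟨x, hx, mem_ones_iff.1 h⟩

theorem measurable_ones (B : Finset ℕ) : MeasurableSet (ones B) := by
  have h : ones B = ⋂ n ∈ B, {R : Om | R n = true} := by
    ext R
    simp [ones]
  rw [h]
  refine MeasurableSet.biInter B.countable_toSet fun n _ => ?_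
  exact measurableSet_eq_fun (measurable_pi_apply n) measurable_const

/-- Only the block `x` starts with ones. -/
def NN (m : ℕ → ℕ) (β : ℕ → ℕ → ℕ → ℕ) (a d x : ℕ) : Set Om :=
  {R | R ∈ ones (BB m β a d x) ∧ ∀ x' < 2 ^ m d, x' ≠ x → R ∉ ones (BB m β a d x')}

theorem measurable_NN (x : ℕ) : MeasurableSet (NN m β a d x) := by
  have h : NN m β a d x = ones (BB m β a d x) ∩
      ⋂ x' ∈ (Finset.range (2 ^ m d)).erase x, (ones (BB m β a d x'))ᶜ := by
    ext R
    simp only [NN, Set.mem_ofPred_eq, Set.mem_inter_iff, Set.mem_iInter, Finset.mem_erase,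
      Finset.mem_range, Set.mem_compl_iff]
    refine and_congr Iff.rfl ?_
    constructor
    · intro h x' hx'
      exact h x' hx'.2 hx'.1
    · intro h x' h1 h2
      exact h x' ⟨h2, h1⟩
  rw [h]
  exact (measurable_ones _).inter (MeasurableSet.biInter (Finset.countable_toSet _)
    fun x' _ => (measurable_ones _).compl)

theorem key (hP : Stmt_PLANT) (hW : Windows m β) (hL : Loc m β A) (had : a ≤ d)
    {G : Set Om} (hG : MeasurableSet G) (hGi : IndepOf (Win m β d) G)
    (hA : MeasurableSet (A d)) (hF : MeasurableSet (Fa m β a d)) :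
    (2 ^ m d : ℝ≥0∞) * ((2⁻¹ : ℝ≥0∞) ^ (m d + m a) * coin (A d ∩ G ∩ (Fa m β a d)ᶜ)) ≤
      2 * coin (A d ∩ Fa m β a d ∩ G) := by
  classical
  set C : Set Om := A d ∩ G ∩ (Fa m β a d)ᶜ with hC
  have hCm : MeasurableSet C := (hA.inter hG).inter hF.compl
  set H : ℕ → Set Om := fun x => C ∩ plant (BB m β a d x) ⁻¹' (A d) with hH
  have hHm : ∀ x, MeasurableSet (H x) := fun x => hCm.inter (measurable_plant _ hA)
  -- the events `E x`
  set E : ℕ → Set Om := fun x => A d ∩ G ∩ NN m β a d x with hE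
  have hEm : ∀ x, MeasurableSet (E x) := fun x => (hA.inter hG).inter (measurable_NN x)
  have h1 : ∀ x < 2 ^ m d, H x ⊆ plant (BB m β a d x) ⁻¹' (E x) := by
    intro x hx R hR
    obtain ⟨⟨⟨hR1, hR2⟩, hR3⟩, hR4⟩ := hR
    refine ⟨⟨hR4, ?_⟩, ?_, ?_⟩
    · refine (hGi R (plant (BB m β a d x) R) fun n hn => ?_).1 hR2
      rw [plant, if_neg (fun h => hn (BB_sub hW had hx h))]
    · intro n hn
      rw [plant, if_pos hn]
    · intro x' hx' hne h
      apply hR3
      rw [mem_Fa_iff]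
      refine ⟨x', hx', fun n hn => ?_⟩
      have h2 := h n hn
      rwa [plant, if_neg (fun h => hne (BB_disj hW had hx' hx hn h))] at h2
  have h2 : ∀ x < 2 ^ m d, (2⁻¹ : ℝ≥0∞) ^ (m d + m a) * coin (H x) ≤ coin (E x) := by
    intro x hx
    have h3 : E x ∩ ones (BB m β a d x) = E x := by
      rw [Set.inter_eq_left]
      intro R hR
      exact hR.2.1
    have h4 := hP (BB m β a d x) (E x) (hEm x)
    rw [h3, card_BB hW had hx] at h4
    rw [h4]
    exact mul_le_mul_right (measure_mono (h1 x hx)) _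
  have h3 : ∑ x ∈ Finset.range (2 ^ m d), coin (E x) ≤ coin (A d ∩ Fa m β a d ∩ G) := by
    rw [← measure_biUnion_finset]
    · refine measure_mono ?_
      intro R hR
      simp only [Set.mem_iUnion] at hR
      obtain ⟨x, hx, ⟨hR1, hR2⟩, hR3, -⟩ := hR
      exact ⟨⟨hR1, mem_Fa_iff.2 ⟨x, Finset.mem_range.1 hx, hR3⟩⟩, hR2⟩
    · intro x hx y hy hxy
      rw [Function.onFun, Set.disjoint_left]
      rintro R ⟨-, hR1, -⟩ ⟨-, -, hR2⟩
      exact hR2 x (Finset.mem_range.1 hx) hxy hR1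
    · intro x _
      exact hEm x
  -- counting
  have h4 : ∀ R ∈ C, (2 ^ m d : ℕ) ≤ 2 * ((Finset.range (2 ^ m d)).filter (fun x => R ∈ H x)).card
      := by
    intro R hR
    obtain ⟨Q, hQ1, -, hQ3⟩ := hL d R hR.1.1
    have h5 : ∀ x ∈ (Finset.range (2 ^ m d)).filter (fun x => R ∉ H x),
        ∃ n ∈ Q, n ∈ BB m β a d x := by
      intro x hx
      rw [Finset.mem_filter] at hx
      by_contra hc
      push Not at hc
      apply hx.2
      refine ⟨hR, hQ3 _ fun n hn => ?_⟩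
      rw [plant, if_neg (hc n hn)]
    choose! f hf1 hf2 using h5
    have h6 : ((Finset.range (2 ^ m d)).filter (fun x => R ∉ H x)).card ≤ Q.card := by
      refine Finset.card_le_card_of_injOn f hf1 ?_
      intro x hx y hy hxy
      have h7 := hf2 x hx
      have h8 := hf2 y hy
      rw [Finset.coe_filter, Set.mem_ofPred_eq, Finset.mem_range] at hx hy
      rw [hxy] at h7
      exact BB_disj hW had hx.1 hy.1 h7 h8
    have h7 := Finset.card_filter_add_card_filter_not (s := Finset.range (2 ^ m d))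
      (fun x => R ∈ H x)
    rw [Finset.card_range] at h7
    omega
  have h5 : (2 ^ m d : ℝ≥0∞) * coin C ≤ 2 * ∑ x ∈ Finset.range (2 ^ m d), coin (H x) := by
    calc (2 ^ m d : ℝ≥0∞) * coin C
        = ∫⁻ R, C.indicator (fun _ => (2 ^ m d : ℝ≥0∞)) R ∂coin := by
          rw [lintegral_indicator_const hCm]
      _ ≤ ∫⁻ R, 2 * ∑ x ∈ Finset.range (2 ^ m d), (H x).indicator (fun _ => (1 : ℝ≥0∞)) R ∂coin := by
          refine lintegral_mono fun R => ?_
          by_cases hR : R ∈ C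
          · rw [Set.indicator_of_mem hR]
            have h6 : ∑ x ∈ Finset.range (2 ^ m d), (H x).indicator (fun _ => (1 : ℝ≥0∞)) R =
                (((Finset.range (2 ^ m d)).filter (fun x => R ∈ H x)).card : ℝ≥0∞) := by
              simp only [Set.indicator_apply]
              rw [Finset.sum_boole]
            rw [h6]
            have h7 : (((2 ^ m d : ℕ) : ℕ) : ℝ≥0∞) ≤
                ((2 * ((Finset.range (2 ^ m d)).filter (fun x => R ∈ H x)).card : ℕ) : ℝ≥0∞) :=
              Nat.cast_le.2 (h4 R hR)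
            rw [Nat.cast_mul, Nat.cast_pow, Nat.cast_ofNat] at h7
            exact h7
          · rw [Set.indicator_of_notMem hR]
            exact bot_le
      _ = 2 * ∑ x ∈ Finset.range (2 ^ m d), coin (H x) := by
          rw [lintegral_const_mul', lintegral_finsetSum]
          · congr 1
            refine Finset.sum_congr rfl fun x _ => ?_
            rw [lintegral_indicator_const (hHm x), one_mul]
          · intro x _
            exact measurable_const.indicator (hHm x)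
          · exact ENNReal.ofNat_ne_top
  calc (2 ^ m d : ℝ≥0∞) * ((2⁻¹ : ℝ≥0∞) ^ (m d + m a) * coin C)
      = (2⁻¹ : ℝ≥0∞) ^ (m d + m a) * ((2 ^ m d : ℝ≥0∞) * coin C) := by ring
    _ ≤ (2⁻¹ : ℝ≥0∞) ^ (m d + m a) * (2 * ∑ x ∈ Finset.range (2 ^ m d), coin (H x)) :=
        mul_le_mul_right h5 _
    _ = 2 * ∑ x ∈ Finset.range (2 ^ m d), (2⁻¹ : ℝ≥0∞) ^ (m d + m a) * coin (H x) := by
        rw [← Finset.mul_sum]
        ring
    _ ≤ 2 * ∑ x ∈ Finset.range (2 ^ m d), coin (E x) := by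
        refine mul_le_mul_right (Finset.sum_le_sum fun x hx => h2 x (Finset.mem_range.1 hx)) _
    _ ≤ 2 * coin (A d ∩ Fa m β a d ∩ G) := mul_le_mul_right h3 _

end Pool.Agent.RO.WINDOW

namespace Pool.Agent.RO

theorem WINDOW_thm (hP : Stmt_PLANT) (hM : Stmt_MEAS) : Stmt_WINDOW := by
  intro m β A hW hL a d had G hG hGi
  obtain ⟨hA, -, -, -, hF, -⟩ := hM m β A hW hL
  have h1 := WINDOW.key hP hW hL had hG hGi (hA d) (hF a d)
  have h2 : (2 ^ m d : ℝ≥0∞) * ((2⁻¹ : ℝ≥0∞) ^ (m d + m a) * coin (A d ∩ G ∩ (Fa m β a d)ᶜ)) =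
      (2⁻¹ : ℝ≥0∞) ^ m a * coin (A d ∩ G ∩ (Fa m β a d)ᶜ) := by
    rw [pow_add, ← mul_assoc, ← mul_assoc, ← mul_pow, ENNReal.mul_inv_cancel (by norm_num)
      ENNReal.ofNat_ne_top, one_pow, one_mul]
  rw [h2] at h1
  have h3 : coin (A d ∩ G) = coin (A d ∩ G ∩ Fa m β a d) + coin (A d ∩ G ∩ (Fa m β a d)ᶜ) := by
    rw [← measure_inter_add_sdiff (A d ∩ G) (hF a d), Set.sdiff_eq]
  have h4 : A d ∩ G ∩ Fa m β a d = A d ∩ Fa m β a d ∩ G := by
    rw [Set.inter_right_comm]
  calc (2⁻¹ : ℝ≥0∞) ^ m a * coin (A d ∩ G)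
      = (2⁻¹ : ℝ≥0∞) ^ m a * coin (A d ∩ Fa m β a d ∩ G) +
          (2⁻¹ : ℝ≥0∞) ^ m a * coin (A d ∩ G ∩ (Fa m β a d)ᶜ) := by
        rw [h3, h4, mul_add]
    _ ≤ 1 * coin (A d ∩ Fa m β a d ∩ G) + 2 * coin (A d ∩ Fa m β a d ∩ G) := by
        refine add_le_add (mul_le_mul_left ?_ _) h1
        refine pow_le_one₀ bot_le ?_
        rw [ENNReal.inv_le_one]
        norm_num
    _ = 3 * coin (A d ∩ Fa m β a d ∩ G) := by
        rw [← add_mul]
        norm_num

end Pool.Agent.RO
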