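import Pool.Agent.RO.PLANT
import Pool.Agent.RO.MEAS
import Pool.Agent.RO.RISK
import Pool.Agent.RO.WINDOW
import Pool.Agent.RO.PROC
import Pool.Agent.RO.APPROX
import Pool.Agent.RO.CORE

/-! # The probabilistic theorem, assembled -/

namespace Pool.Agent.RO

theorem core : Stmt_CORE :=
  CORE_thm PROB_thm MEAS_thm
    (PROC_thm PROB_thm MEAS_thm (RISK_thm PLANT_thm) (WINDOW_thm PLANT_thm MEAS_thm))
    (APPROX_thm PROB_thm)

end Pool.Agent.RO
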