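import Pool.Agent.RO.Cst

/-!
# Random oracles: PRES, the theorem for presented theories
-/

open MeasureTheory

namespace Pool.Agent.RO

open Pool.Agent.H19 (T PolyTime PolyDec PolyNat Tm scons bn bl ofBool encL tif)

namespace PRES

theorem tow_strictMono (hW : Stmt_WINSYS) : StrictMono tow := by
  have h := (hW ⟨fun _ => false, OCode.id, 0, OCode.id, 0, Fm.bot, fun x => x, 0, 0, 0⟩).mono
  intro a b hab
  have := h hab
  simpa [Par.m] using this

end PRES

open PRES in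
theorem PRES_thm (hC : Stmt_CORE) (hW : Stmt_WINSYS) (hL : Stmt_LOCAL) (hA : Stmt_ACCFF)
    (hF : Stmt_FFACC) (hP : Stmt_PROGRAM) (hS : Stmt_SAME) (hE : Stmt_ERROR) : Stmt_PRES := by
  intro μ hμ P hPf A cS kS c0 k0
  obtain ⟨K, hK0, hK⟩ := hE μ hμ
  obtain ⟨fP, hfP, hfPe⟩ := hPf.poly
  set p : Par := ⟨A, cS, kS, c0, k0, μ, fP, 4 * (kS + 1), K, 40 * (kS + 1)⟩ with hp
  have hgood : p.Good := ⟨rfl, (tow_strictMono hW).id_le _⟩
  choose c κ hcκ using fun j => hP p j hfP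
  set q : ℕ → T := fun j => T.node (c j).enc (T.unary (κ j)) with hq
  have hCR := hC p.m p.β (fun j => p.Acc j (q j)) (hW p) (fun j => hL p hgood j (q j))
  filter_upwards [hCR] with R hR hHS hH0 hcS hc0
  have hO : join A R ∈ p.H := ⟨hHS, hH0⟩
  rcases hR with ⟨j, d, hAcc, hFF⟩ | ⟨j, hnoF, hinf⟩
  · exfalso
    obtain ⟨v, hv, hvs⟩ := hF p hgood j (q j) R d hFF
    obtain ⟨E, -, hEp⟩ := hAcc
    exact hK P hPf p rfl le_rfl j (join A R) (c j) (κ j) (hfPe _ _) (hcκ j _ hO).2 hcS v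
      (p.m (j + d)) ((hW p).pos (j + d)) hvs hv ⟨_, hEp⟩
  · refine ⟨c j, κ j, (hcκ j _ hO).1, ?_, K * (4 * (kS + 1)), by positivity, fun N => ?_⟩
    · refine hS p j (q j) (join A R) (c j) (κ j) (hcκ j _ hO).2 hc0 fun v hv => ?_
      obtain ⟨d, hd⟩ := hA p j (q j) R v hv
      exact hnoF d hd
    · obtain ⟨d, hd, hdA⟩ := hinf N
      refine ⟨K * p.m (j + d), ?_, fun π hπ => ?_⟩
      · have h1 : j + d ≤ p.m (j + d) := (hW p).mono.id_le _
        have h2 : p.m (j + d) ≤ K * p.m (j + d) := Nat.le_mul_of_pos_left _ hK0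
        omega
      · by_contra hlt
        rw [not_lt, Nat.mul_div_mul_left _ _ hK0] at hlt
        refine hdA ⟨encProof π, hlt, ?_⟩
        rw [decProof_enc]
        have hs : p.sent (q j) (p.m (j + d)) = rfn (P (c j) (κ j)) μ (K * p.m (j + d)) := by
          simp only [Par.sent, hp, hq, hfPe, decFm_enc]
        rw [hs]
        exact hπ

end Pool.Agent.RO
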