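import Pool.Agent.RO.Cst

/-!
# Modules SAME and ERROR

If no description of a failure is accepted then the program presents `T₀`; if a short description
is accepted then a consistent `S` does not prove the reflection sentence.
-/

namespace Pool.Agent.RO

open Pool.Agent.H19 (T PolyTime PolyDec PolyNat Tm scons bn bl ofBool encL tif vec3 vec4)

namespace SAME

/-- A sentence `falsum v` is false in every structure. -/
theorem falsum_false {M : Type} (A : Str M) (v : T) (w : ℕ → M) : ¬ (falsum v).sat A w := by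
  intro h
  exact h rfl

/-- A consistent theory does not contain a sentence `falsum v`. -/
theorem falsum_notMem {Th : Set Fm} (h : Consistent Th) (v : T) : falsum v ∉ Th := by
  intro hv
  obtain ⟨M, A, hA⟩ := h
  exact falsum_false A v (fun _ => A.zero) (hA _ hv _)

/-- The description `v` is accepted if and only if `falsum v` is wanted by the first clause. -/
theorem want_of_acc {p : Par} {j : ℕ} {q : T} {O : Om} {v : T} (h : p.AccV j q O v) :
    p.Want j q O (falsum v).enc := by
  refine Or.inl ⟨?_, ?_, ?_⟩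
  · rw [unfalsum_enc]
  · rw [unfalsum_enc]; exact h.1
  · rw [unfalsum_enc]; exact h.2

end SAME

theorem SAME_thm : Stmt_SAME := by
  intro p j q O c κ hacc hcons hno
  ext φ
  show (φ ∈ S12 ∨ φ ∈ diag O ∨ Accepts O c κ φ.enc) ↔
    (φ ∈ S12 ∨ φ ∈ diag O ∨ Accepts O p.c0 p.k0 φ.enc)
  refine or_congr Iff.rfl (or_congr Iff.rfl ?_)
  rw [hacc]
  constructor
  · rintro (h | h)
    · exact absurd ⟨h.2.1, h.2.2⟩ (hno _)
    · exact h.2
  · intro h
    refine Or.inr ⟨?_, h⟩
    rintro ⟨h1, _⟩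
    have h2 : falsum (unfalsum φ.enc) = φ := Fm.enc_inj.1 h1
    have h3 : φ ∈ p.T0 O := Or.inr (Or.inr h)
    rw [← h2] at h3
    exact SAME.falsum_notMem hcons _ h3

theorem ERROR_thm : Stmt_ERROR := by
  intro μ hμ
  obtain ⟨e₀, z₀, hfalse⟩ := hμ.false_instance
  let φ₀ : Fm := inst3 μ e₀ 0 z₀
  refine ⟨7 * φ₀.enc.size + e₀.size + z₀.size + 5000, by omega, ?_⟩
  intro P hP p hpμ hK j O c κ hfP hacc hcons v M hM hv hAcc hprov
  have hmem : falsum v ∈ theory O c κ := by
    refine Or.inr (Or.inr ((hacc _).2 ?_))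
    exact SAME.want_of_acc hAcc
  have hsent : p.sent (T.node c.enc (T.unary κ)) M = rfn (P c κ) μ (p.K * M) := by
    simp only [Par.sent, hfP, decFm_enc, hpμ]
  rw [hsent] at hprov
  have hsize := refute_size v φ₀
  have hnum := H19.T.num_size (encProof (refute v φ₀))
  have hKM : (7 * φ₀.enc.size + e₀.size + z₀.size + 5000) * M ≤ p.K * M :=
    Nat.mul_le_mul_right _ hK
  have hKM2 : 7 * φ₀.enc.size + e₀.size + z₀.size + 3000 + 2000 * M ≤
      (7 * φ₀.enc.size + e₀.size + z₀.size + 5000) * M := by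
    obtain ⟨M', rfl⟩ : ∃ M', M = M' + 1 := ⟨M - 1, by omega⟩
    nlinarith [Nat.zero_le ((7 * φ₀.enc.size + e₀.size + z₀.size) * M')]
  have hcorrect : (P c κ).sat (stdN O) (vec4 e₀ 0 z₀ (encProof (refute v φ₀)).num) :=
    (hP.correct O c κ e₀ 0 z₀ _).2 ⟨_, rfl, refute_isProof hmem φ₀⟩
  have hPb : (P c κ).bdd = true := (Fm.bdd_of _).1 (hP.delta c κ).1
  have hμb : μ.bdd = true := (Fm.bdd_of _).1 hμ.1
  have hSS : S12 ⊆ p.S O := fun φ hφ => Or.inl hφ
  have hDD : diag O ⊆ p.S O := fun φ hφ => Or.inr (Or.inl hφ)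
  have h1 := rfn_sound hSS hDD hcons hPb hμb hprov (e := e₀) (x := 0) (z := z₀)
    (u := (encProof (refute v φ₀)).num)
    (by omega) (by simp) (by omega)
    (by rw [hnum]; omega) hcorrect
  refine hfalse O ((Fm.sat_congr_below (stdN O) μ hμ.2.1 (fun i hi => ?_)).1 h1)
  rcases i with _ | _ | _ | i
  · rfl
  · rfl
  · rfl
  · omega

end Pool.Agent.RO
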