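import Pool.Agent.RO.ProbAll
import Pool.Agent.RO.HYPS
import Pool.Agent.RO.WINSYS
import Pool.Agent.RO.DIAGDEC
import Pool.Agent.RO.D0POLY
import Pool.Agent.RO.ITEMS
import Pool.Agent.RO.LOCAL
import Pool.Agent.RO.ACCFF
import Pool.Agent.RO.FFACC
import Pool.Agent.RO.SAME
import Pool.Agent.RO.PROGRAM
import Pool.Agent.RO.PRES
import Pool.Agent.RO.MAIN

/-! # The theorem on reflection relative to a random oracle, assembled -/

namespace Pool.Agent.RO

theorem main : Stmt_MAIN :=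
  MAIN_thm CNT_thm DET_thm
    (PRES_thm core WINSYS_thm (LOCAL_thm HYPS_thm EVLOC_thm) (ACCFF_thm HYPS_thm WINSYS_thm)
      (FFACC_thm HYPS_thm WINSYS_thm) (PROGRAM_thm D0POLY_thm ITEMS_thm DIAGDEC_thm)
      SAME_thm ERROR_thm)

end Pool.Agent.RO
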