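import Mathlib

/-!
# Random oracles: the probabilistic part, definitions and statements

`Om = ℕ → Bool` with the fair coin measure.  A family of disjoint windows of bit positions: the
window `d` consists of `2 ^ m d` blocks, the bits of block `x` being at the positions
`β d x i`, `i < 2 * m d`.
-/

open MeasureTheory

namespace Pool.Agent.RO

/-- Oracles: sets of natural numbers. -/
abbrev Om : Type := ℕ → Bool

/-- The fair coin measure on oracles: all bits are independent and uniformly distributed. -/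
noncomputable def coin : Measure Om :=
  Measure.infinitePi (fun _ : ℕ => (PMF.uniformOfFintype Bool).toMeasure)

/-- Set the bits in `B` to `true`. -/
def plant (B : Finset ℕ) (R : Om) : Om := fun n => if n ∈ B then true else R n

/-- All bits in `B` are `true`. -/
def ones (B : Finset ℕ) : Set Om := {R | ∀ n ∈ B, R n = true}

/-- The event `E` does not depend on the bits in `B`. -/
def IndepOf (B : Set ℕ) (E : Set Om) : Prop :=
  ∀ R R' : Om, (∀ n, n ∉ B → R n = R' n) → (R ∈ E ↔ R' ∈ E)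

/-- The positions of the window `d`. -/
def Win (m : ℕ → ℕ) (β : ℕ → ℕ → ℕ → ℕ) (d : ℕ) : Set ℕ :=
  {n | ∃ x < 2 ^ m d, ∃ i < 2 * m d, n = β d x i}

/-- A system of windows. -/
structure Windows (m : ℕ → ℕ) (β : ℕ → ℕ → ℕ → ℕ) : Prop where
  mono : StrictMono m
  pos : ∀ d, 1 ≤ m d
  inj : ∀ d x i d' x' i', x < 2 ^ m d → i < 2 * m d → x' < 2 ^ m d' → i' < 2 * m d' →
    β d x i = β d' x' i' → d = d' ∧ x = x' ∧ i = i'

/-- The acceptance event `A d` of window `d` is witnessed by few bits, none of them in a later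
window. -/
def Loc (m : ℕ → ℕ) (β : ℕ → ℕ → ℕ → ℕ) (A : ℕ → Set Om) : Prop :=
  ∀ d, ∀ R ∈ A d, ∃ Q : Finset ℕ, 2 * Q.card ≤ 2 ^ m d ∧
    (∀ n ∈ Q, ∀ d', d < d' → n ∉ Win m β d') ∧ ∀ R' : Om, (∀ n ∈ Q, R' n = R n) → R' ∈ A d

open Classical in
/-- The start of the current run of acceptances: the least `a ≤ d` such that all windows
`a, …, d - 1` are accepted. -/
noncomputable def st (A : ℕ → Set Om) (R : Om) : ℕ → ℕ
  | 0 => 0
  | d + 1 => if R ∈ A d then st A R d else d + 1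

/-- Some block of the window `d` starts with `m d + m a` ones. -/
def Fa (m : ℕ → ℕ) (β : ℕ → ℕ → ℕ → ℕ) (a d : ℕ) : Set Om :=
  {R | ∃ x < 2 ^ m d, ∀ i < m d + m a, R (β d x i) = true}

/-- The failure event of window `d`: some block starts with `m d + m a` ones, where `a` is the
start of the current run. -/
def FF (m : ℕ → ℕ) (β : ℕ → ℕ → ℕ → ℕ) (A : ℕ → Set Om) (d : ℕ) : Set Om :=
  {R | R ∈ Fa m β (st A R d) d}

/-- There is an error: a window which is accepted and fails. -/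
def Err (m : ℕ → ℕ) (β : ℕ → ℕ → ℕ → ℕ) (A : ℕ → Set Om) : Set Om :=
  {R | ∃ d, R ∈ A d ∧ R ∈ FF m β A d}

/-- No error before window `d`. -/
def NoErr (m : ℕ → ℕ) (β : ℕ → ℕ → ℕ → ℕ) (A : ℕ → Set Om) (d : ℕ) : Set Om :=
  {R | ∀ d' < d, ¬ (R ∈ A d' ∧ R ∈ FF m β A d')}

/-! ### The statements of the modules -/

/-- `coin` is a probability measure. -/
def Stmt_PROB : Prop := IsProbabilityMeasure coin

/-- PLANT: planting ones. -/
def Stmt_PLANT : Prop := ∀ (B : Finset ℕ) (E : Set Om), MeasurableSet E →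
  coin (E ∩ ones B) = (2⁻¹ : ENNReal) ^ B.card * coin (plant B ⁻¹' E)

/-- MEAS: measurability and independence of later windows. -/
def Stmt_MEAS : Prop := ∀ (m : ℕ → ℕ) (β : ℕ → ℕ → ℕ → ℕ) (A : ℕ → Set Om), Windows m β →
  Loc m β A →
  (∀ d, MeasurableSet (A d)) ∧ (∀ d d', d < d' → IndepOf (Win m β d') (A d)) ∧
  (∀ a d, MeasurableSet {R | st A R d = a}) ∧
  (∀ a d d', d ≤ d' → IndepOf (Win m β d') {R | st A R d = a}) ∧
  (∀ a d, MeasurableSet (Fa m β a d)) ∧
  (∀ a d d', a ≤ d → d < d' → IndepOf (Win m β d') (Fa m β a d)) ∧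
  (∀ d, MeasurableSet (FF m β A d)) ∧
  (∀ d d', d < d' → IndepOf (Win m β d') (FF m β A d)) ∧
  (∀ d, MeasurableSet (NoErr m β A d)) ∧
  (∀ d d', d ≤ d' → IndepOf (Win m β d') (NoErr m β A d)) ∧ MeasurableSet (Err m β A) ∧
  (∀ R d, st A R d ≤ d)

/-- RISK: the probability of a failure at level `a`, given the past. -/
def Stmt_RISK : Prop := ∀ (m : ℕ → ℕ) (β : ℕ → ℕ → ℕ → ℕ), Windows m β →
  ∀ (a d : ℕ), a ≤ d → ∀ G : Set Om, MeasurableSet G → IndepOf (Win m β d) G →
    coin (Fa m β a d ∩ G) ≤ (2⁻¹ : ENNReal) ^ m a * coin G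

/-- WINDOW: if window `d` is accepted with sizeable probability given the past, then an error has
sizeable probability. -/
def Stmt_WINDOW : Prop := ∀ (m : ℕ → ℕ) (β : ℕ → ℕ → ℕ → ℕ) (A : ℕ → Set Om), Windows m β →
  Loc m β A → ∀ (a d : ℕ), a ≤ d → ∀ G : Set Om, MeasurableSet G → IndepOf (Win m β d) G →
    (2⁻¹ : ENNReal) ^ m a * coin (A d ∩ G) ≤ 3 * coin (A d ∩ Fa m β a d ∩ G)

/-- PROC: the analysis of one process of windows. -/
def Stmt_PROC : Prop := ∀ (m : ℕ → ℕ) (β : ℕ → ℕ → ℕ → ℕ) (A : ℕ → Set Om), Windows m β →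
  Loc m β A →
  (∀ G : Set Om, MeasurableSet G → (∀ d, IndepOf (Win m β d) G) →
    coin (G ∩ {R | R ∉ Err m β A ∧ ∃ d, R ∈ FF m β A d}) ≤
      2 * (2⁻¹ : ENNReal) ^ m 0 + 3 * coin (G ∩ Err m β A)) ∧
  (∀ᵐ R ∂coin, R ∉ Err m β A → ∀ D, ∃ d ≥ D, R ∉ A d)

/-- APPROX: every measurable set is approximated by sets depending on finitely many bits. -/
def Stmt_APPROX : Prop := ∀ (E : Set Om), MeasurableSet E → ∀ η : ENNReal, 0 < η →
  ∃ (N : ℕ) (G : Set Om), MeasurableSet G ∧ IndepOf {n | N ≤ n} G ∧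
    coin (E \ G) ≤ η ∧ coin (G \ E) ≤ η

/-- CORE: the probabilistic theorem. For every `j` there is a process `A j` on the windows
`j, j + 1, …`. Almost surely there is an error in some process, or some process never fails
although infinitely many of its windows are not accepted. -/
def Stmt_CORE : Prop := ∀ (m : ℕ → ℕ) (β : ℕ → ℕ → ℕ → ℕ) (A : ℕ → ℕ → Set Om), Windows m β →
  (∀ j, Loc (fun d => m (j + d)) (fun d => β (j + d)) (A j)) →
  ∀ᵐ R ∂coin, (∃ j, R ∈ Err (fun d => m (j + d)) (fun d => β (j + d)) (A j)) ∨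
    ∃ j, (∀ d, R ∉ FF (fun d => m (j + d)) (fun d => β (j + d)) (A j) d) ∧
      ∀ D, ∃ d ≥ D, R ∉ A j d

end Pool.Agent.RO
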