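import Pool.Agent.Lib_helper19.Binary
import Pool.Agent.Lib_helper19.CheckP
import Pool.Agent.RO.PDefs

/-!
# Bounded arithmetic with an oracle, and finite uniform reflection relative to an oracle

The language of `S^1_2` with an additional unary predicate symbol for an oracle `O ⊆ ℕ`, the
theory `S^1_2(O)`, the diagram of `O`, polynomial time relative to `O`, the class `𝒯` relative to
`O` and the reflection sentences.  Trees, programs with cost, polynomial time (`T`, `Code`,
`Eval`, `PolyTime`) and terms (`Tm`) are those of `Lib_helper19`.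
-/

namespace Pool.Agent.RO

open Pool.Agent.H19 (T PolyTime Tm scons bn ofBool)

/-- Formulas of the language of `S^1_2` with one more unary predicate symbol `rel`; the other
connectives are abbreviations. In `all φ` the quantified variable is `var 0` and the variable `i`
of the context is `var (i + 1)`. -/
inductive Fm : Type
  | bot : Fm
  | eq : Tm → Tm → Fm
  | le : Tm → Tm → Fm
  | rel : Tm → Fm
  | imp : Fm → Fm → Fm
  | all : Fm → Fm
  deriving DecidableEq

namespace Fm

/-- Raise all free variables with index at least `c` by `d`. -/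
def shift (c d : ℕ) : Fm → Fm
  | bot => bot
  | eq s t => eq (s.shift c d) (t.shift c d)
  | le s t => le (s.shift c d) (t.shift c d)
  | rel t => rel (t.shift c d)
  | imp φ ψ => imp (shift c d φ) (shift c d ψ)
  | all φ => all (shift (c + 1) d φ)

/-- `φ.inst k t`: substitute `t` for the free variable `k` in `φ` and lower the free variables
above `k` by one. -/
def inst (k : ℕ) (t : Tm) : Fm → Fm
  | bot => bot
  | eq r s => eq (r.inst k t) (s.inst k t)
  | le r s => le (r.inst k t) (s.inst k t)
  | rel s => rel (s.inst k t)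
  | imp φ ψ => imp (inst k t φ) (inst k t ψ)
  | all φ => all (inst (k + 1) t φ)

/-- All free variables of the formula are below `k`. -/
def fvBelow (k : ℕ) : Fm → Prop
  | bot => True
  | eq s t => s.fvBelow k ∧ t.fvBelow k
  | le s t => s.fvBelow k ∧ t.fvBelow k
  | rel t => t.fvBelow k
  | imp φ ψ => fvBelow k φ ∧ fvBelow k ψ
  | all φ => fvBelow (k + 1) φ

/-- Negation. -/
def neg (φ : Fm) : Fm := imp φ bot
/-- Conjunction. -/
def and (φ ψ : Fm) : Fm := neg (imp φ (neg ψ))
/-- Disjunction. -/
def or (φ ψ : Fm) : Fm := imp (neg φ) ψ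
/-- Equivalence. -/
def iff (φ ψ : Fm) : Fm := and (imp φ ψ) (imp ψ φ)

/-- The formula is of the form `x ≤ t → ψ`, where `x` is the variable `0` and `t` is a term
without `x`; so `all` of it is a bounded quantification. -/
def guarded : Fm → Bool
  | imp (le (Tm.var 0) t) _ => !(t.occurs 0)
  | _ => false

/-- The formula is of the form `x ≤ |t| → ψ`, where `x` is the variable `0` and `t` is a term
without `x`; so `all` of it is a sharply bounded quantification. -/
def sharp : Fm → Bool
  | imp (le (Tm.var 0) (Tm.len t)) _ => !(t.occurs 0)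
  | _ => false

mutual
/-- The class `Σ^b_1(O)`: atomic formulas; `φ → ψ` with `φ` in `Π^b_1(O)` and `ψ` in `Σ^b_1(O)`;
sharply bounded universal quantifications of formulas in `Σ^b_1(O)`. -/
def isSigma : Fm → Bool
  | bot => true
  | eq _ _ => true
  | le _ _ => true
  | rel _ => true
  | imp φ ψ => isPi φ && isSigma ψ
  | all φ => sharp φ && isSigma φ
/-- The class `Π^b_1(O)`: atomic formulas; `φ → ψ` with `φ` in `Σ^b_1(O)` and `ψ` in `Π^b_1(O)`;
bounded universal quantifications of formulas in `Π^b_1(O)`. -/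
def isPi : Fm → Bool
  | bot => true
  | eq _ _ => true
  | le _ _ => true
  | rel _ => true
  | imp φ ψ => isSigma φ && isPi ψ
  | all φ => guarded φ && isPi φ
end

/-- Formulas without the oracle symbol as formulas. -/
def emb : H19.Fm → Fm
  | H19.Fm.bot => bot
  | H19.Fm.eq s t => eq s t
  | H19.Fm.le s t => le s t
  | H19.Fm.imp φ ψ => imp (emb φ) (emb ψ)
  | H19.Fm.all φ => all (emb φ)

end Fm

/-! ### Structures and truth -/

/-- Structures for the language, with equality read as equality. -/
structure Str (M : Type) extends H19.Str M where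
  rel : M → Prop

/-- The standard model with the oracle `O`. -/
def stdN (O : Om) : Str ℕ := { H19.stdN with rel := fun n => O n = true }

/-- Truth of a formula. -/
def Fm.sat {M : Type} (A : Str M) : Fm → (ℕ → M) → Prop
  | Fm.bot, _ => False
  | Fm.eq s t, v => s.val A.toStr v = t.val A.toStr v
  | Fm.le s t, v => A.le (s.val A.toStr v) (t.val A.toStr v)
  | Fm.rel t, v => A.rel (t.val A.toStr v)
  | Fm.imp φ ψ, v => Fm.sat A φ v → Fm.sat A ψ v
  | Fm.all φ, v => ∀ a : M, Fm.sat A φ (scons a v)

/-- `A` is a model of the set of formulas `Th` (free variables are read universally). -/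
def Str.Models {M : Type} (A : Str M) (Th : Set Fm) : Prop := ∀ φ ∈ Th, ∀ v, φ.sat A v

/-- Consistency (in the form: having a model). -/
def Consistent (Th : Set Fm) : Prop := ∃ (M : Type) (A : Str M), A.Models Th

/-! ### The theory `S^1_2(O)` and the diagram of `O` -/

/-- The 32 axioms BASIC of Buss (they do not contain the oracle symbol). -/
def basicList : List Fm := H19.basicList.map Fm.emb

/-- Polynomial induction for `φ` in the variable `0`:
`∀x (x = 0 → φ(x)) → ∀x ∀y (y = ⌊x/2⌋ → φ(y) → φ(x)) → ∀x φ(x)`. -/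
def pind (φ : Fm) : Fm :=
  Fm.imp (Fm.all (Fm.imp (Fm.eq (Tm.var 0) Tm.zero) φ))
    (Fm.imp (Fm.all (Fm.all (Fm.imp (Fm.eq (Tm.var 0) (Tm.half (Tm.var 1)))
      (Fm.imp (φ.shift 1 1) (φ.shift 0 1)))))
      (Fm.all φ))

/-- The theory `S^1_2(O)`: BASIC and polynomial induction for `Σ^b_1(O)` formulas. -/
def S12 : Set Fm := {φ | φ ∈ basicList ∨ ∃ ψ : Fm, ψ.isSigma = true ∧ φ = pind ψ}

/-- The diagram of the oracle: the true sentences among `rel n̄` and `¬ rel n̄` (binary
numerals). -/
def diag (O : Om) : Set Fm :=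
  {φ | ∃ n : ℕ, (O n = true ∧ φ = Fm.rel (Tm.numeral n)) ∨
    (O n = false ∧ φ = Fm.neg (Fm.rel (Tm.numeral n)))}

/-! ### Proofs -/

/-- Lines of a proof in a Hilbert calculus for first-order logic with equality, together with
their justification. -/
inductive Step : Type
  /-- an axiom `φ` of the theory -/
  | hyp : Fm → Step
  /-- `φ → ψ → φ` -/
  | axK : Fm → Fm → Step
  /-- `(φ → ψ → χ) → (φ → ψ) → φ → χ` -/
  | axS : Fm → Fm → Fm → Step
  /-- `((φ → ⊥) → ⊥) → φ` -/
  | dne : Fm → Step
  /-- `∀x φ → φ(t)` -/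
  | allE : Fm → Tm → Step
  /-- `∀x (φ → ψ) → ∀x φ → ∀x ψ` -/
  | allK : Fm → Fm → Step
  /-- `φ → ∀x φ`, `x` not free in `φ` -/
  | vac : Fm → Step
  /-- `t = t` -/
  | refl : Tm → Step
  /-- `s = t → φ(s) → φ(t)` -/
  | subst : Fm → Tm → Tm → Step
  /-- `ψ`, from the earlier lines `φ → ψ` and `φ` -/
  | mp : Fm → Fm → Step
  /-- `∀x φ`, from the earlier line `φ` -/
  | gen : Fm → Step
  deriving DecidableEq

/-- The formula proved in a line. -/
def Step.concl : Step → Fm
  | hyp φ => φ
  | axK φ ψ => Fm.imp φ (Fm.imp ψ φ)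
  | axS φ ψ χ => Fm.imp (Fm.imp φ (Fm.imp ψ χ)) (Fm.imp (Fm.imp φ ψ) (Fm.imp φ χ))
  | dne φ => Fm.imp (Fm.imp (Fm.imp φ Fm.bot) Fm.bot) φ
  | allE φ t => Fm.imp (Fm.all φ) (φ.inst 0 t)
  | allK φ ψ => Fm.imp (Fm.all (Fm.imp φ ψ)) (Fm.imp (Fm.all φ) (Fm.all ψ))
  | vac φ => Fm.imp φ (Fm.all (φ.shift 0 1))
  | refl t => Fm.eq t t
  | subst φ s t => Fm.imp (Fm.eq s t) (Fm.imp (φ.inst 0 s) (φ.inst 0 t))
  | mp _ ψ => ψ
  | gen φ => Fm.all φ

/-- The line is correct, given the theory and the list of formulas proved before it. -/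
def Step.ok (Th : Set Fm) (prev : List Fm) : Step → Prop
  | hyp φ => φ ∈ Th
  | mp φ ψ => Fm.imp φ ψ ∈ prev ∧ φ ∈ prev
  | gen φ => φ ∈ prev
  | _ => True

/-- All lines of `π` are correct when the formulas in `prev` have been proved before, and the
last line proves `φ`. -/
def Derives (Th : Set Fm) : List Fm → List Step → Fm → Prop
  | prev, [], φ => prev.head? = some φ
  | prev, s :: π, φ => s.ok Th prev ∧ Derives Th (s.concl :: prev) π φ

/-- `π` is a proof of `φ` from `Th`. -/
def IsProof (Th : Set Fm) (π : List Step) (φ : Fm) : Prop := Derives Th [] π φ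

/-- Provability. -/
def Provable (Th : Set Fm) (φ : Fm) : Prop := ∃ π, IsProof Th π φ

/-! ### Codes -/

/-- Formulas as trees. -/
def Fm.enc : Fm → T
  | Fm.bot => T.node (T.unary 8) (T.node T.leaf T.leaf)
  | Fm.eq s t => T.node (T.unary 9) (T.node s.enc t.enc)
  | Fm.le s t => T.node (T.unary 10) (T.node s.enc t.enc)
  | Fm.imp φ ψ => T.node (T.unary 11) (T.node φ.enc ψ.enc)
  | Fm.all φ => T.node (T.unary 12) (T.node φ.enc T.leaf)
  | Fm.rel t => T.node (T.unary 13) (T.node t.enc T.leaf)

/-- Proof lines as trees. -/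
def Step.enc : Step → T
  | hyp φ => T.node (T.unary 0) φ.enc
  | axK φ ψ => T.node (T.unary 1) (T.node φ.enc ψ.enc)
  | axS φ ψ χ => T.node (T.unary 2) (T.node φ.enc (T.node ψ.enc χ.enc))
  | dne φ => T.node (T.unary 3) φ.enc
  | allE φ t => T.node (T.unary 4) (T.node φ.enc t.enc)
  | allK φ ψ => T.node (T.unary 5) (T.node φ.enc ψ.enc)
  | vac φ => T.node (T.unary 6) φ.enc
  | refl t => T.node (T.unary 7) t.enc
  | subst φ s t => T.node (T.unary 8) (T.node φ.enc (T.node s.enc t.enc))
  | mp φ ψ => T.node (T.unary 9) (T.node φ.enc ψ.enc)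
  | gen φ => T.node (T.unary 10) φ.enc

/-- Proofs as trees. -/
def encProof : List Step → T
  | [] => T.leaf
  | s :: π => T.node s.enc (encProof π)

/-! ### Programs with an oracle, and theories -/

/-- Programs with an oracle: the programs of `Code` with one more instruction `query`. -/
inductive OCode : Type
  | id : OCode
  | leaf : OCode
  | fst : OCode
  | snd : OCode
  | query : OCode
  | pair : OCode → OCode → OCode
  | comp : OCode → OCode → OCode
  | ite : OCode → OCode → OCode → OCode
  | loop : OCode → OCode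
  deriving DecidableEq

/-- `EvalO O c x y t`: relative to the oracle `O` the program `c`, started on `x`, halts with
result `y`, at cost `t`. As for `Eval`; in addition `query` asks whether the number whose binary
digits are on the right spine of `x` is in `O`, with answer `node leaf leaf` for yes and `leaf`
for no. -/
inductive EvalO (O : Om) : OCode → T → T → ℕ → Prop
  | id (x : T) : EvalO O OCode.id x x x.size
  | leaf (x : T) : EvalO O OCode.leaf x T.leaf 1
  | fst (x : T) : EvalO O OCode.fst x x.left x.size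
  | snd (x : T) : EvalO O OCode.snd x x.right x.size
  | query (x : T) : EvalO O OCode.query x (ofBool (O (bn x))) (x.size + 3)
  | pair {f g : OCode} {x a b : T} {s t : ℕ} :
      EvalO O f x a s → EvalO O g x b t → EvalO O (OCode.pair f g) x (T.node a b) (s + t + 1)
  | comp {f g : OCode} {x y z : T} {s t : ℕ} :
      EvalO O g x y s → EvalO O f y z t → EvalO O (OCode.comp f g) x z (s + t + 1)
  | ite_leaf {c f g : OCode} {x y : T} {s t : ℕ} :
      EvalO O c x T.leaf s → EvalO O f x y t → EvalO O (OCode.ite c f g) x y (s + t + 1)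
  | ite_node {c f g : OCode} {x a b y : T} {s t : ℕ} :
      EvalO O c x (T.node a b) s → EvalO O g x y t → EvalO O (OCode.ite c f g) x y (s + t + 1)
  | loop_stop {f : OCode} {x : T} : x.left = T.leaf →
      EvalO O (OCode.loop f) x x.right (x.size + 1)
  | loop_step {f : OCode} {x y z : T} {s t : ℕ} : x.left ≠ T.leaf →
      EvalO O f x y s → EvalO O (OCode.loop f) y z t → EvalO O (OCode.loop f) x z (s + t + 1)

/-- A function on trees is computable in polynomial time relative to `O`. -/
def PolyTimeO (O : Om) (f : T → T) : Prop :=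
  ∃ (c : OCode) (k : ℕ), ∀ x : T, ∃ t : ℕ, EvalO O c x (f x) t ∧ t ≤ (x.size + 2) ^ k

/-- Programs with an oracle as trees. -/
def OCode.enc : OCode → T
  | OCode.id => T.node (T.unary 0) T.leaf
  | OCode.leaf => T.node (T.unary 1) T.leaf
  | OCode.fst => T.node (T.unary 2) T.leaf
  | OCode.snd => T.node (T.unary 3) T.leaf
  | OCode.pair f g => T.node (T.unary 4) (T.node f.enc g.enc)
  | OCode.comp f g => T.node (T.unary 5) (T.node f.enc g.enc)
  | OCode.ite c f g => T.node (T.unary 6) (T.node c.enc (T.node f.enc g.enc))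
  | OCode.loop f => T.node (T.unary 7) f.enc
  | OCode.query => T.node (T.unary 8) T.leaf

/-- The class `𝒯` relative to `O`: consistent theories obtained from `S^1_2(O)` and the diagram of
`O` by adding a set of axioms that is decidable in polynomial time relative to `O`. -/
def InClassT (O : Om) (Th : Set Fm) : Prop :=
  Consistent Th ∧ ∃ f : T → T, PolyTimeO O f ∧
    ∀ φ : Fm, φ ∈ Th ↔ φ ∈ S12 ∨ φ ∈ diag O ∨ f φ.enc ≠ T.leaf

/-- Relative to `O` the program `c` with the clock `(size x + 2) ^ κ` accepts `x`. -/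
def Accepts (O : Om) (c : OCode) (κ : ℕ) (x : T) : Prop :=
  ∃ (y : T) (t : ℕ), EvalO O c x y t ∧ t ≤ (x.size + 2) ^ κ ∧ y ≠ T.leaf

/-- Relative to `O` the program `c` halts on every input within the clock `(size x + 2) ^ κ`. -/
def HaltsWithin (O : Om) (c : OCode) (κ : ℕ) : Prop :=
  ∀ x : T, ∃ (y : T) (t : ℕ), EvalO O c x y t ∧ t ≤ (x.size + 2) ^ κ

/-- The theory presented, relative to `O`, by a clocked program: `S^1_2(O)`, the diagram of `O`
and all formulas that it accepts. -/
def theory (O : Om) (c : OCode) (κ : ℕ) : Set Fm :=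
  {φ | φ ∈ S12 ∨ φ ∈ diag O ∨ Accepts O c κ φ.enc}

/-! ### The universal formula and finite reflection -/

/-- `μ` is a universal `Σ^b_1(O)` formula `μ₁(e, x, z)`, with `e`, `x`, `z` the variables `0`,
`1`, `2`: it is `Σ^b_1(O)`, has no other free variables, and for every `Σ^b_1(O)` formula `α(x)`
there are a number `e` and a polynomial `p` such that `S^1_2(O)` proves
`p(|x|) ≤ |z| → (α(x) ↔ μ₁(e, x, z))`. -/
def IsUniversal (μ : Fm) : Prop :=
  μ.isSigma = true ∧ μ.fvBelow 3 ∧ ∀ α : Fm, α.isSigma = true → α.fvBelow 1 →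
    ∃ (e : ℕ) (p : Tm), p.isPoly ∧
      Provable S12 (Fm.imp (Fm.le (p.inst 0 (Tm.len (Tm.var 0))) (Tm.len (Tm.var 1)))
        (Fm.iff α (μ.inst 0 (Tm.numeral e))))

/-- The sentence `μ₁(e, x, z)` with the binary numerals of `e`, `x`, `z`. -/
def inst3 (μ : Fm) (e x z : ℕ) : Fm :=
  ((μ.inst 0 (Tm.numeral e)).inst 0 (Tm.numeral x)).inst 0 (Tm.numeral z)

/-- `P` assigns to every clocked program `(c, κ)` a `Δ^b_1(O)` formula `P c κ (e, x, z, u)`
(variables `0`, `1`, `2`, `3`) expressing, for every oracle `O`, that `u` is a proof of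
`μ₁(e, x, z)` in the theory presented by `(c, κ)` relative to `O`; the assignment is computable in
polynomial time. -/
structure IsFormalisation (μ : Fm) (P : OCode → ℕ → Fm) : Prop where
  delta : ∀ c κ, (P c κ).isSigma = true ∧
    ∃ Q : Fm, Q.isPi = true ∧ Provable S12 (Fm.iff (P c κ) Q)
  below : ∀ c κ, (P c κ).fvBelow 4
  correct : ∀ (O : Om) c κ (e x z u : ℕ),
    (P c κ).sat (stdN O) (scons e (scons x (scons z (scons u fun _ => 0)))) ↔
      ∃ π : List Step, u = (encProof π).num ∧ IsProof (theory O c κ) π (inst3 μ e x z)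
  poly : ∃ f : T → T, PolyTime f ∧ ∀ c κ, f (T.node c.enc (T.unary κ)) = (P c κ).enc

/-- The finite uniform `Σ^b_1(O)` reflection sentence `Σ^b_1RFN(n)` for the proof formula `P` and
the universal formula `μ`: for all `u, z, x, e` of length at most `n`, if `P(e, x, z, u)` then
`μ₁(e, x, z)`. -/
def rfn (P μ : Fm) (n : ℕ) : Fm :=
  let g (i : ℕ) (φ : Fm) : Fm := Fm.imp (Fm.le (Tm.len (Tm.var i)) (Tm.numeral n)) φ
  Fm.all (Fm.all (Fm.all (Fm.all (g 0 (g 1 (g 2 (g 3 (Fm.imp P μ))))))))

/-- The assertion of Q1 relative to the oracle `O`: for every `S` in the class there is a `T` in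
the class, given by a clocked program `(c, κ)`, such that `S`-proofs of the reflection sentences
of `T` for `n` cannot be constructed, relative to `O`, in time polynomial in `n`. -/
def ReflectionConjecture (O : Om) (μ : Fm) (P : OCode → ℕ → Fm) : Prop :=
  ∀ S : Set Fm, InClassT O S → ∃ (c : OCode) (κ : ℕ), HaltsWithin O c κ ∧
    InClassT O (theory O c κ) ∧
    ¬ ∃ f : T → T, PolyTimeO O f ∧ ∀ n : ℕ, ∃ π : List Step,
      f (T.unary n) = encProof π ∧ IsProof S π (rfn (P c κ) μ n)

/-- The join of two oracles: `A` on the even and `R` on the odd numbers. -/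
def join (A R : Om) : Om := fun n => if n % 2 = 0 then A (n / 2) else R (n / 2)

end Pool.Agent.RO
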