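import Pool.Agent.RO.Prog

/-!
# Locality of provability

A proof of size at most `B` in a theory presented by a clocked oracle program depends on few bits
of the oracle, at positions of small binary length.
-/

namespace Pool.Agent.RO

open Pool.Agent.H19 (T PolyTime Tm scons bn ofBool)

theorem size_le_numeral (n : ℕ) : n.size ≤ (Tm.numeral n).enc.size := by
  induction n using Nat.strong_induction_on with
  | _ n ih =>
    by_cases h : n = 0
    · subst h; simp
    · have h1 := ih (n / 2) (by omega)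
      have h2 : n.size = (n / 2).size + 1 := H19.Nat.size_eq_size_half h
      rw [H19.Tm.numeral_pos h, h2]
      split_ifs
      · simp only [Tm.enc, T.size, H19.T.size_unary]; omega
      · simp only [Tm.enc, T.size, H19.T.size_unary]; omega

/-- Locality of membership in a theory. -/
theorem theory_loc {O : Om} {c : OCode} {κ : ℕ} {φ : Fm} (h : φ ∈ theory O c κ) :
    ∃ Q : Finset ℕ, Q.card ≤ (φ.enc.size + 2) ^ (κ + 1) ∧
      (∀ n ∈ Q, n.size ≤ (φ.enc.size + 2) ^ (κ + 1)) ∧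
      ∀ O' : Om, (∀ n ∈ Q, O' n = O n) → φ ∈ theory O' c κ := by
  have hpos : 1 ≤ (φ.enc.size + 2) ^ (κ + 1) := Nat.one_le_pow _ _ (by omega)
  have hle : φ.enc.size + 2 ≤ (φ.enc.size + 2) ^ (κ + 1) := by
    rw [pow_succ]
    exact Nat.le_mul_of_pos_left _ (Nat.pow_pos (by omega))
  rcases h with h | ⟨n, ⟨hn, rfl⟩ | ⟨hn, rfl⟩⟩ | h
  · exact ⟨∅, by simp, by simp, fun O' _ => Or.inl h⟩
  · refine ⟨{n}, by simpa using hpos, ?_, fun O' hO' => Or.inr (Or.inl ⟨n, Or.inl ⟨?_, rfl⟩⟩)⟩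
    · intro m hm
      rw [Finset.mem_singleton.1 hm]
      have h1 := size_le_numeral n
      have h2 : (Tm.numeral n).enc.size ≤ (Fm.rel (Tm.numeral n)).enc.size := by
        simp only [Fm.enc, T.size]; omega
      omega
    · rw [hO' n (Finset.mem_singleton_self _)]; exact hn
  · refine ⟨{n}, by simpa using hpos, ?_, fun O' hO' => Or.inr (Or.inl ⟨n, Or.inr ⟨?_, rfl⟩⟩)⟩
    · intro m hm
      rw [Finset.mem_singleton.1 hm]
      have h1 := size_le_numeral n
      have h2 : (Tm.numeral n).enc.size ≤ (Fm.neg (Fm.rel (Tm.numeral n))).enc.size := by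
        simp only [Fm.neg, Fm.enc, T.size]; omega
      omega
    · rw [hO' n (Finset.mem_singleton_self _)]; exact hn
  · obtain ⟨Q, h1, h2, h3⟩ := h.loc
    have hk : (φ.enc.size + 2) ^ κ ≤ (φ.enc.size + 2) ^ (κ + 1) :=
      Nat.pow_le_pow_right (by omega) (by omega)
    exact ⟨Q, h1.trans hk, fun n hn => (h2 n hn).trans hk, fun O' hO' =>
      Or.inr (Or.inr (h3 O' hO'))⟩

theorem length_le_size (π : List Step) : π.length ≤ (encProof π).size := by
  induction π with
  | nil => simp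
  | cons s π ih =>
    have := H19.T.size_pos s.enc
    simp only [encProof, T.size, List.length_cons]; omega

/-- Locality of derivations. -/
theorem Derives.loc {O : Om} {c : OCode} {κ : ℕ} (B : ℕ) (π : List Step) :
    ∀ (prev : List Fm) (φ : Fm), Derives (theory O c κ) prev π φ → (encProof π).size ≤ B →
    ∃ Q : Finset ℕ, Q.card ≤ π.length * (B + 2) ^ (κ + 1) ∧
      (∀ n ∈ Q, n.size ≤ (B + 2) ^ (κ + 1)) ∧
      ∀ O' : Om, (∀ n ∈ Q, O' n = O n) → Derives (theory O' c κ) prev π φ := by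
  classical
  induction π with
  | nil =>
    intro prev φ h _
    exact ⟨∅, by simp, by simp, fun O' _ => h⟩
  | cons s π ih =>
    intro prev φ h hB
    obtain ⟨hs, hd⟩ := h
    simp only [encProof, T.size] at hB
    obtain ⟨Q, h1, h2, h3⟩ := ih _ φ hd (by omega)
    have key : ∃ Q' : Finset ℕ, Q'.card ≤ (B + 2) ^ (κ + 1) ∧
        (∀ n ∈ Q', n.size ≤ (B + 2) ^ (κ + 1)) ∧
        ∀ O' : Om, (∀ n ∈ Q', O' n = O n) → s.ok (theory O' c κ) prev := by
      by_cases hh : ∃ ψ, s = Step.hyp ψ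
      · obtain ⟨ψ, rfl⟩ := hh
        obtain ⟨Q', g1, g2, g3⟩ := theory_loc (hs : ψ ∈ theory O c κ)
        have hle : (ψ.enc.size + 2) ^ (κ + 1) ≤ (B + 2) ^ (κ + 1) := by
          refine Nat.pow_le_pow_left ?_ _
          simp only [Step.enc, T.size] at hB
          omega
        exact ⟨Q', g1.trans hle, fun n hn => (g2 n hn).trans hle, g3⟩
      · refine ⟨∅, by simp, by simp, fun O' _ => ?_⟩
        cases s with
        | hyp ψ => exact absurd ⟨ψ, rfl⟩ hh
        | _ => exact hs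
    obtain ⟨Q', g1, g2, g3⟩ := key
    refine ⟨Q ∪ Q', ?_, ?_, fun O' hO' => ⟨?_, ?_⟩⟩
    · refine (Finset.card_union_le _ _).trans ?_
      rw [List.length_cons, Nat.succ_mul]
      omega
    · intro n hn
      rcases Finset.mem_union.1 hn with hn | hn
      · exact h2 n hn
      · exact g2 n hn
    · exact g3 O' fun n hn => hO' n (Finset.mem_union_right _ hn)
    · exact h3 O' fun n hn => hO' n (Finset.mem_union_left _ hn)

/-- **Locality of proofs.** -/
theorem IsProof.loc {O : Om} {c : OCode} {κ B : ℕ} {π : List Step} {φ : Fm}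
    (h : IsProof (theory O c κ) π φ) (hB : (encProof π).size ≤ B) :
    ∃ Q : Finset ℕ, Q.card ≤ (B + 2) ^ (κ + 2) ∧ (∀ n ∈ Q, n.size ≤ (B + 2) ^ (κ + 1)) ∧
      ∀ O' : Om, (∀ n ∈ Q, O' n = O n) → IsProof (theory O' c κ) π φ := by
  obtain ⟨Q, h1, h2, h3⟩ := Derives.loc B π [] φ h hB
  refine ⟨Q, h1.trans ?_, h2, h3⟩
  have := length_le_size π
  calc π.length * (B + 2) ^ (κ + 1) ≤ (B + 2) * (B + 2) ^ (κ + 1) :=
        Nat.mul_le_mul_right _ (by omega)
    _ = (B + 2) ^ (κ + 2) := by ring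

/-- The theory presented by `(c, κ)` has a proof of `φ` of size at most `B`. -/
def ShortProof (O : Om) (c : OCode) (κ B : ℕ) (φ : Fm) : Prop :=
  ∃ π : List Step, (encProof π).size ≤ B ∧ IsProof (theory O c κ) π φ

theorem ShortProof.loc {O : Om} {c : OCode} {κ B : ℕ} {φ : Fm} (h : ShortProof O c κ B φ) :
    ∃ Q : Finset ℕ, Q.card ≤ (B + 2) ^ (κ + 2) ∧ (∀ n ∈ Q, n.size ≤ (B + 2) ^ (κ + 1)) ∧
      ∀ O' : Om, (∀ n ∈ Q, O' n = O n) → ShortProof O' c κ B φ := by
  obtain ⟨π, hB, hπ⟩ := h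
  obtain ⟨Q, h1, h2, h3⟩ := hπ.loc hB
  exact ⟨Q, h1, h2, fun O' hO' => ⟨π, hB, h3 O' hO'⟩⟩

/-- Locality of short proofs relative to the join of a fixed oracle `A` and `R`, in terms of the
bits of `R`. -/
theorem ShortProof.loc_join {A R : Om} {c : OCode} {κ B : ℕ} {φ : Fm}
    (h : ShortProof (join A R) c κ B φ) :
    ∃ Q : Finset ℕ, Q.card ≤ (B + 2) ^ (κ + 2) ∧
      (∀ n ∈ Q, (2 * n + 1).size ≤ (B + 2) ^ (κ + 1)) ∧
      ∀ R' : Om, (∀ n ∈ Q, R' n = R n) → ShortProof (join A R') c κ B φ := by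
  classical
  obtain ⟨Q, h1, h2, h3⟩ := h.loc
  refine ⟨(Q.filter (fun n => n % 2 = 1)).image (fun n => n / 2),
    Finset.card_image_le.trans ((Finset.card_filter_le _ _).trans h1), ?_, fun R' hR' => ?_⟩
  · intro n hn
    obtain ⟨m, hm, rfl⟩ := Finset.mem_image.1 hn
    obtain ⟨hm1, hm2⟩ := Finset.mem_filter.1 hm
    have : 2 * (m / 2) + 1 = m := by omega
    rw [this]
    exact h2 m hm1
  · refine h3 _ fun n hn => ?_
    by_cases h4 : n % 2 = 0
    · simp [join, h4]
    · simp only [join, h4, if_false]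
      exact hR' _ (Finset.mem_image.2 ⟨n, Finset.mem_filter.2 ⟨hn, by omega⟩, rfl⟩)

end Pool.Agent.RO
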