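import Pool.Agent.RO.All

/-!
# The reflection conjecture (Q1) holds relative to a random oracle, above every base oracle

All notions are relativised to an oracle `O ⊆ ℕ`: the language has a predicate symbol for `O`,
`S^1_2(O)` has polynomial induction for `Σ^b_1(O)` formulas, every theory of the class `𝒯`
relative to `O` contains `S^1_2(O)` and the diagram of `O`, and its axioms are decidable in
polynomial time relative to `O`.  Let `μ` be a universal `Σ^b_1(O)` formula and let `P` be an
assignment of `Δ^b_1(O)` proof formulas to clocked programs.  For every oracle `A` and almost every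
`R` (fair coin), relative to `O = A ⊕ R`: for all `S` and `T₀` in `𝒯` the theory `T₀` is presented
by a program `c` with a clock `κ` such that for infinitely many `n` all `S`-proofs of the
reflection sentence for `n` formed with this presentation have size greater than `2 ^ (n / e)`.
-/

namespace Pool.Agent.RO.RandomOracleResult

open Pool.Agent.RO

theorem result (μ : Fm) (hμ : IsUniversal μ) (P : OCode → ℕ → Fm) (hP : IsFormalisation μ P)
    (A : Om) :
    ∀ᵐ R ∂coin, ∀ S T₀ : Set Fm, InClassT (join A R) S → InClassT (join A R) T₀ →
      ∃ (c : OCode) (κ : ℕ), HaltsWithin (join A R) c κ ∧ theory (join A R) c κ = T₀ ∧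
        ∃ e : ℕ, 0 < e ∧ ∀ N : ℕ, ∃ n ≥ N, ∀ π : List Step,
          IsProof S π (rfn (P c κ) μ n) → 2 ^ (n / e) < (encProof π).size := by
  filter_upwards [main μ hμ P hP A] with R hR
  exact hR.1

end Pool.Agent.RO.RandomOracleResult
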